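import Mathlib
import Pool.Agent.R528.RM.Gold

set_option autoImplicit false
set_option linter.unusedSectionVars false

/-! # An exponential inequality of Freedman type for predictable sums over adapted random sets -/

open MeasureTheory Filter Set
open scoped ENNReal Topology

namespace Pool.Agent.N909.TF

open Pool.Agent.R528.RM

variable {Ω : Type} {m0 : MeasurableSpace Ω} {μ : Measure Ω} [IsProbabilityMeasure μ]
  {ℱ : Filtration ℕ m0} {A : ℕ → Set Ω}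

/-- the exponent of the exponential supermartingale -/
noncomputable def Ex (μ : Measure Ω) (ℱ : Filtration ℕ m0) (A : ℕ → Set Ω) (t : ℝ) (w : ℕ → Ω → ℝ) (M : ℕ)
    (ω : Ω) : ℝ :=
  ∑ k ∈ Finset.range M, w k ω * (t * (A (k + 1)).indicator (fun _ => (1 : ℝ)) ω -
    (Real.exp t - 1) * dens μ ℱ A k ω)

lemma Ex_meas (hA : ∀ n, MeasurableSet[ℱ n] (A n)) (t : ℝ) (w : ℕ → Ω → ℝ)
    (hw : ∀ k, StronglyMeasurable[ℱ k] (w k)) (M : ℕ) :
    StronglyMeasurable[ℱ M] (Ex μ ℱ A t w M) := by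
  have h1 : Ex μ ℱ A t w M = ∑ k ∈ Finset.range M, (w k * ((fun _ => t) * (A (k + 1)).indicator (fun _ => (1 : ℝ)) -
      (fun _ => Real.exp t - 1) * dens μ ℱ A k)) := by
    funext ω
    simp [Ex]
  rw [h1]
  refine Finset.stronglyMeasurable_sum _ fun k hk => ?_
  have hk' := Finset.mem_range.1 hk
  have h2 : StronglyMeasurable[ℱ M] (w k) := (hw k).mono (ℱ.mono (by omega))
  have h3 : StronglyMeasurable[ℱ M] ((A (k + 1)).indicator (fun _ => (1 : ℝ))) :=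
    (@stronglyMeasurable_const _ _ (ℱ M) _ _).indicator (ℱ.mono (by omega) _ (hA (k + 1)))
  have h4 : StronglyMeasurable[ℱ M] (dens μ ℱ A k) := (dens_meas _).mono (ℱ.mono (by omega))
  have h3' : StronglyMeasurable[ℱ M] ((fun _ => t) * (A (k + 1)).indicator (fun _ => (1 : ℝ))) :=
    @StronglyMeasurable.mul _ _ _ _ (ℱ M) _ _ _ (@stronglyMeasurable_const _ _ (ℱ M) _ _) h3
  have h4' : StronglyMeasurable[ℱ M] ((fun _ => Real.exp t - 1) * dens μ ℱ A k) :=
    @StronglyMeasurable.mul _ _ _ _ (ℱ M) _ _ _ (@stronglyMeasurable_const _ _ (ℱ M) _ _) h4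
  have h5 := @StronglyMeasurable.sub _ _ _ _ (ℱ M) _ _ _ h3' h4'
  exact @StronglyMeasurable.mul _ _ _ _ (ℱ M) _ _ _ h2 h5

lemma term_bound {t w I D : ℝ} (hw0 : 0 ≤ w) (hw1 : w ≤ 1) (hI0 : 0 ≤ I) (hI1 : I ≤ 1) (hD0 : 0 ≤ D) (hD1 : D ≤ 1) :
    |w * (t * I - (Real.exp t - 1) * D)| ≤ |t| + |Real.exp t - 1| := by
  rw [abs_mul, abs_of_nonneg hw0]
  have h1 : |t * I - (Real.exp t - 1) * D| ≤ |t| + |Real.exp t - 1| := by
    refine (abs_sub _ _).trans (add_le_add ?_ ?_)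
    · rw [abs_mul, abs_of_nonneg hI0]
      exact mul_le_of_le_one_right (abs_nonneg _) hI1
    · rw [abs_mul, abs_of_nonneg hD0]
      exact mul_le_of_le_one_right (abs_nonneg _) hD1
  calc w * |t * I - (Real.exp t - 1) * D| ≤ 1 * (|t| + |Real.exp t - 1|) :=
        mul_le_mul hw1 h1 (abs_nonneg _) zero_le_one
    _ = _ := one_mul _

lemma Ex_bound (hA : ∀ n, MeasurableSet[ℱ n] (A n)) (t : ℝ) (w : ℕ → Ω → ℝ)
    (hw1 : ∀ k ω, 0 ≤ w k ω ∧ w k ω ≤ 1) (M : ℕ) :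
    ∀ᵐ ω ∂μ, |Ex μ ℱ A t w M ω| ≤ M * (|t| + |Real.exp t - 1|) := by
  have h1 : ∀ᵐ ω ∂μ, ∀ n, 0 ≤ dens μ ℱ A n ω ∧ dens μ ℱ A n ω ≤ 1 := ae_all_iff.2 fun n => dens01 hA n
  filter_upwards [h1] with ω hω
  unfold Ex
  refine (Finset.abs_sum_le_sum_abs _ _).trans ?_
  refine (Finset.sum_le_card_nsmul _ _ (|t| + |Real.exp t - 1|) fun k _ => ?_).trans
    (le_of_eq (by rw [Finset.card_range, nsmul_eq_mul]))
  exact term_bound (hw1 k ω).1 (hw1 k ω).2 (indicator_nonneg (fun _ _ => zero_le_one) _)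
    (indicator_le_self' (fun _ _ => zero_le_one) ω) (hω k).1 (hω k).2

lemma exp_conv {w t : ℝ} (hw0 : 0 ≤ w) (hw1 : w ≤ 1) : Real.exp (w * t) ≤ 1 + w * (Real.exp t - 1) := by
  have h := convexOn_exp.2 (mem_univ 0) (mem_univ t) (sub_nonneg.2 hw1) hw0 (by ring)
  simp only [smul_eq_mul, mul_zero, zero_add, Real.exp_zero, mul_one] at h
  linarith

theorem Ex_int (hA : ∀ n, MeasurableSet[ℱ n] (A n)) (t : ℝ) (w : ℕ → Ω → ℝ)
    (hw : ∀ k, StronglyMeasurable[ℱ k] (w k)) (hw1 : ∀ k ω, 0 ≤ w k ω ∧ w k ω ≤ 1) (M : ℕ) :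
    Integrable (fun ω => Real.exp (Ex μ ℱ A t w M ω)) μ := by
  have hm : AEStronglyMeasurable (fun ω => Real.exp (Ex μ ℱ A t w M ω)) μ :=
    Real.continuous_exp.comp_aestronglyMeasurable
      ((Ex_meas (μ := μ) hA t w hw M).mono (ℱ.le _)).aestronglyMeasurable
  refine Integrable.of_bound hm (Real.exp (M * (|t| + |Real.exp t - 1|))) ?_
  filter_upwards [Ex_bound (μ := μ) (ℱ := ℱ) hA t w hw1 M] with ω hω
  rw [Real.norm_eq_abs, abs_of_pos (Real.exp_pos _)]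
  exact Real.exp_le_exp.2 ((le_abs_self _).trans hω)

theorem Ex_mgf (hA : ∀ n, MeasurableSet[ℱ n] (A n)) (t : ℝ) (w : ℕ → Ω → ℝ)
    (hw : ∀ k, StronglyMeasurable[ℱ k] (w k)) (hw1 : ∀ k ω, 0 ≤ w k ω ∧ w k ω ≤ 1) (M : ℕ) :
    ∫ ω, Real.exp (Ex μ ℱ A t w M ω) ∂μ ≤ 1 := by
  have hint := Ex_int (μ := μ) hA t w hw hw1
  induction M with
  | zero => simp [Ex]
  | succ M ih =>
    set D := dens μ ℱ A M with hD
    set I := (A (M + 1)).indicator (fun _ => (1 : ℝ)) with hI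
    set c : ℝ := Real.exp t - 1 with hc
    set E : Ω → ℝ := fun ω => Real.exp (Ex μ ℱ A t w M ω) with hE
    set f : Ω → ℝ := fun ω => E ω * Real.exp (-(c * (w M ω * D ω))) with hf
    have hs : ∀ ω, Ex μ ℱ A t w (M + 1) ω = Ex μ ℱ A t w M ω + w M ω * (t * I ω - c * D ω) := by
      intro ω
      unfold Ex
      rw [Finset.sum_range_succ]
    have h01 := dens01 (μ := μ) (ℱ := ℱ) hA M
    have hpt : ∀ᵐ ω ∂μ, Real.exp (Ex μ ℱ A t w (M + 1) ω) ≤ f ω + c * (f ω * w M ω * I ω) := by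
      filter_upwards [h01] with ω hω
      have h2 : Real.exp (w M ω * (t * I ω)) ≤ 1 + w M ω * I ω * c := by
        by_cases hx : ω ∈ A (M + 1)
        · have hI1 : I ω = 1 := by rw [hI, indicator_of_mem hx]
          rw [hI1, mul_one, mul_one]
          exact exp_conv (hw1 M ω).1 (hw1 M ω).2
        · have hI1 : I ω = 0 := by rw [hI, indicator_of_notMem hx]
          rw [hI1]
          simp
      have h3 : Real.exp (Ex μ ℱ A t w (M + 1) ω) = f ω * Real.exp (w M ω * (t * I ω)) := by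
        rw [hs]
        simp only [hf, hE]
        rw [← Real.exp_add, ← Real.exp_add]
        congr 1
        ring
      rw [h3]
      calc f ω * Real.exp (w M ω * (t * I ω)) ≤ f ω * (1 + w M ω * I ω * c) :=
            mul_le_mul_of_nonneg_left h2 (mul_nonneg (Real.exp_pos _).le (Real.exp_pos _).le)
        _ = _ := by ring
    have hEm : StronglyMeasurable[ℱ M] E :=
      Real.continuous_exp.comp_stronglyMeasurable (Ex_meas (μ := μ) hA t w hw M)
    have hwD : StronglyMeasurable[ℱ M] (fun ω => w M ω * D ω) :=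
      @StronglyMeasurable.mul _ _ _ _ (ℱ M) _ _ _ (hw M) (dens_meas M)
    have hfm : StronglyMeasurable[ℱ M] f :=
      @StronglyMeasurable.mul _ _ _ _ (ℱ M) _ _ _ hEm
        (Real.continuous_exp.comp_stronglyMeasurable ((hwD.const_mul c).neg))
    have hfwm : StronglyMeasurable[ℱ M] (fun ω => f ω * w M ω) :=
      @StronglyMeasurable.mul _ _ _ _ (ℱ M) _ _ _ hfm (hw M)
    set B : ℝ := Real.exp (M * (|t| + |c|)) * Real.exp |c| with hB
    have hfb0 : ∀ᵐ ω ∂μ, ‖f ω‖ ≤ B := by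
      filter_upwards [Ex_bound (μ := μ) (ℱ := ℱ) hA t w hw1 M, h01] with ω hω h2
      rw [Real.norm_eq_abs, abs_of_pos (mul_pos (Real.exp_pos _) (Real.exp_pos _))]
      refine mul_le_mul (Real.exp_le_exp.2 ((le_abs_self _).trans hω)) (Real.exp_le_exp.2 ?_) (Real.exp_pos _).le
        (Real.exp_pos _).le
      refine (neg_le_abs _).trans ?_
      rw [abs_mul]
      refine mul_le_of_le_one_right (abs_nonneg _) ?_
      rw [abs_mul, abs_of_nonneg (hw1 M ω).1, abs_of_nonneg h2.1]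
      exact mul_le_one₀ (hw1 M ω).2 h2.1 h2.2
    have hfb : ∀ᵐ ω ∂μ, ‖f ω * w M ω‖ ≤ B := by
      filter_upwards [hfb0] with ω hω
      rw [norm_mul]
      have h3 : ‖w M ω‖ ≤ 1 := by
        rw [Real.norm_eq_abs, abs_of_nonneg (hw1 M ω).1]
        exact (hw1 M ω).2
      calc ‖f ω‖ * ‖w M ω‖ ≤ B * 1 := mul_le_mul hω h3 (norm_nonneg _) (by positivity)
        _ = _ := mul_one _
    have hpull := pull_A (μ := μ) hA M hfwm B hfb
    have hfam : AEStronglyMeasurable f μ := (hfm.mono (ℱ.le _)).aestronglyMeasurable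
    have hfwam : AEStronglyMeasurable (fun ω => f ω * w M ω) μ := (hfwm.mono (ℱ.le _)).aestronglyMeasurable
    have hIam : AEStronglyMeasurable I μ :=
      ((stronglyMeasurable_const.indicator (ℱ.le _ _ (hA (M + 1))))).aestronglyMeasurable
    have hDam : AEStronglyMeasurable D μ := ((dens_meas M).mono (ℱ.le _)).aestronglyMeasurable
    have i0 : Integrable f μ := Integrable.of_bound hfam B hfb0
    have i1 : Integrable (fun ω => f ω * w M ω * I ω) μ := by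
      refine Integrable.of_bound (hfwam.mul hIam) B ?_
      filter_upwards [hfb] with ω hω
      rw [norm_mul]
      have hI1 : ‖I ω‖ ≤ 1 := by
        rw [Real.norm_eq_abs, abs_of_nonneg (indicator_nonneg (fun _ _ => zero_le_one) _)]
        exact indicator_le_self' (fun _ _ => zero_le_one) ω
      calc _ ≤ B * 1 := mul_le_mul hω hI1 (norm_nonneg _) (by positivity)
        _ = _ := mul_one _
    have i2 : Integrable (fun ω => f ω * w M ω * D ω) μ := by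
      refine Integrable.of_bound (hfwam.mul hDam) B ?_
      filter_upwards [hfb, h01] with ω hω h2
      rw [norm_mul]
      have hD1 : ‖D ω‖ ≤ 1 := by
        rw [Real.norm_eq_abs, abs_of_nonneg h2.1]
        exact h2.2
      calc _ ≤ B * 1 := mul_le_mul hω hD1 (norm_nonneg _) (by positivity)
        _ = _ := mul_one _
    have h5 := integral_mono_ae (hint (M + 1)) (i0.add (i1.const_mul c)) hpt
    have h6 : ∫ ω, (f + fun ω => c * (f ω * w M ω * I ω)) ω ∂μ = ∫ ω, (f ω + c * (f ω * w M ω * D ω)) ∂μ := by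
      have e1 : ∫ ω, (f + fun ω => c * (f ω * w M ω * I ω)) ω ∂μ =
          ∫ ω, f ω ∂μ + ∫ ω, c * (f ω * w M ω * I ω) ∂μ := integral_add i0 (i1.const_mul c)
      have e2 : ∫ ω, (f ω + c * (f ω * w M ω * D ω)) ∂μ =
          ∫ ω, f ω ∂μ + ∫ ω, c * (f ω * w M ω * D ω) ∂μ := integral_add i0 (i2.const_mul c)
      rw [e1, e2, integral_const_mul, integral_const_mul, hpull]
    have h7 : ∫ ω, (f ω + c * (f ω * w M ω * D ω)) ∂μ ≤ ∫ ω, E ω ∂μ := by
      refine integral_mono_ae (i0.add (i2.const_mul c)) (hint M) ?_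
      filter_upwards with ω
      have h8 : 1 + c * (w M ω * D ω) ≤ Real.exp (c * (w M ω * D ω)) := by
        have := Real.add_one_le_exp (c * (w M ω * D ω))
        linarith
      have h9 : f ω * Real.exp (c * (w M ω * D ω)) = E ω := by
        simp only [hf]
        rw [mul_assoc, ← Real.exp_add, neg_add_cancel, Real.exp_zero, mul_one]
      show f ω + c * (f ω * w M ω * D ω) ≤ E ω
      calc f ω + c * (f ω * w M ω * D ω) = f ω * (1 + c * (w M ω * D ω)) := by ring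
        _ ≤ f ω * Real.exp (c * (w M ω * D ω)) :=
          mul_le_mul_of_nonneg_left h8 (mul_nonneg (Real.exp_pos _).le (Real.exp_pos _).le)
        _ = E ω := h9
    have h5' : ∫ ω, Real.exp (Ex μ ℱ A t w (M + 1) ω) ∂μ ≤ ∫ ω, (f + fun ω => c * (f ω * w M ω * I ω)) ω ∂μ := h5
    rw [h6] at h5'
    exact (h5'.trans h7).trans ih

/-- the tail bound -/
theorem Ex_tail (hA : ∀ n, MeasurableSet[ℱ n] (A n)) (t : ℝ) (w : ℕ → Ω → ℝ)
    (hw : ∀ k, StronglyMeasurable[ℱ k] (w k)) (hw1 : ∀ k ω, 0 ≤ w k ω ∧ w k ω ≤ 1) (M : ℕ) (a : ℝ) :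
    μ.real {ω | a ≤ Ex μ ℱ A t w M ω} ≤ Real.exp (-a) := by
  have h1 := Ex_mgf (μ := μ) hA t w hw hw1 M
  have hint := Ex_int (μ := μ) hA t w hw hw1 M
  have h2 := mul_meas_ge_le_integral_of_nonneg (μ := μ) (Eventually.of_forall fun ω => (Real.exp_pos (Ex μ ℱ A t w M ω)).le)
    hint (Real.exp a)
  have h3 : μ.real {ω | a ≤ Ex μ ℱ A t w M ω} ≤ μ.real {ω | Real.exp a ≤ Real.exp (Ex μ ℱ A t w M ω)} := by
    apply measureReal_mono _ (measure_ne_top _ _)
    intro ω hω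
    exact Real.exp_le_exp.2 hω
  have h4 : Real.exp a * μ.real {ω | a ≤ Ex μ ℱ A t w M ω} ≤ 1 :=
    (mul_le_mul_of_nonneg_left h3 (Real.exp_pos _).le).trans (h2.trans h1)
  rw [Real.exp_neg, ← one_div, le_div_iff₀ (Real.exp_pos _), mul_comm]
  exact h4

/-- sums of weighted indicators -/
noncomputable def SI (A : ℕ → Set Ω) (w : ℕ → Ω → ℝ) (M : ℕ) (ω : Ω) : ℝ :=
  ∑ k ∈ Finset.range M, w k ω * (A (k + 1)).indicator (fun _ => (1 : ℝ)) ω

/-- sums of weighted conditional probabilities -/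
noncomputable def SD (μ : Measure Ω) (ℱ : Filtration ℕ m0) (A : ℕ → Set Ω) (w : ℕ → Ω → ℝ) (M : ℕ) (ω : Ω) : ℝ :=
  ∑ k ∈ Finset.range M, w k ω * dens μ ℱ A k ω

lemma Ex_eq (t : ℝ) (w : ℕ → Ω → ℝ) (M : ℕ) (ω : Ω) :
    Ex μ ℱ A t w M ω = t * SI A w M ω - (Real.exp t - 1) * SD μ ℱ A w M ω := by
  unfold Ex SI SD
  rw [Finset.mul_sum, Finset.mul_sum, ← Finset.sum_sub_distrib]
  refine Finset.sum_congr rfl fun k _ => ?_
  ring

lemma bc_Ex (hA : ∀ n, MeasurableSet[ℱ n] (A n)) (t : ℝ) (w : ℕ → ℕ → Ω → ℝ) (M : ℕ → ℕ)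
    (hw : ∀ n k, StronglyMeasurable[ℱ k] (w n k)) (hw1 : ∀ n k ω, 0 ≤ w n k ω ∧ w n k ω ≤ 1) :
    ∀ᵐ ω ∂μ, ∀ᶠ n : ℕ in atTop, Ex μ ℱ A t (w n) (M n) ω < 2 * Real.log n := by
  have h1 : Summable (fun n : ℕ => 1 / (n : ℝ) ^ 2) := Real.summable_one_div_nat_pow.2 (by norm_num)
  have h2 := bc_real (μ := μ) (s := fun n : ℕ => {ω | 2 * Real.log n ≤ Ex μ ℱ A t (w n) (M n) ω}) h1 (by
    filter_upwards [eventually_ge_atTop 1] with n hn
    refine (Ex_tail (μ := μ) hA t (w n) (hw n) (hw1 n) (M n) _).trans (le_of_eq ?_)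
    have hn0 : (0 : ℝ) < n := by exact_mod_cast hn
    rw [Real.exp_neg, one_div]
    congr 1
    rw [show (2 : ℝ) * Real.log n = Real.log n + Real.log n by ring, Real.exp_add, Real.exp_log hn0]
    ring)
  filter_upwards [h2] with ω hω
  filter_upwards [hω] with n hn
  exact not_le.1 hn

/-- the law for weighted sums -/
theorem bc_law (hA : ∀ n, MeasurableSet[ℱ n] (A n)) (w : ℕ → ℕ → Ω → ℝ) (M : ℕ → ℕ)
    (hw : ∀ n k, StronglyMeasurable[ℱ k] (w n k)) (hw1 : ∀ n k ω, 0 ≤ w n k ω ∧ w n k ω ≤ 1) :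
    ∀ᵐ ω ∂μ, ∀ η : ℝ, 0 < η → ∃ C : ℝ, 0 ≤ C ∧ ∀ᶠ n : ℕ in atTop,
      SI A (w n) (M n) ω ≤ (1 + η) * SD μ ℱ A (w n) (M n) ω + C * Real.log n ∧
      (1 - η) * SD μ ℱ A (w n) (M n) ω - C * Real.log n ≤ SI A (w n) (M n) ω := by
  have h1 : ∀ᵐ ω ∂μ, ∀ m : ℕ, (∀ᶠ n : ℕ in atTop, Ex μ ℱ A (1 / (m + 1 : ℝ)) (w n) (M n) ω < 2 * Real.log n) ∧
      (∀ᶠ n : ℕ in atTop, Ex μ ℱ A (-(1 / (m + 1 : ℝ))) (w n) (M n) ω < 2 * Real.log n) := by
    refine ae_all_iff.2 fun m => ?_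
    filter_upwards [bc_Ex (μ := μ) hA (1 / (m + 1 : ℝ)) w M hw hw1,
      bc_Ex (μ := μ) hA (-(1 / (m + 1 : ℝ))) w M hw hw1] with ω h1 h2
    exact ⟨h1, h2⟩
  have h01 : ∀ᵐ ω ∂μ, ∀ n, 0 ≤ dens μ ℱ A n ω ∧ dens μ ℱ A n ω ≤ 1 := ae_all_iff.2 fun n => dens01 hA n
  filter_upwards [h1, h01] with ω hω hd η hη
  obtain ⟨m, hm⟩ := exists_nat_one_div_lt hη
  set e : ℝ := 1 / (m + 1 : ℝ) with he
  have he0 : 0 < e := by rw [he]; positivity
  have he1 : e ≤ 1 := by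
    rw [he, div_le_one (by positivity)]
    have : (0 : ℝ) ≤ m := Nat.cast_nonneg m
    linarith
  refine ⟨2 / e, by positivity, ?_⟩
  filter_upwards [(hω m).1, (hω m).2] with n h1 h2
  rw [Ex_eq] at h1 h2
  have hS : 0 ≤ SD μ ℱ A (w n) (M n) ω :=
    Finset.sum_nonneg fun k _ => mul_nonneg (hw1 n k ω).1 (hd k).1
  set S := SD μ ℱ A (w n) (M n) ω
  set X := SI A (w n) (M n) ω
  have b1 := Real.abs_exp_sub_one_sub_id_le (show |e| ≤ 1 by rw [abs_of_pos he0]; exact he1)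
  have b2 := Real.abs_exp_sub_one_sub_id_le (show |-e| ≤ 1 by rw [abs_neg, abs_of_pos he0]; exact he1)
  have c1 : Real.exp e - 1 ≤ e + e ^ 2 := by linarith [(abs_le.1 b1).2]
  have c2 : Real.exp (-e) - 1 ≤ -e + e ^ 2 := by
    have := (abs_le.1 b2).2
    nlinarith
  have d1 : (Real.exp e - 1) * S ≤ (e + e ^ 2) * S := mul_le_mul_of_nonneg_right c1 hS
  have d2 : (Real.exp (-e) - 1) * S ≤ (-e + e ^ 2) * S := mul_le_mul_of_nonneg_right c2 hS
  have hη' : e * S ≤ η * S := mul_le_mul_of_nonneg_right hm.le hS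
  constructor
  · have : e * X ≤ e * ((1 + η) * S + 2 / e * Real.log n) := by
      have e1 : e * (2 / e * Real.log n) = 2 * Real.log n := by field_simp
      rw [mul_add, e1]
      nlinarith
    exact le_of_mul_le_mul_left this he0
  · have : e * ((1 - η) * S - 2 / e * Real.log n) ≤ e * X := by
      have e1 : e * (2 / e * Real.log n) = 2 * Real.log n := by field_simp
      rw [mul_sub, e1]
      nlinarith
    exact le_of_mul_le_mul_left this he0

end Pool.Agent.N909.TF
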