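import Mathlib
import Pool.Agent.N909.TF.Free

set_option autoImplicit false
set_option linter.unusedSectionVars false

/-! # The law of large numbers for families of tuples in adapted random sets -/

open MeasureTheory Filter Set
open scoped ENNReal Topology

namespace Pool.Agent.N909.TF

open Pool.Agent.R528.RM

/-- the number of smaller elements -/
def rk (T : Finset ℕ) (t : ℕ) : ℕ := (T.filter (· < t)).card

lemma rk_lt {T : Finset ℕ} {s t : ℕ} (hs : s ∈ T) (hst : s < t) : rk T s < rk T t := by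
  unfold rk
  apply Finset.card_lt_card
  rw [Finset.ssubset_iff_of_subset]
  · exact ⟨s, Finset.mem_filter.2 ⟨hs, hst⟩, fun h => absurd (Finset.mem_filter.1 h).2 (lt_irrefl _)⟩
  · intro x hx
    rw [Finset.mem_filter] at hx ⊢
    exact ⟨hx.1, hx.2.trans hst⟩

lemma rk_lt_card {T : Finset ℕ} {t : ℕ} (ht : t ∈ T) : rk T t < T.card := by
  unfold rk
  apply Finset.card_lt_card
  rw [Finset.ssubset_iff_of_subset (Finset.filter_subset _ _)]
  exact ⟨t, ht, fun h => absurd (Finset.mem_filter.1 h).2 (lt_irrefl _)⟩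

lemma rk_inj {T : Finset ℕ} {s t : ℕ} (hs : s ∈ T) (ht : t ∈ T) (h : rk T s = rk T t) : s = t := by
  rcases lt_trichotomy s t with h1 | h1 | h1
  · exact absurd h (rk_lt hs h1).ne
  · exact h1
  · exact absurd h (rk_lt ht h1).ne'

lemma rk_exists {T : Finset ℕ} {k i : ℕ} (hk : T.card = k) (hi : i < k) : ∃ t ∈ T, rk T t = i := by
  have h1 : T.image (rk T) = Finset.range k := by
    apply Finset.eq_of_subset_of_card_le
    · intro x hx
      obtain ⟨t, ht, rfl⟩ := Finset.mem_image.1 hx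
      exact Finset.mem_range.2 (hk ▸ rk_lt_card ht)
    · rw [Finset.card_range, Finset.card_image_of_injOn (fun s hs t ht h => rk_inj hs ht h), hk]
  have h2 : i ∈ T.image (rk T) := by rw [h1]; exact Finset.mem_range.2 hi
  obtain ⟨t, ht, h3⟩ := Finset.mem_image.1 h2
  exact ⟨t, ht, h3⟩

lemma rk_le_iff {T : Finset ℕ} {s t : ℕ} (hs : s ∈ T) (ht : t ∈ T) : rk T s < rk T t ↔ s < t := by
  constructor
  · intro h
    by_contra hc
    rcases (not_lt.1 hc).eq_or_lt with h1 | h1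
    · subst h1; exact lt_irrefl _ h
    · exact absurd (rk_lt ht h1) (not_lt.2 h.le)
  · exact rk_lt hs

/-- splitting a product at the element of rank `i` -/
lemma prod_split {T : Finset ℕ} {t : ℕ} (ht : t ∈ T) (f g : ℕ → ℝ) :
    (∏ s ∈ T, (if rk T s < rk T t then f s else g s)) =
      (∏ s ∈ T.filter (· < t), f s) * g t * ∏ s ∈ T.filter (t < ·), g s := by
  classical
  have h1 : T = (T.filter (· < t)) ∪ ({t} ∪ T.filter (t < ·)) := by
    ext s
    simp only [Finset.mem_union, Finset.mem_filter, Finset.mem_singleton]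
    constructor
    · intro hs
      rcases lt_trichotomy s t with h | h | h
      · exact Or.inl ⟨hs, h⟩
      · exact Or.inr (Or.inl h)
      · exact Or.inr (Or.inr ⟨hs, h⟩)
    · rintro (h | h | h)
      · exact h.1
      · rw [h]; exact ht
      · exact h.1
  have d1 : Disjoint (T.filter (· < t)) ({t} ∪ T.filter (t < ·)) := by
    rw [Finset.disjoint_left]
    intro s hs hs'
    rw [Finset.mem_filter] at hs
    rw [Finset.mem_union, Finset.mem_singleton, Finset.mem_filter] at hs'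
    rcases hs' with h | h <;> omega
  have d2 : Disjoint ({t} : Finset ℕ) (T.filter (t < ·)) := by
    rw [Finset.disjoint_left]
    intro s hs hs'
    rw [Finset.mem_singleton] at hs
    rw [Finset.mem_filter] at hs'
    omega
  have e0 : (∏ s ∈ T, (if rk T s < rk T t then f s else g s)) = ∏ s ∈ T, (if s < t then f s else g s) := by
    refine Finset.prod_congr rfl fun s hs => ?_
    simp only [rk_le_iff hs ht]
  rw [e0]
  conv_lhs => rw [h1]
  rw [Finset.prod_union d1, Finset.prod_union d2, Finset.prod_singleton, mul_assoc]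
  congr 1
  · refine Finset.prod_congr rfl fun s hs => ?_
    rw [if_pos (Finset.mem_filter.1 hs).2]
  · congr 1
    · rw [if_neg (lt_irrefl _)]
    · refine Finset.prod_congr rfl fun s hs => ?_
      rw [if_neg (not_lt.2 (Finset.mem_filter.1 hs).2.le)]

lemma prod_split' {T : Finset ℕ} {t : ℕ} (ht : t ∈ T) (f g : ℕ → ℝ) :
    (∏ s ∈ T, (if rk T s < rk T t + 1 then f s else g s)) =
      (∏ s ∈ T.filter (· < t), f s) * f t * ∏ s ∈ T.filter (t < ·), g s := by
  classical
  have h := prod_split ht f (fun s => if s = t then f s else g s)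
  have h1 : (∏ s ∈ T, (if rk T s < rk T t + 1 then f s else g s)) =
      ∏ s ∈ T, (if rk T s < rk T t then f s else (if s = t then f s else g s)) := by
    refine Finset.prod_congr rfl fun s hs => ?_
    by_cases h2 : rk T s < rk T t
    · rw [if_pos h2, if_pos (by omega)]
    · rw [if_neg h2]
      by_cases h3 : s = t
      · rw [if_pos h3, h3, if_pos (by omega)]
      · rw [if_neg h3, if_neg]
        intro h4
        exact h3 (rk_inj hs ht (by omega))
  rw [h1, h]
  simp only [if_true]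
  congr 1
  refine Finset.prod_congr rfl fun s hs => ?_
  rw [if_neg]
  have := (Finset.mem_filter.1 hs).2
  omega

variable {Ω : Type} {m0 : MeasurableSpace Ω} {μ : Measure Ω} [IsProbabilityMeasure μ]
  {ℱ : Filtration ℕ m0} {A : ℕ → Set Ω} {ι : Type}

open Classical in
/-- the predictable weights -/
noncomputable def W (A : ℕ → Set Ω) (ρ : ℕ → ℝ) (J : Finset ι) (T : ι → Finset ℕ) (D i k : ℕ) (ω : Ω) : ℝ :=
  (∑ j ∈ J.filter (fun j => k + 1 ∈ T j ∧ rk (T j) (k + 1) = i),
    (∏ s ∈ (T j).filter (· < k + 1), In A s ω) * ∏ s ∈ (T j).filter (k + 1 < ·), ρ s) / D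

/-- mixed sums -/
noncomputable def Mx (A : ℕ → Set Ω) (ρ : ℕ → ℝ) (J : Finset ι) (T : ι → Finset ℕ) (i : ℕ) (ω : Ω) : ℝ :=
  ∑ j ∈ J, ∏ s ∈ T j, (if rk (T j) s < i then In A s ω else ρ s)

lemma prod01 {α : Type} (s : Finset α) (f : α → ℝ) (h : ∀ a ∈ s, 0 ≤ f a ∧ f a ≤ 1) :
    0 ≤ ∏ a ∈ s, f a ∧ ∏ a ∈ s, f a ≤ 1 :=
  ⟨Finset.prod_nonneg fun a ha => (h a ha).1, Finset.prod_le_one (fun a ha => (h a ha).1) fun a ha => (h a ha).2⟩

lemma W_meas (hA : ∀ n, MeasurableSet[ℱ n] (A n)) (ρ : ℕ → ℝ) (J : Finset ι) (T : ι → Finset ℕ) (D i k : ℕ) :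
    StronglyMeasurable[ℱ k] (W A ρ J T D i k) := by
  classical
  set g : Ω → ℝ := ∑ j ∈ J.filter (fun j => k + 1 ∈ T j ∧ rk (T j) (k + 1) = i),
    ((∏ s ∈ (T j).filter (· < k + 1), In A s) * fun _ => ∏ s ∈ (T j).filter (k + 1 < ·), ρ s) with hg
  have h1 : W A ρ J T D i k = fun ω => g ω * (D : ℝ)⁻¹ := by
    funext ω
    unfold W
    rw [hg, Finset.sum_apply]
    simp only [Pi.mul_apply, Finset.prod_apply]
    rw [div_eq_mul_inv]
  rw [h1]
  refine StronglyMeasurable.mul_const ?_ _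
  refine Finset.stronglyMeasurable_sum _ fun j _ => ?_
  refine @StronglyMeasurable.mul _ _ _ _ (ℱ k) _ _ _ ?_ (@stronglyMeasurable_const _ _ (ℱ k) _ _)
  refine Finset.stronglyMeasurable_prod _ fun s hs => ?_
  have := (Finset.mem_filter.1 hs).2
  exact In_meas hA (by omega)

lemma W_01 {ρ : ℕ → ℝ} (hρ : ∀ n, 0 ≤ ρ n ∧ ρ n ≤ 1) (J : Finset ι) (T : ι → Finset ℕ) (D i k : ℕ)
    (hD : (J.filter (fun j => k + 1 ∈ T j)).card ≤ D) (ω : Ω) :
    0 ≤ W A ρ J T D i k ω ∧ W A ρ J T D i k ω ≤ 1 := by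
  classical
  unfold W
  have hp : ∀ j, 0 ≤ (∏ s ∈ (T j).filter (· < k + 1), In A s ω) * ∏ s ∈ (T j).filter (k + 1 < ·), ρ s ∧
      (∏ s ∈ (T j).filter (· < k + 1), In A s ω) * ∏ s ∈ (T j).filter (k + 1 < ·), ρ s ≤ 1 := by
    intro j
    have h1 := prod01 ((T j).filter (· < k + 1)) (fun s => In A s ω) fun s _ => ⟨In_nonneg s ω, In_le s ω⟩
    have h2 := prod01 ((T j).filter (k + 1 < ·)) ρ fun s _ => hρ s
    exact ⟨mul_nonneg h1.1 h2.1, mul_le_one₀ h1.2 h2.1 h2.2⟩
  constructor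
  · exact div_nonneg (Finset.sum_nonneg fun j _ => (hp j).1) (Nat.cast_nonneg _)
  · refine div_le_one_of_le₀ ?_ (Nat.cast_nonneg _)
    refine (Finset.sum_le_card_nsmul _ _ 1 fun j _ => (hp j).2).trans ?_
    rw [nsmul_eq_mul, mul_one]
    have h3 : (J.filter (fun j => k + 1 ∈ T j ∧ rk (T j) (k + 1) = i)).card ≤ (J.filter (fun j => k + 1 ∈ T j)).card := by
      apply Finset.card_le_card
      intro j hj
      rw [Finset.mem_filter] at hj ⊢
      exact ⟨hj.1, hj.2.1⟩
    exact_mod_cast h3.trans hD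

/-- exchanging the sums -/
lemma W_sum (ρ : ℕ → ℝ) (J : Finset ι) (T : ι → Finset ℕ) {D k i M : ℕ} (hD : 0 < D)
    (hk : ∀ j ∈ J, (T j).card = k) (h0 : ∀ j ∈ J, 0 ∉ T j) (hM : ∀ j ∈ J, ∀ t ∈ T j, t ≤ M) (hi : i < k) (ω : Ω)
    (X : ℕ → ℝ) :
    ∃ t : ι → ℕ, (∀ j ∈ J, t j ∈ T j ∧ rk (T j) (t j) = i) ∧
      (D : ℝ) * ∑ m ∈ Finset.range M, W A ρ J T D i m ω * X (m + 1) =
      ∑ j ∈ J, (∏ s ∈ (T j).filter (· < t j), In A s ω) * X (t j) * ∏ s ∈ (T j).filter (t j < ·), ρ s := by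
  classical
  have hD' : (D : ℝ) ≠ 0 := by exact_mod_cast hD.ne'
  have hex : ∀ j, ∃ t : ℕ, j ∈ J → t ∈ T j ∧ rk (T j) t = i := by
    intro j
    by_cases hj : j ∈ J
    · obtain ⟨t, ht, h1⟩ := rk_exists (hk j hj) hi
      exact ⟨t, fun _ => ⟨ht, h1⟩⟩
    · exact ⟨0, fun h => absurd h hj⟩
  choose t ht using hex
  refine ⟨t, ht, ?_⟩
  have e1 : ∀ m, W A ρ J T D i m ω * X (m + 1) = (∑ j ∈ J, if m + 1 = t j then
      (∏ s ∈ (T j).filter (· < t j), In A s ω) * X (t j) * ∏ s ∈ (T j).filter (t j < ·), ρ s else 0) / D := by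
    intro m
    unfold W
    rw [div_mul_eq_mul_div, Finset.sum_mul, Finset.sum_filter]
    congr 1
    refine Finset.sum_congr rfl fun j hj => ?_
    by_cases h1 : m + 1 = t j
    · rw [if_pos (by rw [h1]; exact ht j hj), if_pos h1, h1]
      ring
    · rw [if_neg h1, if_neg]
      rintro ⟨h2, h3⟩
      exact h1 (rk_inj h2 (ht j hj).1 (h3.trans (ht j hj).2.symm))
  rw [Finset.sum_congr rfl fun m _ => e1 m, ← Finset.sum_div, mul_div_cancel₀ _ hD', Finset.sum_comm]
  refine Finset.sum_congr rfl fun j hj => ?_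
  have h1 : t j ≠ 0 := fun h => h0 j hj (h ▸ (ht j hj).1)
  have h2 : t j ≤ M := hM j hj _ (ht j hj).1
  rw [Finset.sum_eq_single (t j - 1)]
  · rw [if_pos (by omega)]
  · intro b _ hb
    rw [if_neg (by omega)]
  · intro h
    exact absurd (Finset.mem_range.2 (by omega)) h

lemma W_rho (ρ : ℕ → ℝ) (J : Finset ι) (T : ι → Finset ℕ) {D k i M : ℕ} (hD : 0 < D)
    (hk : ∀ j ∈ J, (T j).card = k) (h0 : ∀ j ∈ J, 0 ∉ T j) (hM : ∀ j ∈ J, ∀ t ∈ T j, t ≤ M) (hi : i < k) (ω : Ω) :
    (D : ℝ) * ∑ m ∈ Finset.range M, W A ρ J T D i m ω * ρ (m + 1) = Mx A ρ J T i ω := by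
  obtain ⟨t, ht, h1⟩ := W_sum (A := A) ρ J T hD hk h0 hM hi ω ρ
  rw [h1]
  unfold Mx
  refine Finset.sum_congr rfl fun j hj => ?_
  have h2 := prod_split (ht j hj).1 (fun s => In A s ω) ρ
  rw [(ht j hj).2] at h2
  exact h2.symm

lemma W_In (ρ : ℕ → ℝ) (J : Finset ι) (T : ι → Finset ℕ) {D k i M : ℕ} (hD : 0 < D)
    (hk : ∀ j ∈ J, (T j).card = k) (h0 : ∀ j ∈ J, 0 ∉ T j) (hM : ∀ j ∈ J, ∀ t ∈ T j, t ≤ M) (hi : i < k) (ω : Ω) :
    (D : ℝ) * SI A (W A ρ J T D i) M ω = Mx A ρ J T (i + 1) ω := by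
  obtain ⟨t, ht, h1⟩ := W_sum (A := A) ρ J T hD hk h0 hM hi ω (fun m => In A m ω)
  have h3 : SI A (W A ρ J T D i) M ω = ∑ m ∈ Finset.range M, W A ρ J T D i m ω * In A (m + 1) ω := rfl
  rw [h3, h1]
  unfold Mx
  refine Finset.sum_congr rfl fun j hj => ?_
  have h2 := prod_split' (ht j hj).1 (fun s => In A s ω) ρ
  rw [(ht j hj).2] at h2
  exact h2.symm

lemma Mx_zero (ρ : ℕ → ℝ) (J : Finset ι) (T : ι → Finset ℕ) (ω : Ω) :
    Mx A ρ J T 0 ω = ∑ j ∈ J, ∏ s ∈ T j, ρ s := by
  unfold Mx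
  simp

open Classical in
lemma Mx_top (ρ : ℕ → ℝ) (J : Finset ι) (T : ι → Finset ℕ) {k : ℕ} (hk : ∀ j ∈ J, (T j).card = k) (ω : Ω) :
    Mx A ρ J T k ω = ((J.filter (fun j => ∀ t ∈ T j, ω ∈ A t)).card : ℝ) := by
  unfold Mx
  rw [Finset.card_filter]
  push_cast
  refine Finset.sum_congr rfl fun j hj => ?_
  have h1 : (∏ s ∈ T j, (if rk (T j) s < k then In A s ω else ρ s)) = ∏ s ∈ T j, In A s ω := by
    refine Finset.prod_congr rfl fun s hs => ?_
    rw [if_pos (hk j hj ▸ rk_lt_card hs)]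
  rw [h1]
  by_cases h : ∀ t ∈ T j, ω ∈ A t
  · rw [if_pos h]
    refine Finset.prod_eq_one fun s hs => ?_
    unfold In
    rw [indicator_of_mem (h s hs)]
  · rw [if_neg h]
    push Not at h
    obtain ⟨t, ht, h2⟩ := h
    refine Finset.prod_eq_zero ht ?_
    unfold In
    rw [indicator_of_notMem h2]

/-- **the law of large numbers for families of tuples** -/
theorem families (hA : ∀ n, MeasurableSet[ℱ n] (A n)) (ρ : ℕ → ℝ) (hρ : ∀ n, 0 ≤ ρ n ∧ ρ n ≤ 1)
    (hd : ∀ᵐ ω ∂μ, ∀ ε : ℝ, 0 < ε → ∀ᶠ n : ℕ in atTop, |dens μ ℱ A n ω - ρ (n + 1)| ≤ ε * ρ (n + 1))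
    (k : ℕ) (J : ℕ → Finset ι) (T : ℕ → ι → Finset ℕ) (D : ℕ → ℕ)
    (hk : ∀ n, ∀ j ∈ J n, (T n j).card = k) (h0 : ∀ n, ∀ j ∈ J n, 0 ∉ T n j)
    (hD : ∀ n t, ((J n).filter (fun j => t ∈ T n j)).card ≤ D n)
    (F : Filter ℕ) (hF : F ≤ atTop)
    (hE : Tendsto (fun n => (∑ j ∈ J n, ∏ t ∈ T n j, ρ t) / D n / Real.log n) F atTop) :
    ∀ᵐ ω ∂μ, ∀ δ : ℝ, 0 < δ → ∀ᶠ n : ℕ in F,
      |Mx A ρ (J n) (T n) k ω - ∑ j ∈ J n, ∏ t ∈ T n j, ρ t| ≤ δ * ∑ j ∈ J n, ∏ t ∈ T n j, ρ t := by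
  classical
  -- bounds of the elements
  let M : ℕ → ℕ := fun n => (J n).sup (fun j => (T n j).sup id)
  have hM : ∀ n, ∀ j ∈ J n, ∀ t ∈ T n j, t ≤ M n := by
    intro n j hj t ht
    exact (Finset.le_sup (f := id) ht).trans (Finset.le_sup (f := fun j => (T n j).sup id) hj)
  have h1 : ∀ᵐ ω ∂μ, ∀ i : ℕ, ∀ η : ℝ, 0 < η → ∃ C : ℝ, 0 ≤ C ∧ ∀ᶠ n : ℕ in atTop,
      SI A (W A ρ (J n) (T n) (D n) i) (M n) ω ≤
        (1 + η) * SD μ ℱ A (W A ρ (J n) (T n) (D n) i) (M n) ω + C * Real.log n ∧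
      (1 - η) * SD μ ℱ A (W A ρ (J n) (T n) (D n) i) (M n) ω - C * Real.log n ≤
        SI A (W A ρ (J n) (T n) (D n) i) (M n) ω :=
    ae_all_iff.2 fun i => bc_law (μ := μ) hA (fun n k => W A ρ (J n) (T n) (D n) i k) M
      (fun n k => W_meas hA ρ (J n) (T n) (D n) i k)
      (fun n k ω => W_01 hρ (J n) (T n) (D n) i k (hD n (k + 1)) ω)
  have h01 : ∀ᵐ ω ∂μ, ∀ n, 0 ≤ dens μ ℱ A n ω ∧ dens μ ℱ A n ω ≤ 1 := ae_all_iff.2 fun n => dens01 hA n
  filter_upwards [h1, h01, hd] with ω hω hω01 hωd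
  set e : ℕ → ℝ := fun n => (∑ j ∈ J n, ∏ t ∈ T n j, ρ t) / D n with he
  -- facts on e
  have hpos : ∀ᶠ n : ℕ in F, 0 < D n ∧ 0 < e n := by
    filter_upwards [hE.eventually_gt_atTop 0, (eventually_gt_atTop 1).filter_mono hF] with n g1 g2
    have hl : 0 < Real.log n := Real.log_pos (by exact_mod_cast g2)
    have g3 : 0 < e n := by
      by_contra hc
      have : e n / Real.log n ≤ 0 := div_nonpos_of_nonpos_of_nonneg (not_lt.1 hc) hl.le
      exact absurd g1 (not_lt.2 this)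
    refine ⟨?_, g3⟩
    by_contra hc
    have h0' : D n = 0 := by omega
    simp only [he, h0', Nat.cast_zero, div_zero] at g3
    exact lt_irrefl _ g3
  have hlog : ∀ C : ℝ, 0 ≤ C → ∀ κ : ℝ, 0 < κ → ∀ᶠ n : ℕ in F, C * Real.log n + C ≤ κ * e n := by
    intro C hC κ hκ
    filter_upwards [hE.eventually_ge_atTop (2 * C / κ), (eventually_ge_atTop 3).filter_mono hF] with n g1 g2
    have hl : 1 ≤ Real.log n := by
      rw [Real.le_log_iff_exp_le (by positivity)]
      have : (3 : ℝ) ≤ n := by exact_mod_cast g2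
      linarith [Real.exp_one_lt_d9]
    have g3 : 2 * C / κ ≤ e n / Real.log n := g1
    rw [le_div_iff₀ (by linarith), div_mul_eq_mul_div, div_le_iff₀ hκ] at g3
    nlinarith
  -- the induction
  have key : ∀ i, i ≤ k → ∀ δ : ℝ, 0 < δ → ∀ᶠ n : ℕ in F,
      |Mx A ρ (J n) (T n) i ω / D n - e n| ≤ δ * e n := by
    intro i
    induction i with
    | zero =>
      intro _ δ hδ
      filter_upwards [hpos] with n g1
      rw [Mx_zero, sub_self, abs_zero]
      exact mul_nonneg hδ.le g1.2.le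
    | succ i ih =>
      intro hi δ hδ
      -- small parameter
      set η : ℝ := min (δ / 10) (1 / 10) with hη
      have hη0 : 0 < η := by rw [hη]; positivity
      have hη1 : η ≤ 1 / 10 := min_le_right _ _
      have hηδ : 10 * η ≤ δ := by
        have : η ≤ δ / 10 := min_le_left _ _
        linarith
      obtain ⟨C, hC, hlaw⟩ := hω i η hη0
      obtain ⟨N, hN⟩ := eventually_atTop.1 (hωd η hη0)
      filter_upwards [ih (by omega) η hη0, hlaw.filter_mono hF, hpos, hlog (C + 2 * N) (by positivity) η hη0] with n g1 g2 g3 g4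
      have hDp : (0 : ℝ) < D n := by exact_mod_cast g3.1
      set w := W A ρ (J n) (T n) (D n) i with hw
      have hw01 : ∀ m, 0 ≤ w m ω ∧ w m ω ≤ 1 := fun m => W_01 hρ (J n) (T n) (D n) i m (hD n (m + 1)) ω
      set R : ℝ := ∑ m ∈ Finset.range (M n), w m ω * ρ (m + 1) with hR
      have r1 : R = Mx A ρ (J n) (T n) i ω / D n := by
        rw [eq_div_iff hDp.ne', mul_comm]
        exact W_rho ρ (J n) (T n) g3.1 (hk n) (h0 n) (hM n) (by omega) ω
      have r2 : SI A w (M n) ω = Mx A ρ (J n) (T n) (i + 1) ω / D n := by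
        rw [eq_div_iff hDp.ne', mul_comm]
        exact W_In ρ (J n) (T n) g3.1 (hk n) (h0 n) (hM n) (by omega) ω
      have hR0 : 0 ≤ R := Finset.sum_nonneg fun m _ => mul_nonneg (hw01 m).1 (hρ _).1
      -- comparison of the compensators
      have r3 : |SD μ ℱ A w (M n) ω - R| ≤ N + η * R := by
        rw [hR]
        unfold SD
        rw [← Finset.sum_sub_distrib]
        refine (Finset.abs_sum_le_sum_abs _ _).trans ?_
        have s1 : ∀ m ∈ Finset.range (M n), |w m ω * dens μ ℱ A m ω - w m ω * ρ (m + 1)| ≤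
            (if m < N then 1 else 0) + η * (w m ω * ρ (m + 1)) := by
          intro m _
          rw [← mul_sub, abs_mul, abs_of_nonneg (hw01 m).1]
          by_cases hm : m < N
          · rw [if_pos hm]
            have t1 : |dens μ ℱ A m ω - ρ (m + 1)| ≤ 1 := by
              rw [abs_le]
              have := hω01 m
              have := hρ (m + 1)
              constructor <;> linarith
            have t2 : w m ω * |dens μ ℱ A m ω - ρ (m + 1)| ≤ 1 := mul_le_one₀ (hw01 m).2 (abs_nonneg _) t1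
            have t3 : 0 ≤ η * (w m ω * ρ (m + 1)) := mul_nonneg hη0.le (mul_nonneg (hw01 m).1 (hρ _).1)
            linarith
          · rw [if_neg hm, zero_add]
            calc w m ω * |dens μ ℱ A m ω - ρ (m + 1)| ≤ w m ω * (η * ρ (m + 1)) :=
                  mul_le_mul_of_nonneg_left (hN m (not_lt.1 hm)) (hw01 m).1
              _ = _ := by ring
        refine (Finset.sum_le_sum s1).trans ?_
        rw [Finset.sum_add_distrib, ← Finset.mul_sum]
        refine add_le_add ?_ le_rfl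
        rw [Finset.sum_ite, Finset.sum_const_zero, add_zero, Finset.sum_const, nsmul_eq_mul, mul_one]
        have : ((Finset.range (M n)).filter (fun m => m < N)).card ≤ N := by
          calc _ ≤ (Finset.range N).card := by
                apply Finset.card_le_card
                intro m hm
                exact Finset.mem_range.2 (Finset.mem_filter.1 hm).2
            _ = N := Finset.card_range N
        exact_mod_cast this
      rw [← r1] at g1
      rw [← r2]
      have a1 := abs_le.1 g1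
      have a3 := abs_le.1 r3
      set S := SD μ ℱ A w (M n) ω
      set X := SI A w (M n) ω
      have hN0 : (0 : ℝ) ≤ N := Nat.cast_nonneg N
      have hl0 : 0 ≤ Real.log n := Real.log_natCast_nonneg n
      have g4' : C * Real.log n + 2 * N ≤ η * e n := by nlinarith
      have hen := g3.2
      have u1 : S ≤ (1 + η) * R + N := by linarith
      have u2 : (1 - η) * R - N ≤ S := by linarith
      have u3 : R ≤ (1 + η) * e n := by linarith
      have u4 : (1 - η) * e n ≤ R := by linarith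
      have hS : (1 - η) * ((1 - η) * e n) - N ≤ S := by
        refine le_trans ?_ u2
        have : (1 - η) * ((1 - η) * e n) ≤ (1 - η) * R := mul_le_mul_of_nonneg_left u4 (by linarith)
        linarith
      have hS' : S ≤ (1 + η) * ((1 + η) * e n) + N := by
        refine u1.trans ?_
        have : (1 + η) * R ≤ (1 + η) * ((1 + η) * e n) := mul_le_mul_of_nonneg_left u3 (by linarith)
        linarith
      have hX1 : X ≤ (1 + η) * ((1 + η) * ((1 + η) * e n) + N) + C * Real.log n := by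
        refine g2.1.trans ?_
        have := mul_le_mul_of_nonneg_left hS' (show (0 : ℝ) ≤ 1 + η by linarith)
        linarith
      have hX2 : (1 - η) * ((1 - η) * ((1 - η) * e n) - N) - C * Real.log n ≤ X := by
        refine le_trans ?_ g2.2
        have := mul_le_mul_of_nonneg_left hS (show (0 : ℝ) ≤ 1 - η by linarith)
        linarith
      have hηe : 0 ≤ η * e n := by positivity
      have q1 : η * (η * e n) ≤ (1 / 10) * (η * e n) := mul_le_mul_of_nonneg_right hη1 hηe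
      have q2 : η * (η * (η * e n)) ≤ (1 / 10) * ((1 / 10) * (η * e n)) :=
        (mul_le_mul_of_nonneg_left q1 hη0.le).trans (by
          have := mul_le_mul_of_nonneg_right hη1 (show (0:ℝ) ≤ (1 / 10) * (η * e n) by positivity)
          linarith)
      have q3 : 0 ≤ η * (η * e n) := by positivity
      have q3' : 0 ≤ η * (η * (η * e n)) := by positivity
      have q4 : η * N ≤ N := by
        have := mul_le_mul_of_nonneg_right (show η ≤ 1 by linarith) hN0
        linarith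
      have q5 : 10 * (η * e n) ≤ δ * e n := by
        have := mul_le_mul_of_nonneg_right hηδ hen.le
        linarith
      have q6 : 0 ≤ η * N := by positivity
      rw [abs_le]
      constructor
      · nlinarith
      · nlinarith
  intro δ hδ
  filter_upwards [key k le_rfl δ hδ, hpos] with n g1 g2
  have hDp : (0 : ℝ) < D n := by exact_mod_cast g2.1
  have e1 : Mx A ρ (J n) (T n) k ω / D n - e n = (Mx A ρ (J n) (T n) k ω - ∑ j ∈ J n, ∏ t ∈ T n j, ρ t) / D n := by
    simp only [he]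
    rw [sub_div]
  rw [e1, abs_div, abs_of_pos hDp, div_le_iff₀ hDp] at g1
  refine g1.trans (le_of_eq ?_)
  simp only [he]
  field_simp

end Pool.Agent.N909.TF
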