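import Mathlib
import Pool.Agent.N909.TF.Fam
import Pool.Agent.R528.RM.BHFinal

set_option autoImplicit false

/-! # Families of tuples in sieved sequential models -/

open MeasureTheory Filter Set
open scoped ENNReal Topology

namespace Pool.Agent.N909.TF

open Pool.Agent.R528.RM

variable {Ω : Type} {m0 : MeasurableSpace Ω} {μ : Measure Ω} [IsProbabilityMeasure μ]
  {ℱ : Filtration ℕ m0} {A : ℕ → Set Ω} {ι : Type}

lemma cQ_ge (Q : ℕ) (hQ : 0 < Q) : 1 ≤ (Q : ℝ) / Nat.totient Q := by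
  have h1 : 0 < Nat.totient Q := Nat.totient_pos.2 hQ
  rw [le_div_iff₀ (by exact_mod_cast h1), one_mul]
  exact_mod_cast Nat.totient_le Q

open Classical in
/-- the tuples of the family all of whose members are coprime to `Q` -/
noncomputable def cop (J : Finset ι) (T : ι → Finset ℕ) (Q : ℕ) : Finset ι :=
  J.filter (fun j => ∀ t ∈ T j, Nat.Coprime t Q)

open Classical in
/-- the tuples of the family all of whose members are chosen -/
noncomputable def cho (A : ℕ → Set Ω) (J : Finset ι) (T : ι → Finset ℕ) (ω : Ω) : Finset ι :=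
  J.filter (fun j => ∀ t ∈ T j, ω ∈ A t)

open Classical in
/-- the tuples of the family with a member whose logarithm is not close to `L` -/
noncomputable def far (J : Finset ι) (T : ι → Finset ℕ) (L δ : ℝ) : Finset ι :=
  J.filter (fun j => ∃ t ∈ T j, δ * L < |Real.log t - L|)

/-- the profile at an integer with the right logarithm -/
lemma rho_near (Q : ℕ) (hQ : 0 < Q) {L δ : ℝ} (hδ : 0 < δ) (hδ1 : δ ≤ 1 / 2)
    (hL : 2 * ((Q : ℝ) / Nat.totient Q) ≤ L) {t : ℕ} (ht : Nat.Coprime t Q) (hlt : |Real.log t - L| ≤ δ * L) :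
    (1 - δ) * (((Q : ℝ) / Nat.totient Q) / L) ≤ rhoW Q t ∧ rhoW Q t ≤ (1 + 2 * δ) * (((Q : ℝ) / Nat.totient Q) / L) := by
  have hc := cQ_ge Q hQ
  set c : ℝ := (Q : ℝ) / Nat.totient Q
  have hL0 : 0 < L := by linarith
  have h1 := abs_le.1 hlt
  have hlo : (1 - δ) * L ≤ Real.log t := by nlinarith
  have hup : Real.log t ≤ (1 + δ) * L := by nlinarith
  have hl0 : 0 < Real.log t := lt_of_lt_of_le (by nlinarith) hlo
  have hcl : c ≤ Real.log t := by nlinarith
  have e1 : rhoW Q t = c / Real.log t := by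
    unfold rhoW
    rw [if_pos ht]
    exact min_eq_right ((div_le_one hl0).2 hcl)
  rw [e1]
  constructor
  · rw [mul_div_assoc', div_le_div_iff₀ hL0 hl0]
    have k1 : (1 - δ) * Real.log t ≤ (1 - δ) * ((1 + δ) * L) := mul_le_mul_of_nonneg_left hup (by linarith)
    have k2 : (1 - δ) * ((1 + δ) * L) ≤ L := by
      have : 0 ≤ δ * δ * L := by positivity
      nlinarith
    have k3 : c * ((1 - δ) * Real.log t) ≤ c * L := mul_le_mul_of_nonneg_left (k1.trans k2) (by linarith)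
    linarith
  · rw [mul_div_assoc', div_le_div_iff₀ hl0 hL0]
    have k1 : (1 + 2 * δ) * ((1 - δ) * L) ≤ (1 + 2 * δ) * Real.log t := mul_le_mul_of_nonneg_left hlo (by linarith)
    have k2 : L ≤ (1 + 2 * δ) * ((1 - δ) * L) := by
      have : 0 ≤ δ * (1 - 2 * δ) * L := mul_nonneg (mul_nonneg hδ.le (by linarith)) hL0.le
      nlinarith
    have k3 : c * L ≤ c * ((1 + 2 * δ) * Real.log t) := mul_le_mul_of_nonneg_left (k2.trans k1) (by linarith)
    linarith

/-- the small parameter -/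
lemma small_param (k : ℕ) (ε : ℝ) (hε : 0 < ε) :
    ∃ δ : ℝ, 0 < δ ∧ δ ≤ 1 / 2 ∧ δ ≤ ε ∧ (1 + 2 * δ) ^ k ≤ 1 + ε ∧ 1 - ε ≤ (1 - δ) ^ k := by
  have h1 : Tendsto (fun δ : ℝ => (1 + 2 * δ) ^ k) (𝓝[>] 0) (𝓝 1) := by
    have : Tendsto (fun δ : ℝ => (1 + 2 * δ) ^ k) (𝓝 0) (𝓝 ((1 + 2 * 0) ^ k)) :=
      (Continuous.tendsto (by fun_prop) 0)
    simp only [mul_zero, add_zero, one_pow] at this
    exact this.mono_left nhdsWithin_le_nhds
  have h2 : Tendsto (fun δ : ℝ => (1 - δ) ^ k) (𝓝[>] 0) (𝓝 1) := by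
    have : Tendsto (fun δ : ℝ => (1 - δ) ^ k) (𝓝 0) (𝓝 ((1 - 0) ^ k)) :=
      (Continuous.tendsto (by fun_prop) 0)
    simp only [sub_zero, one_pow] at this
    exact this.mono_left nhdsWithin_le_nhds
  have h3 : ∀ᶠ δ : ℝ in 𝓝[>] 0, δ ≤ min (1 / 2) ε := by
    have : Tendsto (fun δ : ℝ => δ) (𝓝[>] 0) (𝓝 0) := tendsto_id.mono_left nhdsWithin_le_nhds
    exact (this.eventually (gt_mem_nhds (show (0:ℝ) < min (1 / 2) ε by positivity))).mono fun _ h => le_of_lt h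
  obtain ⟨δ, g1, g2, g3, g4⟩ := ((h1.eventually (gt_mem_nhds (show (1:ℝ) < 1 + ε by linarith))).and
    ((h2.eventually (lt_mem_nhds (show 1 - ε < (1:ℝ) by linarith))).and (h3.and
      (self_mem_nhdsWithin (a := (0:ℝ)) (s := Ioi 0))))).exists
  exact ⟨δ, g4, g3.trans (min_le_left _ _), g3.trans (min_le_right _ _), g1.le, g2.le⟩

/-- the expected number of chosen tuples -/
lemma expect (Q : ℕ) (hQ : 0 < Q) (k : ℕ) (J : ℕ → Finset ι) (T : ℕ → ι → Finset ℕ)
    (hk : ∀ n, ∀ j ∈ J n, (T n j).card = k) (F : Filter ℕ) (L : ℕ → ℝ) (hL : Tendsto L F atTop)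
    (hfar : ∀ δ : ℝ, 0 < δ → ∀ᶠ n : ℕ in F,
      ((far (cop (J n) (T n) Q) (T n) (L n) δ).card : ℝ) * L n ^ k ≤ δ * (cop (J n) (T n) Q).card)
    (ε : ℝ) (hε : 0 < ε) :
    ∀ᶠ n : ℕ in F, |∑ j ∈ cop (J n) (T n) Q, ∏ t ∈ T n j, rhoW Q t -
      ((cop (J n) (T n) Q).card : ℝ) * (((Q : ℝ) / Nat.totient Q) / L n) ^ k| ≤
      ε * (((cop (J n) (T n) Q).card : ℝ) * (((Q : ℝ) / Nat.totient Q) / L n) ^ k) := by
  classical
  obtain ⟨δ, hδ, hδ1, hδε, hd1, hd2⟩ := small_param k (ε / 4) (by positivity)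
  have hc := cQ_ge Q hQ
  set c : ℝ := (Q : ℝ) / Nat.totient Q
  filter_upwards [hfar δ hδ, hL.eventually_ge_atTop (2 * c)] with n g1 g2
  set G := cop (J n) (T n) Q with hG
  set B := far G (T n) (L n) δ with hB
  have hL0 : 0 < L n := by linarith
  have hBG : B ⊆ G := Finset.filter_subset _ _
  have hsplit : ∑ j ∈ G, ∏ t ∈ T n j, rhoW Q t = ∑ j ∈ G \ B, ∏ t ∈ T n j, rhoW Q t + ∑ j ∈ B, ∏ t ∈ T n j, rhoW Q t :=
    (Finset.sum_sdiff hBG).symm
  have h1 : ∀ j ∈ G \ B, (1 - ε / 4) * (c / L n) ^ k ≤ ∏ t ∈ T n j, rhoW Q t ∧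
      ∏ t ∈ T n j, rhoW Q t ≤ (1 + ε / 4) * (c / L n) ^ k := by
    intro j hj
    rw [Finset.mem_sdiff] at hj
    have hjG := hj.1
    rw [hG] at hjG
    unfold cop at hjG
    rw [Finset.mem_filter] at hjG
    have hnear : ∀ t ∈ T n j, |Real.log t - L n| ≤ δ * L n := by
      intro t ht
      by_contra hcon
      apply hj.2
      rw [hB]
      unfold far
      rw [Finset.mem_filter]
      exact ⟨hj.1, t, ht, not_le.1 hcon⟩
    have hpr := fun t ht => rho_near Q hQ hδ hδ1 g2 (hjG.2 t ht) (hnear t ht)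
    have hcard := hk n j hjG.1
    constructor
    · calc (1 - ε / 4) * (c / L n) ^ k ≤ (1 - δ) ^ k * (c / L n) ^ k :=
            mul_le_mul_of_nonneg_right hd2 (by positivity)
        _ = ∏ t ∈ T n j, ((1 - δ) * (c / L n)) := by rw [Finset.prod_const, hcard, mul_pow]
        _ ≤ _ := Finset.prod_le_prod (fun t _ => mul_nonneg (by linarith) (by positivity)) fun t ht => (hpr t ht).1
    · calc ∏ t ∈ T n j, rhoW Q t ≤ ∏ t ∈ T n j, ((1 + 2 * δ) * (c / L n)) :=
            Finset.prod_le_prod (fun t _ => rhoW_nonneg Q t) fun t ht => (hpr t ht).2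
        _ = (1 + 2 * δ) ^ k * (c / L n) ^ k := by rw [Finset.prod_const, hcard, mul_pow]
        _ ≤ _ := mul_le_mul_of_nonneg_right hd1 (by positivity)
  have h2 : 0 ≤ ∑ j ∈ B, ∏ t ∈ T n j, rhoW Q t :=
    Finset.sum_nonneg fun j _ => Finset.prod_nonneg fun t _ => rhoW_nonneg Q t
  have h3 : ∑ j ∈ B, ∏ t ∈ T n j, rhoW Q t ≤ B.card := by
    refine (Finset.sum_le_card_nsmul _ _ 1 fun j _ =>
      Finset.prod_le_one (fun t _ => rhoW_nonneg Q t) fun t _ => rhoW_le Q t).trans ?_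
    rw [nsmul_eq_mul, mul_one]
  have h4 : (B.card : ℝ) ≤ ε / 4 * (G.card * (c / L n) ^ k) := by
    have e1 : (B.card : ℝ) ≤ δ * G.card / L n ^ k := by
      rw [le_div_iff₀ (by positivity)]
      exact g1
    refine e1.trans ?_
    rw [div_pow]
    have e2 : (1 : ℝ) ≤ c ^ k := one_le_pow₀ hc
    have e3 : δ * G.card / L n ^ k ≤ ε / 4 * G.card / L n ^ k := by
      gcongr
    refine e3.trans ?_
    have e4 : ε / 4 * ((G.card : ℝ) * (c ^ k / L n ^ k)) = ε / 4 * G.card * c ^ k / L n ^ k := by ring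
    rw [e4]
    have e5 : 0 ≤ ε / 4 * (G.card : ℝ) := by positivity
    have e6 : ε / 4 * (G.card : ℝ) ≤ ε / 4 * G.card * c ^ k := by nlinarith
    gcongr
  have h5 : (B.card : ℝ) * (c / L n) ^ k ≤ B.card := by
    have : (c / L n) ^ k ≤ 1 := pow_le_one₀ (by positivity) ((div_le_one hL0).2 (by linarith))
    have h0 : (0 : ℝ) ≤ B.card := Nat.cast_nonneg _
    nlinarith
  have hGB : ((G \ B).card : ℝ) = G.card - B.card := by
    rw [Finset.card_sdiff_of_subset hBG, Nat.cast_sub (Finset.card_le_card hBG)]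
  have h6 : ((G \ B).card : ℝ) * ((1 - ε / 4) * (c / L n) ^ k) ≤ ∑ j ∈ G \ B, ∏ t ∈ T n j, rhoW Q t := by
    rw [← nsmul_eq_mul]
    exact Finset.card_nsmul_le_sum _ _ _ fun j hj => (h1 j hj).1
  have h7 : ∑ j ∈ G \ B, ∏ t ∈ T n j, rhoW Q t ≤ ((G \ B).card : ℝ) * ((1 + ε / 4) * (c / L n) ^ k) := by
    rw [← nsmul_eq_mul]
    exact Finset.sum_le_card_nsmul _ _ _ fun j hj => (h1 j hj).2
  rw [hsplit]
  set x : ℝ := G.card * (c / L n) ^ k with hx
  set b : ℝ := (B.card : ℝ)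
  have hb0 : 0 ≤ b := Nat.cast_nonneg _
  have hq : 0 ≤ (c / L n) ^ k := by positivity
  have hx0 : 0 ≤ x := by positivity
  have e1 : ((G \ B).card : ℝ) * ((1 + ε / 4) * (c / L n) ^ k) ≤ (1 + ε / 4) * x := by
    rw [hGB]
    have : (1 + ε / 4) * (b * (c / L n) ^ k) ≥ 0 := by positivity
    nlinarith
  have e2 : (1 - ε / 4) * x - (1 - ε / 4) * (b * (c / L n) ^ k) ≤ ((G \ B).card : ℝ) * ((1 - ε / 4) * (c / L n) ^ k) := by
    rw [hGB]
    apply le_of_eq
    rw [hx]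
    ring
  have e3 : (1 - ε / 4) * (b * (c / L n) ^ k) ≤ b := by
    have : 0 ≤ b * (c / L n) ^ k := by positivity
    nlinarith
  rw [abs_le]
  constructor <;> nlinarith

/-- **the law of large numbers for families of tuples in sieved sequential models** -/
theorem sieved (hA : ∀ n, MeasurableSet[ℱ n] (A n)) (Q : ℕ) (hQ : 0 < Q)
    (hcop : ∀ n, ¬ Nat.Coprime n Q → A n = ∅)
    (hd : ∀ᵐ ω ∂μ, Tendsto (fun n : ℕ => dens μ ℱ A n ω * Real.log n)
      (atTop ⊓ 𝓟 {n : ℕ | Nat.Coprime (n + 1) Q}) (𝓝 ((Q : ℝ) / Nat.totient Q)))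
    (k : ℕ) (J : ℕ → Finset ι) (T : ℕ → ι → Finset ℕ) (D : ℕ → ℕ)
    (hk : ∀ n, ∀ j ∈ J n, (T n j).card = k) (h0 : ∀ n, ∀ j ∈ J n, 0 ∉ T n j)
    (hD : ∀ n t, ((J n).filter (fun j => t ∈ T n j)).card ≤ D n)
    (F : Filter ℕ) (hF : F ≤ atTop) (L : ℕ → ℝ) (hL : Tendsto L F atTop)
    (hfar : ∀ δ : ℝ, 0 < δ → ∀ᶠ n : ℕ in F,
      ((far (cop (J n) (T n) Q) (T n) (L n) δ).card : ℝ) * L n ^ k ≤ δ * (cop (J n) (T n) Q).card)
    (hE : Tendsto (fun n => ((cop (J n) (T n) Q).card : ℝ) / (D n * Real.log n * L n ^ k)) F atTop) :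
    ∀ᵐ ω ∂μ, ∀ δ : ℝ, 0 < δ → ∀ᶠ n : ℕ in F,
      |((cho A (J n) (T n) ω).card : ℝ) - ((cop (J n) (T n) Q).card : ℝ) * (((Q : ℝ) / Nat.totient Q) / L n) ^ k| ≤
      δ * (((cop (J n) (T n) Q).card : ℝ) * (((Q : ℝ) / Nat.totient Q) / L n) ^ k) := by
  classical
  have hc := cQ_ge Q hQ
  set c : ℝ := (Q : ℝ) / Nat.totient Q with hcdef
  have hex := expect Q hQ k J T hk F L hL hfar
  have hE' : Tendsto (fun n => (∑ j ∈ cop (J n) (T n) Q, ∏ t ∈ T n j, rhoW Q t) / D n / Real.log n) F atTop := by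
    refine tendsto_atTop_mono' F ?_ (hE.const_mul_atTop (show (0:ℝ) < 1 / 2 by norm_num))
    filter_upwards [hex (1 / 2) (by norm_num), hL.eventually_gt_atTop 0, (eventually_gt_atTop 1).filter_mono hF] with n g1 g2 g3
    have hl : 0 < Real.log n := Real.log_pos (by exact_mod_cast g3)
    have k1 := (abs_le.1 g1).1
    set N : ℝ := ((cop (J n) (T n) Q).card : ℝ)
    have hN0 : 0 ≤ N := Nat.cast_nonneg _
    have k2 : 1 / 2 * (N / L n ^ k) ≤ ∑ j ∈ cop (J n) (T n) Q, ∏ t ∈ T n j, rhoW Q t := by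
      have k3 : N / L n ^ k ≤ N * (c / L n) ^ k := by
        rw [div_pow, mul_div_assoc']
        gcongr
        have : (1 : ℝ) ≤ c ^ k := one_le_pow₀ hc
        nlinarith
      linarith
    have k4 : 1 / 2 * (N / (D n * Real.log n * L n ^ k)) = 1 / 2 * (N / L n ^ k) / D n / Real.log n := by
      by_cases hD0 : (D n : ℝ) = 0
      · simp [hD0]
      · field_simp
    rw [k4]
    gcongr
  have hfam := families (μ := μ) hA (rhoW Q) (fun n => ⟨rhoW_nonneg Q n, rhoW_le Q n⟩)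
    (dens_profile hA Q hQ hcop hd) k (fun n => cop (J n) (T n) Q) T D
    (fun n j hj => hk n j (Finset.mem_of_mem_filter j hj)) (fun n j hj => h0 n j (Finset.mem_of_mem_filter j hj))
    (fun n t => by
      refine le_trans ?_ (hD n t)
      apply Finset.card_le_card
      intro j hj
      rw [Finset.mem_filter] at hj ⊢
      exact ⟨Finset.mem_of_mem_filter j hj.1, hj.2⟩) F hF hE'
  filter_upwards [hfam] with ω hω δ hδ
  set η : ℝ := min (δ / 3) 1 with hη
  have hη0 : 0 < η := by rw [hη]; positivity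
  have hη1 : η ≤ 1 := min_le_right _ _
  have hηδ : 3 * η ≤ δ := by
    have : η ≤ δ / 3 := min_le_left _ _
    linarith
  filter_upwards [hω η hη0, hex η hη0] with n g1 g2
  rw [Mx_top (rhoW Q) (cop (J n) (T n) Q) (T n) (k := k) (fun j hj => hk n j (Finset.mem_of_mem_filter j hj))] at g1
  have e1 : (cop (J n) (T n) Q).filter (fun j => ∀ t ∈ T n j, ω ∈ A t) = cho A (J n) (T n) ω := by
    unfold cop cho
    rw [Finset.filter_filter]
    apply Finset.filter_congr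
    intro j _
    constructor
    · exact fun h => h.2
    · intro h
      refine ⟨fun t ht => ?_, h⟩
      by_contra hcon
      have := h t ht
      rw [hcop t hcon] at this
      exact this
  rw [e1] at g1
  set x : ℝ := ((cop (J n) (T n) Q).card : ℝ) * (c / L n) ^ k
  set E : ℝ := ∑ j ∈ cop (J n) (T n) Q, ∏ t ∈ T n j, rhoW Q t
  set R : ℝ := ((cho A (J n) (T n) ω).card : ℝ)
  have k1 := abs_le.1 g1
  have k2 := abs_le.1 g2
  have hx0 : 0 ≤ x := by
    by_contra hcon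
    push Not at hcon
    nlinarith
  have hηx : 0 ≤ η * x := by positivity
  have k3 : η * E ≤ η * ((1 + η) * x) := mul_le_mul_of_nonneg_left (by linarith) hη0.le
  have k4 : η * (η * x) ≤ 1 * (η * x) := mul_le_mul_of_nonneg_right hη1 hηx
  have k5 : 3 * η * x ≤ δ * x := mul_le_mul_of_nonneg_right hηδ hx0
  rw [abs_le]
  constructor <;> nlinarith

end Pool.Agent.N909.TF
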