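import Mathlib
import Pool.Agent.N909.TF.Siev

set_option autoImplicit false

/-! # Tools for the application of the law for families of tuples -/

open MeasureTheory Filter Set
open scoped ENNReal Topology

namespace Pool.Agent.N909.TF

open Pool.Agent.R528.RM

/-- powers beat powers of the logarithm -/
lemma pow_log (c s : ℝ) (hc : 0 < c) (hs : 0 < s) (j : ℕ) :
    Tendsto (fun n : ℕ => c * (n : ℝ) ^ s / Real.log n ^ j) atTop atTop := by
  have h1 : Tendsto (fun x : ℝ => Real.log x ^ (j : ℝ) / x ^ s) atTop (𝓝 0) :=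
    (isLittleO_log_rpow_rpow_atTop (j : ℝ) hs).tendsto_div_nhds_zero
  have h2 : Tendsto (fun n : ℕ => Real.log n ^ j / (n : ℝ) ^ s) atTop (𝓝 0) := by
    refine (h1.comp tendsto_natCast_atTop_atTop).congr fun n => ?_
    simp only [Function.comp_apply]
    rw [Real.rpow_natCast]
  have h3 : Tendsto (fun n : ℕ => (Real.log n ^ j / (n : ℝ) ^ s)⁻¹) atTop atTop := by
    refine Tendsto.inv_tendsto_nhdsGT_zero ?_
    rw [tendsto_nhdsWithin_iff]
    refine ⟨h2, ?_⟩
    filter_upwards [eventually_gt_atTop 1] with n hn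
    have hn' : (1 : ℝ) < n := by exact_mod_cast hn
    have hL : 0 < Real.log n := Real.log_pos hn'
    exact mem_Ioi.2 (by positivity)
  refine (h3.const_mul_atTop hc).congr fun n => ?_
  rw [inv_div, mul_div_assoc']

/-- logarithms of integers near `n` -/
lemma near_log (C δ : ℝ) (hδ : 0 < δ) :
    ∀ᶠ n : ℕ in atTop, ∀ t : ℕ, (n : ℝ) ^ (1 - δ) ≤ t → (t : ℝ) ≤ C * n →
      |Real.log t - Real.log n| ≤ δ * Real.log n := by
  have h1 : ∀ᶠ n : ℕ in atTop, Real.log (max C 1) ≤ δ * Real.log n := by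
    have : Tendsto (fun n : ℕ => δ * Real.log n) atTop atTop :=
      (Real.tendsto_log_atTop.comp tendsto_natCast_atTop_atTop).const_mul_atTop hδ
    exact this.eventually_ge_atTop _
  filter_upwards [h1, eventually_gt_atTop 1] with n g1 g2 t ht1 ht2
  have hn : (1 : ℝ) < n := by exact_mod_cast g2
  have hn0 : (0 : ℝ) < n := by linarith
  have hL : 0 < Real.log n := Real.log_pos hn
  have hp : 0 < (n : ℝ) ^ (1 - δ) := Real.rpow_pos_of_pos hn0 _
  have ht0 : (0 : ℝ) < t := lt_of_lt_of_le hp ht1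
  have k1 : (1 - δ) * Real.log n ≤ Real.log t := by
    rw [← Real.log_rpow hn0]
    exact Real.log_le_log hp ht1
  have k2 : Real.log t ≤ Real.log (max C 1) + Real.log n := by
    rw [← Real.log_mul (by positivity) hn0.ne']
    apply Real.log_le_log ht0
    refine ht2.trans ?_
    exact mul_le_mul_of_nonneg_right (le_max_left _ _) hn0.le
  rw [abs_le]
  constructor <;> linarith

/-- integers in a residue class -/
lemma many_class (Q r N : ℕ) (hQ : 0 < Q) :
    N / Q ≤ ((Finset.Ioc 0 N).filter (fun m => m ≡ r [MOD Q])).card := by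
  classical
  set r' : ℕ := if r % Q = 0 then Q else r % Q with hr'
  have h1 : r' ≡ r [MOD Q] := by
    rw [hr']
    split_ifs with h
    · show Q % Q = r % Q
      rw [h, Nat.mod_self]
    · exact Nat.mod_modEq r Q
  have h2 : 0 < r' ∧ r' ≤ Q := by
    rw [hr']
    split_ifs with h
    · exact ⟨hQ, le_rfl⟩
    · exact ⟨Nat.pos_of_ne_zero h, (Nat.mod_lt r hQ).le⟩
  calc N / Q = ((Finset.range (N / Q)).image (fun i => r' + i * Q)).card := by
        rw [Finset.card_image_of_injective, Finset.card_range]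
        intro a b hab
        simp only at hab
        have : a * Q = b * Q := by omega
        exact Nat.eq_of_mul_eq_mul_right hQ this
    _ ≤ _ := by
        apply Finset.card_le_card
        intro m hm
        rw [Finset.mem_image] at hm
        obtain ⟨i, hi, rfl⟩ := hm
        rw [Finset.mem_range] at hi
        rw [Finset.mem_filter, Finset.mem_Ioc]
        have h3 : (i + 1) * Q ≤ N := (Nat.mul_le_mul_right Q hi).trans (Nat.div_mul_le_self N Q)
        refine ⟨⟨by omega, ?_⟩, ?_⟩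
        · rw [add_mul, one_mul] at h3
          omega
        · have : r' + i * Q ≡ r' [MOD Q] := by
            show (r' + i * Q) % Q = r' % Q
            exact Nat.add_mul_mod_self_right r' i Q
          exact this.trans h1

/-- prescribed residues modulo the primes dividing `Q` -/
lemma crt_primes (Q : ℕ) (r : ℕ → ℕ) :
    ∃ x : ℕ, ∀ y, y ≡ x [MOD Q] → ∀ l, l.Prime → l ∣ Q → Q ≠ 0 → y ≡ r l [MOD l] := by
  have hpp : Set.Pairwise (↑Q.primeFactors : Set ℕ) (Function.onFun Nat.Coprime (fun l : ℕ => l)) := by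
    intro a ha b hb hab
    rw [Finset.mem_coe, Nat.mem_primeFactors] at ha hb
    exact (Nat.coprime_primes ha.1 hb.1).2 hab
  have hnz : ∀ i ∈ Q.primeFactors, (fun l : ℕ => l) i ≠ 0 := fun i hi => (Nat.prime_of_mem_primeFactors hi).ne_zero
  obtain ⟨x, hx⟩ := Nat.chineseRemainderOfFinset r (fun l : ℕ => l) Q.primeFactors hnz hpp
  refine ⟨x, fun y hy l hl hlQ hQ0 => ?_⟩
  have h1 := hx l (Nat.mem_primeFactors.2 ⟨hl, hlQ, hQ0⟩)
  exact (hy.of_dvd hlQ).trans h1

lemma coprime_iff_primes (t Q : ℕ) : Nat.Coprime t Q ↔ ∀ l, l.Prime → l ∣ Q → ¬ l ∣ t := by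
  constructor
  · intro h l hl hlQ hlt
    exact Nat.Prime.one_lt hl |>.ne' (Nat.eq_one_of_dvd_one (h ▸ Nat.dvd_gcd hlt hlQ))
  · intro h
    refine Nat.Coprime.symm (Nat.coprime_of_dvd ?_)
    intro l hl h1 h2
    exact h l hl h1 h2

variable {Ω : Type} {m0 : MeasurableSpace Ω} {μ : Measure Ω} [IsProbabilityMeasure μ]
  {ℱ : Filtration ℕ m0} {A : ℕ → Set Ω} {ι : Type}

/-- **the law in the form used for the pages**: all logarithms are `κ log n`, the number of tuples is at
least `c n ^ s`, the multiplicity and the number of exceptional tuples are at most `n ^ (s - η)` -/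
theorem law (hA : ∀ n, MeasurableSet[ℱ n] (A n)) (Q : ℕ) (hQ : 0 < Q)
    (hcop : ∀ n, ¬ Nat.Coprime n Q → A n = ∅)
    (hd : ∀ᵐ ω ∂μ, Tendsto (fun n : ℕ => dens μ ℱ A n ω * Real.log n)
      (atTop ⊓ 𝓟 {n : ℕ | Nat.Coprime (n + 1) Q}) (𝓝 ((Q : ℝ) / Nat.totient Q)))
    (k : ℕ) (J : ℕ → Finset ι) (T : ℕ → ι → Finset ℕ) (D : ℕ → ℕ)
    (hk : ∀ n, ∀ j ∈ J n, (T n j).card = k) (h0 : ∀ n, ∀ j ∈ J n, 0 ∉ T n j)
    (hD : ∀ n t, ((J n).filter (fun j => t ∈ T n j)).card ≤ D n) (hD1 : ∀ n, 1 ≤ D n)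
    (F : Filter ℕ) (hF : F ≤ atTop) (κ s c : ℝ) (hκ : 0 < κ) (hc : 0 < c)
    (hN : ∀ᶠ n : ℕ in F, c * (n : ℝ) ^ s ≤ ((cop (J n) (T n) Q).card : ℝ))
    (hDn : ∃ η : ℝ, 0 < η ∧ ∀ᶠ n : ℕ in F, (D n : ℝ) ≤ (n : ℝ) ^ (s - η))
    (hfar : ∀ δ : ℝ, 0 < δ → ∃ η : ℝ, 0 < η ∧ ∀ᶠ n : ℕ in F,
      ((far (J n) (T n) (κ * Real.log n) δ).card : ℝ) ≤ (n : ℝ) ^ (s - η)) :
    ∀ᵐ ω ∂μ, ∀ δ : ℝ, 0 < δ → ∀ᶠ n : ℕ in F,
      |((cho A (J n) (T n) ω).card : ℝ) -
        ((cop (J n) (T n) Q).card : ℝ) * (((Q : ℝ) / Nat.totient Q) / (κ * Real.log n)) ^ k| ≤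
      δ * (((cop (J n) (T n) Q).card : ℝ) * (((Q : ℝ) / Nat.totient Q) / (κ * Real.log n)) ^ k) := by
  classical
  have hlog : Tendsto (fun n : ℕ => κ * Real.log n) F atTop :=
    ((Real.tendsto_log_atTop.comp tendsto_natCast_atTop_atTop).const_mul_atTop hκ).mono_left hF
  refine sieved (μ := μ) hA Q hQ hcop hd k J T D hk h0 hD F hF (fun n => κ * Real.log n) hlog ?_ ?_
  · intro δ hδ
    obtain ⟨η, hη, h1⟩ := hfar δ hδ
    have h2 := (pow_log (δ * c / κ ^ k) η (by positivity) hη k).mono_left hF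
    filter_upwards [h1, hN, h2.eventually_ge_atTop 1, (eventually_gt_atTop 1).filter_mono hF] with n g1 g2 g3 g4
    have hn : (1 : ℝ) < n := by exact_mod_cast g4
    have hn0 : (0 : ℝ) < n := by linarith
    have hL : 0 < Real.log n := Real.log_pos hn
    have k1 : ((far (cop (J n) (T n) Q) (T n) (κ * Real.log n) δ).card : ℝ) ≤
        ((far (J n) (T n) (κ * Real.log n) δ).card : ℝ) := by
      have : (far (cop (J n) (T n) Q) (T n) (κ * Real.log n) δ).card ≤ (far (J n) (T n) (κ * Real.log n) δ).card := by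
        apply Finset.card_le_card
        intro j hj
        unfold far cop at hj
        rw [Finset.mem_filter, Finset.mem_filter] at hj
        unfold far
        rw [Finset.mem_filter]
        exact ⟨hj.1.1, hj.2⟩
      exact_mod_cast this
    have k2 : 1 * Real.log n ^ k ≤ δ * c / κ ^ k * (n : ℝ) ^ η := by
      rwa [le_div_iff₀ (by positivity)] at g3
    have k3 : κ ^ k * Real.log n ^ k ≤ δ * c * (n : ℝ) ^ η := by
      have := mul_le_mul_of_nonneg_left k2 (show 0 ≤ κ ^ k by positivity)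
      rw [one_mul] at this
      refine this.trans (le_of_eq ?_)
      field_simp
    calc ((far (cop (J n) (T n) Q) (T n) (κ * Real.log n) δ).card : ℝ) * (κ * Real.log n) ^ k
        ≤ (n : ℝ) ^ (s - η) * (κ * Real.log n) ^ k := by
          apply mul_le_mul_of_nonneg_right (k1.trans g1) (by positivity)
      _ = (n : ℝ) ^ (s - η) * (κ ^ k * Real.log n ^ k) := by rw [mul_pow]
      _ ≤ (n : ℝ) ^ (s - η) * (δ * c * (n : ℝ) ^ η) := mul_le_mul_of_nonneg_left k3 (by positivity)
      _ = δ * (c * (n : ℝ) ^ s) := by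
          have : (n : ℝ) ^ s = (n : ℝ) ^ (s - η) * (n : ℝ) ^ η := by
            rw [← Real.rpow_add hn0]
            congr 1
            ring
          rw [this]
          ring
      _ ≤ δ * ((cop (J n) (T n) Q).card : ℝ) := mul_le_mul_of_nonneg_left g2 hδ.le
  · obtain ⟨η, hη, h1⟩ := hDn
    have h2 := (pow_log (c / κ ^ k) η (by positivity) hη (k + 1)).mono_left hF
    refine tendsto_atTop_mono' F ?_ h2
    filter_upwards [h1, hN, (eventually_gt_atTop 1).filter_mono hF] with n g1 g2 g4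
    have hn : (1 : ℝ) < n := by exact_mod_cast g4
    have hn0 : (0 : ℝ) < n := by linarith
    have hL : 0 < Real.log n := Real.log_pos hn
    have hD0 : (0 : ℝ) < D n := by exact_mod_cast hD1 n
    have e1 : (n : ℝ) ^ s = (n : ℝ) ^ (s - η) * (n : ℝ) ^ η := by
      rw [← Real.rpow_add hn0]
      congr 1
      ring
    have hp : 0 < (n : ℝ) ^ (s - η) := Real.rpow_pos_of_pos hn0 _
    have hp' : 0 < (n : ℝ) ^ η := Real.rpow_pos_of_pos hn0 _
    rw [div_le_div_iff₀ (by positivity) (by positivity), mul_pow]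
    calc c / κ ^ k * (n : ℝ) ^ η * (D n * Real.log n * (κ ^ k * Real.log n ^ k))
        = c * (n : ℝ) ^ η * D n * Real.log n ^ (k + 1) := by
          rw [pow_succ]
          field_simp
      _ ≤ c * (n : ℝ) ^ η * (n : ℝ) ^ (s - η) * Real.log n ^ (k + 1) := by gcongr
      _ = c * (n : ℝ) ^ s * Real.log n ^ (k + 1) := by rw [e1]; ring
      _ ≤ ((cop (J n) (T n) Q).card : ℝ) * Real.log n ^ (k + 1) := by gcongr

end Pool.Agent.N909.TF
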