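import Mathlib
import Pool.Agent.N909.TF.Tools

set_option autoImplicit false

/-! # Random families of tuples, determined by an initial segment of the random set -/

open MeasureTheory Filter Set
open scoped ENNReal Topology

namespace Pool.Agent.N909.TF

open Pool.Agent.R528.RM

variable {Ω : Type} {m0 : MeasurableSpace Ω} {μ : Measure Ω} [IsProbabilityMeasure μ]
  {ℱ : Filtration ℕ m0} {A : ℕ → Set Ω}

lemma meas_count {m : MeasurableSpace Ω} {C : Type} [Countable C] (c : Ω → C)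
    (hc : ∀ x, MeasurableSet[m] {ω | c ω = x}) (f : C → Ω → ℝ) (hf : ∀ x, @Measurable Ω ℝ m _ (f x)) :
    @Measurable Ω ℝ m _ (fun ω => f (c ω) ω) := by
  intro B hB
  have h1 : (fun ω => f (c ω) ω) ⁻¹' B = ⋃ x : C, {ω | c ω = x} ∩ (f x) ⁻¹' B := by
    ext ω
    rw [mem_iUnion]
    constructor
    · intro h
      exact ⟨c ω, rfl, h⟩
    · rintro ⟨x, h2, h3⟩
      have h4 : c ω = x := h2
      rw [mem_preimage] at h3 ⊢
      rw [h4]
      exact h3
  rw [h1]
  exact MeasurableSet.iUnion fun x => (hc x).inter (hf x hB)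

open Classical in
/-- the chosen integers up to `X` -/
noncomputable def ch (A : ℕ → Set Ω) (X : ℕ) (ω : Ω) : Finset ℕ := (Finset.range (X + 1)).filter (fun t => ω ∈ A t)

lemma mem_ch {X t : ℕ} {ω : Ω} : t ∈ ch A X ω ↔ t ≤ X ∧ ω ∈ A t := by
  classical
  unfold ch
  rw [Finset.mem_filter, Finset.mem_range, Nat.lt_succ_iff]

lemma ch_meas (hA : ∀ n, MeasurableSet[ℱ n] (A n)) (X : ℕ) (s : Finset ℕ) :
    MeasurableSet[ℱ X] {ω | ch A X ω = s} := by
  classical
  by_cases hs : ∀ t ∈ s, t ≤ X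
  · have h1 : {ω | ch A X ω = s} = ⋂ t ∈ Finset.range (X + 1), (if t ∈ s then A t else (A t)ᶜ) := by
      ext ω
      rw [mem_iInter₂]
      constructor
      · intro h t ht
        have h2 : ch A X ω = s := h
        rw [Finset.mem_range, Nat.lt_succ_iff] at ht
        split_ifs with h3
        · rw [← h2, mem_ch] at h3
          exact h3.2
        · intro h4
          exact h3 (h2 ▸ mem_ch.2 ⟨ht, h4⟩)
      · intro h
        show ch A X ω = s
        ext t
        rw [mem_ch]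
        constructor
        · rintro ⟨h2, h3⟩
          by_contra h4
          have h5 := h t (Finset.mem_range.2 (Nat.lt_succ_iff.2 h2))
          rw [if_neg h4] at h5
          exact h5 h3
        · intro h2
          have h5 := h t (Finset.mem_range.2 (Nat.lt_succ_iff.2 (hs t h2)))
          rw [if_pos h2] at h5
          exact ⟨hs t h2, h5⟩
    rw [h1]
    refine Finset.measurableSet_biInter _ fun t ht => ?_
    rw [Finset.mem_range, Nat.lt_succ_iff] at ht
    have h2 : MeasurableSet[ℱ X] (A t) := ℱ.mono ht _ (hA t)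
    split_ifs
    · exact h2
    · exact h2.compl
  · have h1 : {ω | ch A X ω = s} = ∅ := by
      ext ω
      rw [mem_empty_iff_false, iff_false]
      intro h
      have h2 : ch A X ω = s := h
      apply hs
      intro t ht
      rw [← h2, mem_ch] at ht
      exact ht.1
    rw [h1]
    exact @MeasurableSet.empty Ω (ℱ X)

lemma Phi_meas (hA : ∀ n, MeasurableSet[ℱ n] (A n)) (X : ℕ) {C : Type} (Φ : Finset ℕ → C) (c : C) :
    MeasurableSet[ℱ X] {ω | Φ (ch A X ω) = c} := by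
  have h1 : {ω | Φ (ch A X ω) = c} = ⋃ s : {s : Finset ℕ // Φ s = c}, {ω | ch A X ω = s.1} := by
    ext ω
    rw [mem_iUnion]
    constructor
    · intro h
      exact ⟨⟨ch A X ω, h⟩, rfl⟩
    · rintro ⟨⟨s, hs⟩, h2⟩
      have h3 : ch A X ω = s := h2
      show Φ (ch A X ω) = c
      rw [h3]
      exact hs
  rw [h1]
  exact @MeasurableSet.iUnion Ω _ (ℱ X) _ _ (fun s => ch_meas hA X s.1)

/-- the weights of a random family are predictable -/
lemma WR_meas (hA : ∀ n, MeasurableSet[ℱ n] (A n)) (ρ : ℕ → ℝ) (X : ℕ) (Φ : Finset ℕ → Finset (ℕ × Finset ℕ))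
    (hX : ∀ s, ∀ j ∈ Φ s, ∀ t ∈ j.2, X < t) (D i k : ℕ) :
    StronglyMeasurable[ℱ k] (fun ω => W A ρ (Φ (ch A X ω)) Prod.snd D i k ω) := by
  classical
  by_cases hk : k < X
  · have h1 : (fun ω => W A ρ (Φ (ch A X ω)) Prod.snd D i k ω) = fun _ => 0 := by
      funext ω
      unfold W
      rw [Finset.filter_eq_empty_iff.2, Finset.sum_empty, zero_div]
      intro j hj h
      have := hX _ j hj (k + 1) h.1
      omega
    rw [h1]
    exact stronglyMeasurable_const
  · push Not at hk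
    have h1 := meas_count (m := ℱ k) (fun ω => Φ (ch A X ω))
      (fun x => ℱ.mono hk _ (Phi_meas hA X Φ x)) (fun c => W A ρ c Prod.snd D i k)
      (fun c => (W_meas hA ρ c Prod.snd D i k).measurable)
    exact h1.stronglyMeasurable

/-- **the law of large numbers for random families of tuples** -/
theorem families_rand (hA : ∀ n, MeasurableSet[ℱ n] (A n)) (ρ : ℕ → ℝ) (hρ : ∀ n, 0 ≤ ρ n ∧ ρ n ≤ 1)
    (hd : ∀ᵐ ω ∂μ, ∀ ε : ℝ, 0 < ε → ∀ᶠ n : ℕ in atTop, |dens μ ℱ A n ω - ρ (n + 1)| ≤ ε * ρ (n + 1))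
    (k : ℕ) (X M : ℕ → ℕ) (Φ : ℕ → Finset ℕ → Finset (ℕ × Finset ℕ)) (D : ℕ → ℕ)
    (hk : ∀ n s, ∀ j ∈ Φ n s, j.2.card = k) (hX : ∀ n s, ∀ j ∈ Φ n s, ∀ t ∈ j.2, X n < t)
    (hM : ∀ n s, ∀ j ∈ Φ n s, ∀ t ∈ j.2, t ≤ M n)
    (hD : ∀ n s t, ((Φ n s).filter (fun j => t ∈ j.2)).card ≤ D n)
    (F : Filter ℕ) (hF : F ≤ atTop)
    (hE : ∀ᵐ ω ∂μ, Tendsto (fun n => (∑ j ∈ Φ n (ch A (X n) ω), ∏ t ∈ j.2, ρ t) / D n / Real.log n) F atTop) :
    ∀ᵐ ω ∂μ, ∀ δ : ℝ, 0 < δ → ∀ᶠ n : ℕ in F,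
      |Mx A ρ (Φ n (ch A (X n) ω)) Prod.snd k ω - ∑ j ∈ Φ n (ch A (X n) ω), ∏ t ∈ j.2, ρ t| ≤
        δ * ∑ j ∈ Φ n (ch A (X n) ω), ∏ t ∈ j.2, ρ t := by
  classical
  have h1 : ∀ᵐ ω ∂μ, ∀ i : ℕ, ∀ η : ℝ, 0 < η → ∃ C : ℝ, 0 ≤ C ∧ ∀ᶠ n : ℕ in atTop,
      SI A (fun k ω => W A ρ (Φ n (ch A (X n) ω)) Prod.snd (D n) i k ω) (M n) ω ≤
        (1 + η) * SD μ ℱ A (fun k ω => W A ρ (Φ n (ch A (X n) ω)) Prod.snd (D n) i k ω) (M n) ω + C * Real.log n ∧
      (1 - η) * SD μ ℱ A (fun k ω => W A ρ (Φ n (ch A (X n) ω)) Prod.snd (D n) i k ω) (M n) ω - C * Real.log n ≤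
        SI A (fun k ω => W A ρ (Φ n (ch A (X n) ω)) Prod.snd (D n) i k ω) (M n) ω :=
    ae_all_iff.2 fun i => bc_law (μ := μ) hA (fun n k ω => W A ρ (Φ n (ch A (X n) ω)) Prod.snd (D n) i k ω) M
      (fun n k => WR_meas hA ρ (X n) (Φ n) (hX n) (D n) i k)
      (fun n k ω => W_01 hρ (Φ n (ch A (X n) ω)) Prod.snd (D n) i k (hD n _ (k + 1)) ω)
  have h01 : ∀ᵐ ω ∂μ, ∀ n, 0 ≤ dens μ ℱ A n ω ∧ dens μ ℱ A n ω ≤ 1 := ae_all_iff.2 fun n => dens01 hA n
  filter_upwards [h1, h01, hd, hE] with ω hω hω01 hωd hE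
  have h0 : ∀ n, ∀ j ∈ Φ n (ch A (X n) ω), 0 ∉ j.2 := by
    intro n j hj h
    have := hX n _ j hj 0 h
    omega
  set J : ℕ → Finset (ℕ × Finset ℕ) := fun n => Φ n (ch A (X n) ω) with hJ
  set e : ℕ → ℝ := fun n => (∑ j ∈ J n, ∏ t ∈ j.2, ρ t) / D n with he
  -- facts on e
  have hpos : ∀ᶠ n : ℕ in F, 0 < D n ∧ 0 < e n := by
    filter_upwards [hE.eventually_gt_atTop 0, (eventually_gt_atTop 1).filter_mono hF] with n g1 g2
    have hl : 0 < Real.log n := Real.log_pos (by exact_mod_cast g2)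
    have g3 : 0 < e n := by
      by_contra hc
      have : e n / Real.log n ≤ 0 := div_nonpos_of_nonpos_of_nonneg (not_lt.1 hc) hl.le
      exact absurd g1 (not_lt.2 this)
    refine ⟨?_, g3⟩
    by_contra hc
    have h0' : D n = 0 := by omega
    simp only [he, h0', Nat.cast_zero, div_zero] at g3
    exact lt_irrefl _ g3
  have hlog : ∀ C : ℝ, 0 ≤ C → ∀ κ : ℝ, 0 < κ → ∀ᶠ n : ℕ in F, C * Real.log n + C ≤ κ * e n := by
    intro C hC κ hκ
    filter_upwards [hE.eventually_ge_atTop (2 * C / κ), (eventually_ge_atTop 3).filter_mono hF] with n g1 g2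
    have hl : 1 ≤ Real.log n := by
      rw [Real.le_log_iff_exp_le (by positivity)]
      have : (3 : ℝ) ≤ n := by exact_mod_cast g2
      linarith [Real.exp_one_lt_d9]
    have g3 : 2 * C / κ ≤ e n / Real.log n := g1
    rw [le_div_iff₀ (by linarith), div_mul_eq_mul_div, div_le_iff₀ hκ] at g3
    nlinarith
  -- the induction
  have key : ∀ i, i ≤ k → ∀ δ : ℝ, 0 < δ → ∀ᶠ n : ℕ in F,
      |Mx A ρ (J n) Prod.snd i ω / D n - e n| ≤ δ * e n := by
    intro i
    induction i with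
    | zero =>
      intro _ δ hδ
      filter_upwards [hpos] with n g1
      rw [Mx_zero, sub_self, abs_zero]
      exact mul_nonneg hδ.le g1.2.le
    | succ i ih =>
      intro hi δ hδ
      -- small parameter
      set η : ℝ := min (δ / 10) (1 / 10) with hη
      have hη0 : 0 < η := by rw [hη]; positivity
      have hη1 : η ≤ 1 / 10 := min_le_right _ _
      have hηδ : 10 * η ≤ δ := by
        have : η ≤ δ / 10 := min_le_left _ _
        linarith
      obtain ⟨C, hC, hlaw⟩ := hω i η hη0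
      obtain ⟨N, hN⟩ := eventually_atTop.1 (hωd η hη0)
      filter_upwards [ih (by omega) η hη0, hlaw.filter_mono hF, hpos, hlog (C + 2 * N) (by positivity) η hη0] with n g1 g2 g3 g4
      have hDp : (0 : ℝ) < D n := by exact_mod_cast g3.1
      set w : ℕ → Ω → ℝ := fun k ω => W A ρ (Φ n (ch A (X n) ω)) Prod.snd (D n) i k ω with hw
      have hww : ∀ m, w m ω = W A ρ (J n) Prod.snd (D n) i m ω := fun m => rfl
      have hw01 : ∀ m, 0 ≤ w m ω ∧ w m ω ≤ 1 := fun m => W_01 hρ (J n) Prod.snd (D n) i m (hD n _ (m + 1)) ω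
      set R : ℝ := ∑ m ∈ Finset.range (M n), w m ω * ρ (m + 1) with hR
      have r1 : R = Mx A ρ (J n) Prod.snd i ω / D n := by
        rw [eq_div_iff hDp.ne', mul_comm]
        exact W_rho ρ (J n) Prod.snd g3.1 (hk n _) (h0 n) (hM n _) (by omega) ω
      have r2 : SI A w (M n) ω = Mx A ρ (J n) Prod.snd (i + 1) ω / D n := by
        rw [eq_div_iff hDp.ne', mul_comm]
        exact W_In ρ (J n) Prod.snd g3.1 (hk n _) (h0 n) (hM n _) (by omega) ω
      have hR0 : 0 ≤ R := Finset.sum_nonneg fun m _ => mul_nonneg (hw01 m).1 (hρ _).1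
      -- comparison of the compensators
      have r3 : |SD μ ℱ A w (M n) ω - R| ≤ N + η * R := by
        rw [hR]
        unfold SD
        rw [← Finset.sum_sub_distrib]
        refine (Finset.abs_sum_le_sum_abs _ _).trans ?_
        have s1 : ∀ m ∈ Finset.range (M n), |w m ω * dens μ ℱ A m ω - w m ω * ρ (m + 1)| ≤
            (if m < N then 1 else 0) + η * (w m ω * ρ (m + 1)) := by
          intro m _
          rw [← mul_sub, abs_mul, abs_of_nonneg (hw01 m).1]
          by_cases hm : m < N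
          · rw [if_pos hm]
            have t1 : |dens μ ℱ A m ω - ρ (m + 1)| ≤ 1 := by
              rw [abs_le]
              have := hω01 m
              have := hρ (m + 1)
              constructor <;> linarith
            have t2 : w m ω * |dens μ ℱ A m ω - ρ (m + 1)| ≤ 1 := mul_le_one₀ (hw01 m).2 (abs_nonneg _) t1
            have t3 : 0 ≤ η * (w m ω * ρ (m + 1)) := mul_nonneg hη0.le (mul_nonneg (hw01 m).1 (hρ _).1)
            linarith
          · rw [if_neg hm, zero_add]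
            calc w m ω * |dens μ ℱ A m ω - ρ (m + 1)| ≤ w m ω * (η * ρ (m + 1)) :=
                  mul_le_mul_of_nonneg_left (hN m (not_lt.1 hm)) (hw01 m).1
              _ = _ := by ring
        refine (Finset.sum_le_sum s1).trans ?_
        rw [Finset.sum_add_distrib, ← Finset.mul_sum]
        refine add_le_add ?_ le_rfl
        rw [Finset.sum_ite, Finset.sum_const_zero, add_zero, Finset.sum_const, nsmul_eq_mul, mul_one]
        have : ((Finset.range (M n)).filter (fun m => m < N)).card ≤ N := by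
          calc _ ≤ (Finset.range N).card := by
                apply Finset.card_le_card
                intro m hm
                exact Finset.mem_range.2 (Finset.mem_filter.1 hm).2
            _ = N := Finset.card_range N
        exact_mod_cast this
      rw [← r1] at g1
      rw [← r2]
      have a1 := abs_le.1 g1
      have a3 := abs_le.1 r3
      set S := SD μ ℱ A w (M n) ω
      set X' := SI A w (M n) ω
      have hN0 : (0 : ℝ) ≤ N := Nat.cast_nonneg N
      have hl0 : 0 ≤ Real.log n := Real.log_natCast_nonneg n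
      have g4' : C * Real.log n + 2 * N ≤ η * e n := by nlinarith
      have hen := g3.2
      have u1 : S ≤ (1 + η) * R + N := by linarith
      have u2 : (1 - η) * R - N ≤ S := by linarith
      have u3 : R ≤ (1 + η) * e n := by linarith
      have u4 : (1 - η) * e n ≤ R := by linarith
      have hS : (1 - η) * ((1 - η) * e n) - N ≤ S := by
        refine le_trans ?_ u2
        have : (1 - η) * ((1 - η) * e n) ≤ (1 - η) * R := mul_le_mul_of_nonneg_left u4 (by linarith)
        linarith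
      have hS' : S ≤ (1 + η) * ((1 + η) * e n) + N := by
        refine u1.trans ?_
        have : (1 + η) * R ≤ (1 + η) * ((1 + η) * e n) := mul_le_mul_of_nonneg_left u3 (by linarith)
        linarith
      have hX1 : X' ≤ (1 + η) * ((1 + η) * ((1 + η) * e n) + N) + C * Real.log n := by
        refine g2.1.trans ?_
        have := mul_le_mul_of_nonneg_left hS' (show (0 : ℝ) ≤ 1 + η by linarith)
        linarith
      have hX2 : (1 - η) * ((1 - η) * ((1 - η) * e n) - N) - C * Real.log n ≤ X' := by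
        refine le_trans ?_ g2.2
        have := mul_le_mul_of_nonneg_left hS (show (0 : ℝ) ≤ 1 - η by linarith)
        linarith
      have hηe : 0 ≤ η * e n := by positivity
      have q1 : η * (η * e n) ≤ (1 / 10) * (η * e n) := mul_le_mul_of_nonneg_right hη1 hηe
      have q2 : η * (η * (η * e n)) ≤ (1 / 10) * ((1 / 10) * (η * e n)) :=
        (mul_le_mul_of_nonneg_left q1 hη0.le).trans (by
          have := mul_le_mul_of_nonneg_right hη1 (show (0:ℝ) ≤ (1 / 10) * (η * e n) by positivity)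
          linarith)
      have q3 : 0 ≤ η * (η * e n) := by positivity
      have q3' : 0 ≤ η * (η * (η * e n)) := by positivity
      have q4 : η * N ≤ N := by
        have := mul_le_mul_of_nonneg_right (show η ≤ 1 by linarith) hN0
        linarith
      have q5 : 10 * (η * e n) ≤ δ * e n := by
        have := mul_le_mul_of_nonneg_right hηδ hen.le
        linarith
      have q6 : 0 ≤ η * N := by positivity
      rw [abs_le]
      constructor
      · nlinarith
      · nlinarith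
  intro δ hδ
  filter_upwards [key k le_rfl δ hδ, hpos] with n g1 g2
  have hDp : (0 : ℝ) < D n := by exact_mod_cast g2.1
  have e1 : Mx A ρ (J n) Prod.snd k ω / D n - e n = (Mx A ρ (J n) Prod.snd k ω - ∑ j ∈ J n, ∏ t ∈ j.2, ρ t) / D n := by
    simp only [he]
    rw [sub_div]
  rw [e1, abs_div, abs_of_pos hDp, div_le_iff₀ hDp] at g1
  refine g1.trans (le_of_eq ?_)
  have e2 : e n * D n = ∑ j ∈ Φ n (ch A (X n) ω), ∏ t ∈ j.2, ρ t := div_mul_cancel₀ _ hDp.ne'
  rw [mul_assoc, e2]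

/-- **random families in sieved models** -/
theorem sieved_rand (hA : ∀ n, MeasurableSet[ℱ n] (A n)) (Q : ℕ) (hQ : 0 < Q)
    (hcop : ∀ n, ¬ Nat.Coprime n Q → A n = ∅)
    (hd : ∀ᵐ ω ∂μ, Tendsto (fun n : ℕ => dens μ ℱ A n ω * Real.log n)
      (atTop ⊓ 𝓟 {n : ℕ | Nat.Coprime (n + 1) Q}) (𝓝 ((Q : ℝ) / Nat.totient Q)))
    (k : ℕ) (X M : ℕ → ℕ) (Φ : ℕ → Finset ℕ → Finset (ℕ × Finset ℕ)) (D : ℕ → ℕ)
    (hk : ∀ n s, ∀ j ∈ Φ n s, j.2.card = k) (hX : ∀ n s, ∀ j ∈ Φ n s, ∀ t ∈ j.2, X n < t)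
    (hM : ∀ n s, ∀ j ∈ Φ n s, ∀ t ∈ j.2, t ≤ M n)
    (hD : ∀ n s t, ((Φ n s).filter (fun j => t ∈ j.2)).card ≤ D n)
    (F : Filter ℕ) (hF : F ≤ atTop) (L : ℕ → ℝ) (hL : Tendsto L F atTop)
    (hfar : ∀ᵐ ω ∂μ, ∀ δ : ℝ, 0 < δ → ∀ᶠ n : ℕ in F,
      ((far (cop (Φ n (ch A (X n) ω)) Prod.snd Q) Prod.snd (L n) δ).card : ℝ) * L n ^ k ≤
        δ * (cop (Φ n (ch A (X n) ω)) Prod.snd Q).card)
    (hE : ∀ᵐ ω ∂μ, Tendsto (fun n => ((cop (Φ n (ch A (X n) ω)) Prod.snd Q).card : ℝ) /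
      (D n * Real.log n * L n ^ k)) F atTop) :
    ∀ᵐ ω ∂μ, ∀ δ : ℝ, 0 < δ → ∀ᶠ n : ℕ in F,
      |((cho A (Φ n (ch A (X n) ω)) Prod.snd ω).card : ℝ) -
        ((cop (Φ n (ch A (X n) ω)) Prod.snd Q).card : ℝ) * (((Q : ℝ) / Nat.totient Q) / L n) ^ k| ≤
      δ * (((cop (Φ n (ch A (X n) ω)) Prod.snd Q).card : ℝ) * (((Q : ℝ) / Nat.totient Q) / L n) ^ k) := by
  classical
  have hc := cQ_ge Q hQ
  set c : ℝ := (Q : ℝ) / Nat.totient Q with hcdef
  have hex : ∀ᵐ ω ∂μ, ∀ ε : ℝ, 0 < ε → ∀ᶠ n : ℕ in F,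
      |∑ j ∈ cop (Φ n (ch A (X n) ω)) Prod.snd Q, ∏ t ∈ j.2, rhoW Q t -
        ((cop (Φ n (ch A (X n) ω)) Prod.snd Q).card : ℝ) * (c / L n) ^ k| ≤
      ε * (((cop (Φ n (ch A (X n) ω)) Prod.snd Q).card : ℝ) * (c / L n) ^ k) := by
    filter_upwards [hfar] with ω hω
    exact expect Q hQ k (fun n => Φ n (ch A (X n) ω)) (fun _ => Prod.snd) (fun n j hj => hk n _ j hj) F L hL hω
  have hE' : ∀ᵐ ω ∂μ, Tendsto (fun n => (∑ j ∈ cop (Φ n (ch A (X n) ω)) Prod.snd Q, ∏ t ∈ j.2, rhoW Q t) / D n /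
      Real.log n) F atTop := by
    filter_upwards [hex, hE] with ω hex hE
    refine tendsto_atTop_mono' F ?_ (hE.const_mul_atTop (show (0:ℝ) < 1 / 2 by norm_num))
    filter_upwards [hex (1 / 2) (by norm_num), hL.eventually_gt_atTop 0, (eventually_gt_atTop 1).filter_mono hF] with n g1 g2 g3
    have hl : 0 < Real.log n := Real.log_pos (by exact_mod_cast g3)
    have k1 := (abs_le.1 g1).1
    set N : ℝ := ((cop (Φ n (ch A (X n) ω)) Prod.snd Q).card : ℝ)
    have hN0 : 0 ≤ N := Nat.cast_nonneg _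
    have k2 : 1 / 2 * (N / L n ^ k) ≤ ∑ j ∈ cop (Φ n (ch A (X n) ω)) Prod.snd Q, ∏ t ∈ j.2, rhoW Q t := by
      have k3 : N / L n ^ k ≤ N * (c / L n) ^ k := by
        rw [div_pow, mul_div_assoc']
        gcongr
        have : (1 : ℝ) ≤ c ^ k := one_le_pow₀ hc
        nlinarith
      linarith
    have k4 : 1 / 2 * (N / (D n * Real.log n * L n ^ k)) = 1 / 2 * (N / L n ^ k) / D n / Real.log n := by
      by_cases hD0 : (D n : ℝ) = 0
      · simp [hD0]
      · field_simp
    rw [k4]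
    gcongr
  have hfam := families_rand (μ := μ) hA (rhoW Q) (fun n => ⟨rhoW_nonneg Q n, rhoW_le Q n⟩)
    (dens_profile hA Q hQ hcop hd) k X M (fun n s => cop (Φ n s) Prod.snd Q) D
    (fun n s j hj => hk n s j (Finset.mem_of_mem_filter j hj)) (fun n s j hj => hX n s j (Finset.mem_of_mem_filter j hj))
    (fun n s j hj => hM n s j (Finset.mem_of_mem_filter j hj))
    (fun n s t => by
      refine le_trans ?_ (hD n s t)
      apply Finset.card_le_card
      intro j hj
      rw [Finset.mem_filter] at hj ⊢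
      exact ⟨Finset.mem_of_mem_filter j hj.1, hj.2⟩) F hF hE'
  filter_upwards [hfam, hex] with ω hω hex δ hδ
  set η : ℝ := min (δ / 3) 1 with hη
  have hη0 : 0 < η := by rw [hη]; positivity
  have hη1 : η ≤ 1 := min_le_right _ _
  have hηδ : 3 * η ≤ δ := by
    have : η ≤ δ / 3 := min_le_left _ _
    linarith
  filter_upwards [hω η hη0, hex η hη0] with n g1 g2
  rw [Mx_top (rhoW Q) (cop (Φ n (ch A (X n) ω)) Prod.snd Q) Prod.snd (k := k)
    (fun j hj => hk n _ j (Finset.mem_of_mem_filter j hj))] at g1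
  have e1 : (cop (Φ n (ch A (X n) ω)) Prod.snd Q).filter (fun j => ∀ t ∈ j.2, ω ∈ A t) =
      cho A (Φ n (ch A (X n) ω)) Prod.snd ω := by
    unfold cop cho
    rw [Finset.filter_filter]
    apply Finset.filter_congr
    intro j _
    constructor
    · exact fun h => h.2
    · intro h
      refine ⟨fun t ht => ?_, h⟩
      by_contra hcon
      have := h t ht
      rw [hcop t hcon] at this
      exact this
  rw [e1] at g1
  set x : ℝ := ((cop (Φ n (ch A (X n) ω)) Prod.snd Q).card : ℝ) * (c / L n) ^ k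
  set E : ℝ := ∑ j ∈ cop (Φ n (ch A (X n) ω)) Prod.snd Q, ∏ t ∈ j.2, rhoW Q t
  set R : ℝ := ((cho A (Φ n (ch A (X n) ω)) Prod.snd ω).card : ℝ)
  have k1 := abs_le.1 g1
  have k2 := abs_le.1 g2
  have hx0 : 0 ≤ x := by
    by_contra hcon
    push Not at hcon
    nlinarith
  have hηx : 0 ≤ η * x := by positivity
  have k3 : η * E ≤ η * ((1 + η) * x) := mul_le_mul_of_nonneg_left (by linarith) hη0.le
  have k4 : η * (η * x) ≤ 1 * (η * x) := mul_le_mul_of_nonneg_right hη1 hηx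
  have k5 : 3 * η * x ≤ δ * x := mul_le_mul_of_nonneg_right hηδ hx0
  rw [abs_le]
  constructor <;> nlinarith

end Pool.Agent.N909.TF
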