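import Mathlib
import Pool.Agent.N909.TF.RFam

set_option autoImplicit false

/-! # Indices: the `k`-th element of the random set -/

open MeasureTheory Filter Set
open scoped ENNReal Topology

namespace Pool.Agent.N909.TF

open Pool.Agent.R528.RM

/-- the element number `k` of `S` (the least one has number `1`) -/
noncomputable def pk (S : Set ℕ) (k : ℕ) : ℕ := Nat.nth (· ∈ S) (k - 1)

/-- the prime number theorem for a set of integers -/
def PNT (S : Set ℕ) : Prop :=
  ∀ ε : ℝ, 0 < ε → ∀ᶠ n : ℕ in atTop, |((S ∩ Set.Ioc 0 n).ncard : ℝ) - n / Real.log n| ≤ ε * (n / Real.log n)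

section det

variable {S : Set ℕ}

lemma infinite_of_pnt (h : PNT S) : S.Infinite := by
  intro hf
  have h1 : ∀ᶠ n : ℕ in atTop, (1 / 2 : ℝ) * ((n : ℝ) / Real.log n) ≤ S.ncard := by
    filter_upwards [h (1 / 2) (by norm_num)] with n g
    have h2 : (S ∩ Set.Ioc 0 n).ncard ≤ S.ncard := Set.ncard_le_ncard inter_subset_left hf
    have h3 : ((S ∩ Set.Ioc 0 n).ncard : ℝ) ≤ S.ncard := by exact_mod_cast h2
    have := (abs_le.1 g).1
    linarith
  have h2 : Tendsto (fun n : ℕ => (1 / 2 : ℝ) * ((n : ℝ) / Real.log n)) atTop atTop := by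
    have := (pow_log 1 1 one_pos one_pos 1).const_mul_atTop (show (0:ℝ) < 1 / 2 by norm_num)
    refine this.congr fun n => ?_
    rw [Real.rpow_one, pow_one, one_mul]
  obtain ⟨n, h3, h4⟩ := (h1.and (h2.eventually_gt_atTop (S.ncard : ℝ))).exists
  linarith

lemma pk_mem (hS : S.Infinite) (k : ℕ) : pk S k ∈ S := Nat.nth_mem_of_infinite hS _

lemma pk_lt (hS : S.Infinite) {k l : ℕ} (hk : 0 < k) (hkl : k < l) : pk S k < pk S l :=
  Nat.nth_strictMono hS (by omega)

lemma pk_ge (hS : S.Infinite) (k : ℕ) : k ≤ pk S k + 1 := by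
  have := (Nat.nth_strictMono (p := (· ∈ S)) hS).id_le (k - 1)
  unfold pk
  simp only [id] at this
  omega

lemma pk_inj (hS : S.Infinite) {k l : ℕ} (hk : 0 < k) (hl : 0 < l) (h : pk S k = pk S l) : k = l := by
  rcases lt_trichotomy k l with h1 | h1 | h1
  · exact absurd h (pk_lt hS hk h1).ne
  · exact h1
  · exact absurd h (pk_lt hS hl h1).ne'

lemma count_pk (hS : S.Infinite) [DecidablePred (· ∈ S)] (k : ℕ) : Nat.count (· ∈ S) (pk S k) = k - 1 :=
  Nat.count_nth_of_infinite (p := (· ∈ S)) hS _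

/-- the number of elements up to `n` bounds the index -/
lemma pk_le_of (hS : S.Infinite) {k n : ℕ} (h : k ≤ (S ∩ Set.Ioc 0 n).ncard) (hk : 0 < k) : pk S k ≤ n := by
  classical
  by_contra hcon
  push Not at hcon
  have h1 : (S ∩ Set.Ioc 0 n).ncard ≤ Nat.count (· ∈ S) (pk S k) := by
    rw [Nat.count_eq_card_filter_range, ← Set.ncard_coe_finset]
    apply Set.ncard_le_ncard _ (Finset.finite_toSet _)
    rintro x ⟨h2, h3, h4⟩
    rw [Finset.mem_coe, Finset.mem_filter, Finset.mem_range]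
    exact ⟨lt_of_le_of_lt h4 hcon, h2⟩
  rw [count_pk hS] at h1
  omega

/-- upper bound for the elements -/
lemma pk_up (h : PNT S) (ε : ℝ) (hε : 0 < ε) : ∀ᶠ k : ℕ in atTop, (pk S k : ℝ) ≤ (k : ℝ) ^ (1 + ε) := by
  have hS := infinite_of_pnt h
  have ht : Tendsto (fun k : ℕ => ⌊(k : ℝ) ^ (1 + ε)⌋₊) atTop atTop :=
    tendsto_nat_floor_atTop.comp ((tendsto_rpow_atTop (by linarith)).comp tendsto_natCast_atTop_atTop)
  have h1 := ht.eventually (h (1 / 2) (by norm_num))
  have h2 := (pow_log 1 ε one_pos hε 1).eventually_ge_atTop (4 * (1 + ε) + 4)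
  filter_upwards [h1, h2, eventually_gt_atTop 2, ht.eventually_gt_atTop 2] with k g1 g2 g3 g4
  have hk : (2 : ℝ) < k := by exact_mod_cast g3
  have hk0 : (0 : ℝ) < k := by linarith
  have hL : 0 < Real.log k := Real.log_pos (by linarith)
  set n := ⌊(k : ℝ) ^ (1 + ε)⌋₊ with hn
  have hn2 : (2 : ℝ) < n := by exact_mod_cast g4
  have hnle : (n : ℝ) ≤ (k : ℝ) ^ (1 + ε) := Nat.floor_le (by positivity)
  have hnge : (k : ℝ) ^ (1 + ε) < n + 1 := Nat.lt_floor_add_one _
  have hLn : 0 < Real.log n := Real.log_pos (by linarith)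
  have hLn2 : Real.log n ≤ (1 + ε) * Real.log k := by
    rw [← Real.log_rpow hk0]
    exact Real.log_le_log (by linarith) hnle
  have hkn : (k : ℝ) ≤ (1 / 2) * (n / Real.log n) := by
    rw [mul_div_assoc', le_div_iff₀ hLn]
    rw [Real.rpow_add hk0, Real.rpow_one] at hnge
    rw [pow_one, one_mul, le_div_iff₀ hL] at g2
    have e1 : k * ((4 * (1 + ε) + 4) * Real.log k) ≤ k * (k : ℝ) ^ ε := mul_le_mul_of_nonneg_left g2 hk0.le
    have e2 : (k : ℝ) * Real.log n ≤ k * ((1 + ε) * Real.log k) := mul_le_mul_of_nonneg_left hLn2 hk0.le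
    have e3 : 0 < (k : ℝ) * Real.log k := by positivity
    have e4 : (1 : ℝ) ≤ 4 * (k * Real.log k) := by
      have : Real.log 2 ≤ Real.log k := Real.log_le_log (by norm_num) hk.le
      have := Real.log_two_gt_d9
      nlinarith
    have e5 : 0 < ε * (k * Real.log k) := by positivity
    nlinarith
  have h5 : k ≤ (S ∩ Set.Ioc 0 n).ncard := by
    have := (abs_le.1 g1).1
    have h6 : (k : ℝ) ≤ (S ∩ Set.Ioc 0 n).ncard := by linarith
    exact_mod_cast h6
  have h6 := pk_le_of hS h5 (by omega)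
  have h7 : (pk S k : ℝ) ≤ n := by exact_mod_cast h6
  linarith

/-- the elements grow faster than the indices -/
lemma pk_gt (h : PNT S) (K : ℕ) : ∀ᶠ k : ℕ in atTop, K * k < pk S k := by
  classical
  have hS := infinite_of_pnt h
  -- otherwise too many elements up to `K k`
  have ht : Tendsto (fun k : ℕ => (K + 1) * k) atTop atTop :=
    tendsto_atTop_mono (fun k => Nat.le_mul_of_pos_left k (Nat.succ_pos K)) tendsto_id
  have h1 := ht.eventually (h 1 one_pos)
  have hlog : Tendsto (fun k : ℕ => Real.log (((K + 1) * k : ℕ) : ℝ)) atTop atTop :=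
    (Real.tendsto_log_atTop.comp tendsto_natCast_atTop_atTop).comp ht
  filter_upwards [h1, hlog.eventually_gt_atTop (4 * (K + 1)), eventually_gt_atTop 4] with k g1 g2 g3
  by_contra hcon
  push Not at hcon
  have hk : (4 : ℝ) < k := by exact_mod_cast g3
  have h2 : k ≤ (S ∩ Set.Ioc 0 ((K + 1) * k)).ncard + 1 := by
    have h3 : Nat.count (· ∈ S) (pk S k + 1) ≤ (S ∩ Set.Ioc 0 ((K + 1) * k)).ncard + 1 := by
      rw [Nat.count_eq_card_filter_range, ← Set.ncard_coe_finset]
      have h4 : (((Finset.range (pk S k + 1)).filter (· ∈ S) : Finset ℕ) : Set ℕ) ⊆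
          insert 0 (S ∩ Set.Ioc 0 ((K + 1) * k)) := by
        intro x hx
        rw [Finset.mem_coe, Finset.mem_filter, Finset.mem_range] at hx
        rcases Nat.eq_zero_or_pos x with h5 | h5
        · left; exact h5
        · right
          have : x ≤ K * k := by omega
          refine ⟨hx.2, h5, ?_⟩
          nlinarith
      refine (Set.ncard_le_ncard h4 ?_).trans (Set.ncard_insert_le _ _)
      exact ((Set.finite_Ioc 0 ((K + 1) * k)).subset inter_subset_right).insert 0
    rw [Nat.count_succ, count_pk hS, if_pos (pk_mem hS k)] at h3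
    omega
  have h3 : (k : ℝ) ≤ (S ∩ Set.Ioc 0 ((K + 1) * k)).ncard + 1 := by exact_mod_cast h2
  have h4 := (abs_le.1 g1).2
  set n : ℝ := (((K + 1) * k : ℕ) : ℝ) with hn
  have hn' : n = (K + 1) * k := by rw [hn]; push_cast; ring
  have hKK : (0 : ℝ) ≤ K := Nat.cast_nonneg K
  have hln : 0 < Real.log n := by linarith
  have h5 : n / Real.log n ≤ k / 4 := by
    rw [div_le_iff₀ hln]
    calc n = (K + 1) * k := hn'
      _ ≤ k / 4 * Real.log n := by nlinarith
  linarith

/-- truncation -/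
lemma pk_trunc (hS : S.Infinite) (s : Finset ℕ) (X : ℕ) (hs : ∀ t, t ∈ s ↔ t ≤ X ∧ t ∈ S) {k : ℕ} (hk : pk S k ≤ X) :
    pk (s : Set ℕ) k = pk S k := by
  classical
  have h1 : Nat.count (· ∈ (s : Set ℕ)) (pk S k) = k - 1 := by
    rw [← count_pk hS k, Nat.count_eq_card_filter_range, Nat.count_eq_card_filter_range]
    congr 1
    apply Finset.filter_congr
    intro t ht
    rw [Finset.mem_range] at ht
    rw [Finset.mem_coe, hs]
    constructor
    · exact fun h => h.2
    · exact fun h => ⟨by omega, h⟩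
  have h2 : pk S k ∈ (s : Set ℕ) := by
    rw [Finset.mem_coe, hs]
    exact ⟨hk, pk_mem hS k⟩
  have h3 := Nat.nth_count (p := (· ∈ (s : Set ℕ))) h2
  rw [h1] at h3
  exact h3

lemma pk_fin (s : Finset ℕ) (k : ℕ) : pk (s : Set ℕ) k = 0 ∨ pk (s : Set ℕ) k ∈ s := by
  have hf : (setOf (fun x => x ∈ (s : Set ℕ))).Finite := Finset.finite_toSet s
  unfold pk
  by_cases h : k - 1 < hf.toFinset.card
  · right
    exact Nat.nth_mem_of_lt_card hf h
  · left
    exact Nat.nth_of_card_le hf (not_lt.1 h)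

lemma pk_fin_inj (s : Finset ℕ) {k l : ℕ} (hk : 0 < k) (hl : 0 < l) (h0 : 0 < pk (s : Set ℕ) k)
    (h : pk (s : Set ℕ) k = pk (s : Set ℕ) l) : k = l := by
  have hf : (setOf (fun x => x ∈ (s : Set ℕ))).Finite := Finset.finite_toSet s
  have h1 : k - 1 < hf.toFinset.card := by
    by_contra hcon
    unfold pk at h0
    rw [Nat.nth_of_card_le hf (not_lt.1 hcon)] at h0
    exact lt_irrefl _ h0
  have h2 : l - 1 < hf.toFinset.card := by
    by_contra hcon
    rw [h] at h0
    unfold pk at h0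
    rw [Nat.nth_of_card_le hf (not_lt.1 hcon)] at h0
    exact lt_irrefl _ h0
  have h3 := Nat.nth_injOn hf h1 h2 h
  omega

end det

variable {Ω : Type} {m0 : MeasurableSpace Ω} {μ : Measure Ω} [IsProbabilityMeasure μ]
  {ℱ : Filtration ℕ m0} {A : ℕ → Set Ω}

/-- the sequential models satisfy the hypotheses of the sieved models with `Q = 1` -/
lemma seq_sieved (hd : ∀ᵐ ω ∂μ, Tendsto (fun n : ℕ => dens μ ℱ A n ω * Real.log n) atTop (𝓝 1)) :
    ∀ᵐ ω ∂μ, Tendsto (fun n : ℕ => dens μ ℱ A n ω * Real.log n)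
      (atTop ⊓ 𝓟 {n : ℕ | Nat.Coprime (n + 1) 1}) (𝓝 (((1 : ℕ) : ℝ) / Nat.totient 1)) := by
  filter_upwards [hd] with ω hω
  simp only [Nat.totient_one, Nat.cast_one, div_one]
  exact hω.mono_left inf_le_left

theorem pnt_ae (hA : ∀ n, MeasurableSet[ℱ n] (A n))
    (hd : ∀ᵐ ω ∂μ, Tendsto (fun n : ℕ => dens μ ℱ A n ω * Real.log n) atTop (𝓝 1)) :
    ∀ᵐ ω ∂μ, PNT {k | ω ∈ A k} := by
  classical
  have hN : ∀ n, (cop (Finset.Ioc 0 n) (fun m : ℕ => ({m} : Finset ℕ)) 1).card = n := by
    intro n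
    unfold cop
    rw [Finset.filter_true_of_mem (fun j _ t _ => Nat.coprime_one_right t), Nat.card_Ioc, Nat.sub_zero]
  have h1 := law (μ := μ) hA 1 one_pos (fun n hn => absurd (Nat.coprime_one_right n) hn) (seq_sieved hd) 1
    (fun n => Finset.Ioc 0 n) (fun _ m => {m}) (fun _ => 1) (fun n j _ => Finset.card_singleton _)
    (fun n j hj => by
      rw [Finset.mem_singleton]
      have := (Finset.mem_Ioc.1 hj).1
      omega)
    (fun n t => by
      refine Finset.card_le_one.2 fun a ha b hb => ?_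
      rw [Finset.mem_filter, Finset.mem_singleton] at ha hb
      rw [← ha.2, ← hb.2])
    (fun _ => le_rfl) atTop le_rfl 1 1 1 one_pos one_pos
    (by
      filter_upwards with n
      rw [hN, one_mul, Real.rpow_one])
    ⟨1 / 2, by norm_num, by
      filter_upwards [eventually_ge_atTop 1] with n hn
      have : (1 : ℝ) ≤ n := by exact_mod_cast hn
      rw [Nat.cast_one]
      exact Real.one_le_rpow this (by norm_num)⟩
    (by
      intro δ hδ
      set d : ℝ := min δ (1 / 2) with hdd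
      have hd0 : 0 < d := by rw [hdd]; positivity
      have hd1 : d ≤ 1 / 2 := min_le_right _ _
      refine ⟨d, hd0, ?_⟩
      filter_upwards [near_log 1 d hd0, eventually_gt_atTop 1] with n g1 g2
      have hn : (1 : ℝ) < n := by exact_mod_cast g2
      have hL : 0 < Real.log n := Real.log_pos hn
      have h2 : far (Finset.Ioc 0 n) (fun m : ℕ => ({m} : Finset ℕ)) (1 * Real.log n) δ ⊆
          Finset.Ioc 0 ⌊(n : ℝ) ^ (1 - d)⌋₊ := by
        intro m hm
        unfold far at hm
        simp only [Finset.mem_filter, Finset.mem_Ioc, Finset.mem_singleton, exists_eq_left, one_mul] at hm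
        obtain ⟨⟨m1, m2⟩, m3⟩ := hm
        rw [Finset.mem_Ioc, Nat.le_floor_iff (by positivity)]
        refine ⟨m1, ?_⟩
        by_contra hcon
        push Not at hcon
        have m4 := g1 m hcon.le (by rw [one_mul]; exact_mod_cast m2)
        have : d * Real.log n ≤ δ * Real.log n := mul_le_mul_of_nonneg_right (min_le_left _ _) hL.le
        linarith
      have h3 := Finset.card_le_card h2
      rw [Nat.card_Ioc, Nat.sub_zero] at h3
      calc ((far (Finset.Ioc 0 n) (fun m : ℕ => ({m} : Finset ℕ)) (1 * Real.log n) δ).card : ℝ)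
          ≤ (⌊(n : ℝ) ^ (1 - d)⌋₊ : ℝ) := by exact_mod_cast h3
        _ ≤ (n : ℝ) ^ (1 - d) := Nat.floor_le (by positivity))
  filter_upwards [h1] with ω hω ε hε
  filter_upwards [hω ε hε] with n g
  rw [hN] at g
  have e1 : (({k | ω ∈ A k} ∩ Set.Ioc 0 n).ncard : ℝ) = ((cho A (Finset.Ioc 0 n) (fun m : ℕ => ({m} : Finset ℕ)) ω).card : ℝ) := by
    unfold cho
    rw [← Set.ncard_coe_finset]
    congr 2
    ext m
    simp only [Finset.coe_filter, Finset.mem_Ioc, Finset.mem_singleton, forall_eq, Set.mem_ofPred_eq, mem_inter_iff,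
      Set.mem_Ioc]
    tauto
  rw [e1]
  have e2 : (n : ℝ) * ((((1 : ℕ) : ℝ) / Nat.totient 1) / (1 * Real.log n)) ^ 1 = n / Real.log n := by
    rw [Nat.totient_one, Nat.cast_one, div_one, one_mul, pow_one, mul_one_div]
  rw [e2] at g
  exact g

end Pool.Agent.N909.TF
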