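import Mathlib
import Pool.Agent.N862.TF.Box
import Pool.Agent.N395.TF.Loc3

set_option autoImplicit false

/-! # Solutions of ternary linear equations in boxes and residue classes -/

open Finset

namespace Pool.Agent.N909.TF.Bak

open Pool.Agent.N862.TF

/-- the vector attached to a point of the box -/
def vec (P x₀ y₀ z₀ : ℕ) (a β : ℕ) (c E : ℤ) (s : ℤ × ℤ) : Fin 3 → ℤ :=
  ![x₀ + P * s.1, y₀ + P * ((a * s.1 + c * s.2 + E) / β), z₀ + P * s.2]

/-- the length of the second side of the box -/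
def Zl (a H : ℕ) (c : ℤ) : ℕ := a * H / max a c.natAbs

lemma Zl_le (a H : ℕ) (c : ℤ) (ha : 0 < a) : Zl a H c ≤ H := by
  unfold Zl
  apply Nat.div_le_of_le_mul
  exact Nat.mul_le_mul_right H (le_max_left _ _)

lemma Zl_ge {a β H : ℕ} {c : ℤ} (ha : 0 < a) (haβ : a ≤ β) (hcβ : c.natAbs ≤ β) (hβH : β ≤ H) : a ≤ Zl a H c := by
  unfold Zl
  rw [Nat.le_div_iff_mul_le (lt_of_lt_of_le ha (le_max_left _ _))]
  exact Nat.mul_le_mul_left a ((max_le haβ hcβ).trans hβH)

/-- `a H / β ≤ Zl + 1`, in the form `a H ≤ β (Zl + 1)` -/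
lemma Zl_lt {a β H : ℕ} {c : ℤ} (ha : 0 < a) (haβ : a ≤ β) (hcβ : c.natAbs ≤ β) : a * H ≤ β * (Zl a H c + 1) := by
  unfold Zl
  have h1 := Nat.lt_mul_div_succ (a * H) (lt_of_lt_of_le ha (le_max_left a c.natAbs))
  have h2 : max a c.natAbs * (a * H / max a c.natAbs + 1) ≤ β * (a * H / max a c.natAbs + 1) :=
    Nat.mul_le_mul_right _ (max_le haβ hcβ)
  omega

/-- `|c| Zl ≤ a H` -/
lemma Zl_c (a H : ℕ) (c : ℤ) : c.natAbs * Zl a H c ≤ a * H := by
  unfold Zl
  calc c.natAbs * (a * H / max a c.natAbs) ≤ max a c.natAbs * (a * H / max a c.natAbs) :=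
        Nat.mul_le_mul_right _ (le_max_right _ _)
    _ ≤ a * H := Nat.mul_div_le _ _

section

variable {a β : ℕ} {c d E : ℤ} {P x₀ y₀ z₀ H : ℕ}

/-- the second coordinate solves the equation -/
lemma vec_eq (hE : (P : ℤ) * E = a * x₀ - β * y₀ + c * z₀ - d) {s : ℤ × ℤ}
    (hs : (β : ℤ) ∣ a * s.1 + c * s.2 + E) :
    (a : ℤ) * vec P x₀ y₀ z₀ a β c E s 0 - β * vec P x₀ y₀ z₀ a β c E s 1 + c * vec P x₀ y₀ z₀ a β c E s 2 = d := by
  have h1 : (β : ℤ) * ((a * s.1 + c * s.2 + E) / β) = a * s.1 + c * s.2 + E := Int.mul_ediv_cancel' hs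
  have h2 : (β : ℤ) * (y₀ + P * ((a * s.1 + c * s.2 + E) / β)) = β * y₀ + P * (a * s.1 + c * s.2 + E) := by
    calc (β : ℤ) * (y₀ + P * ((a * s.1 + c * s.2 + E) / β))
        = β * y₀ + P * (β * ((a * s.1 + c * s.2 + E) / β)) := by ring
      _ = _ := by rw [h1]
  show (a : ℤ) * (x₀ + P * s.1) - β * (y₀ + P * ((a * s.1 + c * s.2 + E) / β)) + c * (z₀ + P * s.2) = d
  rw [h2]
  linarith

/-- the sizes -/
lemma vec_size (ha : 0 < a) (haβ : a ≤ β) (hP : 0 < P) (hH : 0 < H) (hx : 1 ≤ x₀ ∧ x₀ ≤ P) (hz : 1 ≤ z₀ ∧ z₀ ≤ P)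
    (hE : (P : ℤ) * E = a * x₀ - β * y₀ + c * z₀ - d) (hd : |d| ≤ 11 * P * H) {s : ℤ × ℤ}
    (hs : (β : ℤ) ∣ a * s.1 + c * s.2 + E) (h1 : 13 * (H : ℤ) < s.1) (h2 : s.1 ≤ 14 * H)
    (h3 : -1 < s.2) (h4 : s.2 ≤ -1 + Zl a H c) :
    (13 * (P * H : ℤ) < vec P x₀ y₀ z₀ a β c E s 0 ∧ vec P x₀ y₀ z₀ a β c E s 0 ≤ 15 * (P * H)) ∧
    (1 ≤ vec P x₀ y₀ z₀ a β c E s 1 ∧ vec P x₀ y₀ z₀ a β c E s 1 ≤ 32 * (P * H)) ∧
    (1 ≤ vec P x₀ y₀ z₀ a β c E s 2 ∧ vec P x₀ y₀ z₀ a β c E s 2 ≤ P * H) := by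
  have hP' : (1 : ℤ) ≤ P := by exact_mod_cast hP
  have hH' : (1 : ℤ) ≤ H := by exact_mod_cast hH
  have ha' : (1 : ℤ) ≤ a := by exact_mod_cast ha
  have haβ' : (a : ℤ) ≤ β := by exact_mod_cast haβ
  have hx1 : (1 : ℤ) ≤ x₀ := by exact_mod_cast hx.1
  have hx2 : (x₀ : ℤ) ≤ P := by exact_mod_cast hx.2
  have hz1 : (1 : ℤ) ≤ z₀ := by exact_mod_cast hz.1
  have hz2 : (z₀ : ℤ) ≤ P := by exact_mod_cast hz.2
  have hPH : (1 : ℤ) ≤ P * H := by nlinarith
  have hZH : (Zl a H c : ℤ) ≤ H := by exact_mod_cast Zl_le a H c ha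
  have e0 : vec P x₀ y₀ z₀ a β c E s 0 = x₀ + P * s.1 := rfl
  have e2 : vec P x₀ y₀ z₀ a β c E s 2 = z₀ + P * s.2 := rfl
  have heq := vec_eq hE hs
  set x := vec P x₀ y₀ z₀ a β c E s 0 with hxd
  set y := vec P x₀ y₀ z₀ a β c E s 1 with hyd
  set z := vec P x₀ y₀ z₀ a β c E s 2 with hzd
  have x1 : 13 * (P * H : ℤ) < x := by
    rw [e0]
    have : (P : ℤ) * (13 * H) ≤ P * s.1 := mul_le_mul_of_nonneg_left h1.le (by linarith)
    linarith
  have x2 : x ≤ 15 * (P * H : ℤ) := by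
    rw [e0]
    have k1 : (P : ℤ) * s.1 ≤ P * (14 * H) := mul_le_mul_of_nonneg_left h2 (by linarith)
    have k2 : (P : ℤ) ≤ P * H := by nlinarith
    linarith
  have z1 : 1 ≤ z := by
    rw [e2]
    have : 0 ≤ (P : ℤ) * s.2 := mul_nonneg (by linarith) (by linarith)
    linarith
  have z2 : z ≤ P * Zl a H c := by
    rw [e2]
    have k1 : (P : ℤ) * s.2 ≤ P * (-1 + Zl a H c) := mul_le_mul_of_nonneg_left h4 (by linarith)
    linarith
  have z3 : z ≤ P * H := z2.trans (mul_le_mul_of_nonneg_left hZH (by linarith))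
  -- the product `c z`
  have cz : |c * z| ≤ a * (P * H) := by
    rw [abs_mul, abs_of_pos (show (0 : ℤ) < z by linarith), Int.abs_eq_natAbs]
    have k1 : (c.natAbs : ℤ) * z ≤ c.natAbs * (P * Zl a H c) := mul_le_mul_of_nonneg_left z2 (Int.natCast_nonneg _)
    have k2 : ((c.natAbs * Zl a H c : ℕ) : ℤ) ≤ ((a * H : ℕ) : ℤ) := by exact_mod_cast Zl_c a H c
    push_cast at k2
    have k3 : (P : ℤ) * (c.natAbs * Zl a H c) ≤ P * (a * H) := by
      apply mul_le_mul_of_nonneg_left _ (by linarith)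
      simpa using k2
    calc (c.natAbs : ℤ) * z ≤ c.natAbs * (P * Zl a H c) := k1
      _ = P * (c.natAbs * Zl a H c) := by ring
      _ ≤ P * (a * H) := k3
      _ = a * (P * H) := by ring
  have cz' := abs_le.1 cz
  have hd' := abs_le.1 hd
  have hax1 : (a : ℤ) * (13 * (P * H)) ≤ a * x := mul_le_mul_of_nonneg_left x1.le (by linarith)
  have hax2 : (a : ℤ) * x ≤ a * (15 * (P * H)) := mul_le_mul_of_nonneg_left x2 (by linarith)
  have haPH : (P * H : ℤ) ≤ a * (P * H) := by nlinarith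
  have hβPH : (a : ℤ) * (P * H) ≤ β * (P * H) := mul_le_mul_of_nonneg_right haβ' (by linarith)
  have hβ0 : (0 : ℤ) < β := by linarith
  have y1 : 0 < (β : ℤ) * y := by nlinarith
  have y2 : (β : ℤ) * y ≤ β * (32 * (P * H)) := by nlinarith
  refine ⟨⟨x1, x2⟩, ⟨?_, le_of_mul_le_mul_left y2 hβ0⟩, z1, z3⟩
  by_contra hcon
  push Not at hcon
  have : y ≤ 0 := by linarith
  nlinarith

/-- **many solutions with small multiplicities** -/
theorem core (ha : 0 < a) (haβ : a ≤ β) (hc : c ≠ 0) (hcβ : c.natAbs ≤ β) (hg : Int.gcd (Nat.gcd a β) c = 1)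
    (hP : 0 < P) (hx : 1 ≤ x₀ ∧ x₀ ≤ P) (hz : 1 ≤ z₀ ∧ z₀ ≤ P)
    (hE : (P : ℤ) * E = a * x₀ - β * y₀ + c * z₀ - d) (hβH : 40 * β ≤ H) (hd : |d| ≤ 11 * P * H) :
    ∃ 𝒥 : Finset (Fin 3 → ℕ),
      (∀ v ∈ 𝒥, (∀ i, 1 ≤ v i ∧ v i ≤ 32 * (P * H)) ∧ Function.Injective v ∧
        (a : ℤ) * v 0 - β * v 1 + c * v 2 = d ∧
        v 0 ≡ x₀ [MOD P] ∧ v 1 ≡ y₀ [MOD P] ∧ v 2 ≡ z₀ [MOD P]) ∧
      (∀ t, (𝒥.filter (fun v => t ∈ Finset.univ.image v)).card ≤ 5 * Zl a H c) ∧
      H * Zl a H c ≤ 8 * β * 𝒥.card ∧ 0 < Zl a H c := by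
  classical
  have hβ : 0 < β := lt_of_lt_of_le ha haβ
  have hH : 0 < H := by omega
  have hβH' : β ≤ H := by omega
  have hZa := Zl_ge (c := c) ha haβ hcβ hβH'
  have hZ0 : 0 < Zl a H c := lt_of_lt_of_le ha hZa
  set Z := Zl a H c with hZ
  set S := sol a β c (-E) (13 * H) (-1) H Z with hS
  have hlow := sol_lower a β c (-E) (13 * H) (-1) H Z ha hβ hg hβH' hZa
  rw [← hS] at hlow
  have hmem : ∀ s ∈ S, (13 * (H : ℤ) < s.1 ∧ s.1 ≤ 14 * H) ∧ (-1 < s.2 ∧ s.2 ≤ -1 + Z) ∧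
      (β : ℤ) ∣ a * s.1 + c * s.2 + E := by
    intro s hs
    rw [hS] at hs
    unfold sol at hs
    rw [Finset.mem_filter, Finset.mem_product, Finset.mem_Ioc, Finset.mem_Ioc, sub_neg_eq_add] at hs
    obtain ⟨⟨⟨h1, h2⟩, h3, h4⟩, h5⟩ := hs
    exact ⟨⟨h1, by linarith⟩, ⟨h3, h4⟩, h5⟩
  set V : ℤ × ℤ → Fin 3 → ℤ := vec P x₀ y₀ z₀ a β c E with hV
  have hsz : ∀ s ∈ S, (13 * (P * H : ℤ) < V s 0 ∧ V s 0 ≤ 15 * (P * H)) ∧ (1 ≤ V s 1 ∧ V s 1 ≤ 32 * (P * H)) ∧
      (1 ≤ V s 2 ∧ V s 2 ≤ P * H) := by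
    intro s hs
    obtain ⟨⟨h1, h2⟩, ⟨h3, h4⟩, h5⟩ := hmem s hs
    exact vec_size ha haβ hP hH hx hz hE hd h5 h1 h2 h3 h4
  have heq : ∀ s ∈ S, (a : ℤ) * V s 0 - β * V s 1 + c * V s 2 = d := fun s hs => vec_eq hE (hmem s hs).2.2
  have hP' : (0 : ℤ) < P := by exact_mod_cast hP
  have ha' : (0 : ℤ) < a := by exact_mod_cast ha
  have hβ' : (0 : ℤ) < β := by exact_mod_cast hβ
  have hPH : (1 : ℤ) ≤ P * H := by
    have : (1 : ℤ) ≤ H := by exact_mod_cast hH
    nlinarith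
  have e0 : ∀ s, V s 0 = x₀ + P * s.1 := fun s => rfl
  have e1 : ∀ s, V s 1 = y₀ + P * ((a * s.1 + c * s.2 + E) / β) := fun s => rfl
  have e2 : ∀ s, V s 2 = z₀ + P * s.2 := fun s => rfl
  have inj0 : ∀ s s', V s 0 = V s' 0 → s.1 = s'.1 := by
    intro s s' h
    rw [e0, e0] at h
    have : (P : ℤ) * s.1 = P * s'.1 := by linarith
    exact mul_left_cancel₀ hP'.ne' this
  have inj2 : ∀ s s', V s 2 = V s' 2 → s.2 = s'.2 := by
    intro s s' h
    rw [e2, e2] at h
    have : (P : ℤ) * s.2 = P * s'.2 := by linarith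
    exact mul_left_cancel₀ hP'.ne' this
  -- a subset of the box on which the second coordinate is injective is small
  have hsecond : ∀ T : Finset (ℤ × ℤ), T ⊆ S → (∀ s ∈ T, ∀ s' ∈ T, s.2 = s'.2 → s.1 = s'.1) → T.card ≤ Z := by
    intro T hT hinj
    have h1 : T.card ≤ (Finset.Ioc (-1 : ℤ) (-1 + Z)).card := by
      refine Finset.card_le_card_of_injOn Prod.snd ?_ ?_
      · intro s hs
        rw [Finset.mem_coe, Finset.mem_Ioc]
        exact (hmem s (hT hs)).2.1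
      · intro s hs s' hs' h
        exact Prod.ext (hinj s hs s' hs' h) h
    rwa [Int.card_Ioc, show (-1 + (Z : ℤ) - -1).toNat = Z by omega] at h1
  -- fixed second coordinate
  have hthird : ∀ z : ℤ, (S.filter (fun s => s.2 = z)).card ≤ Z + 2 := by
    intro z
    have h1 := sol_z a β c (-E) (13 * H) (-1) H Z hβ z
    rw [← hS] at h1
    have h2 : H * Nat.gcd a β ≤ β * (Z + 1) := by
      calc H * Nat.gcd a β ≤ H * a := Nat.mul_le_mul_left H (Nat.gcd_le_left β ha)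
        _ = a * H := mul_comm _ _
        _ ≤ β * (Z + 1) := Zl_lt ha haβ hcβ
    have h3 : (S.filter (fun s => s.2 = z)).card * β ≤ (Z + 2) * β := by nlinarith
    exact Nat.le_of_mul_le_mul_right h3 hβ
  set S' := S.filter (fun s => V s 1 ≠ V s 0 ∧ V s 1 ≠ V s 2) with hS'
  have hb2 : (S.filter (fun s => V s 1 = V s 2)).card ≤ Z := by
    refine hsecond _ (Finset.filter_subset _ _) ?_
    intro s hs s' hs' h
    rw [Finset.mem_filter] at hs hs'
    have k1 := heq s hs.1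
    have k2 := heq s' hs'.1
    have k3 : V s 2 = V s' 2 := by rw [e2, e2, h]
    rw [hs.2] at k1
    rw [hs'.2, ← k3] at k2
    have k4 : (a : ℤ) * V s 0 = a * V s' 0 := by linarith
    exact inj0 s s' (mul_left_cancel₀ ha'.ne' k4)
  have hb0 : (S.filter (fun s => V s 1 = V s 0)).card ≤ Z + 2 := by
    by_cases hab : a = β
    · -- all solutions have the same second coordinate
      by_cases hemp : (S.filter (fun s => V s 1 = V s 0)) = ∅
      · rw [hemp]; simp
      · obtain ⟨s₁, hs₁⟩ := Finset.nonempty_of_ne_empty hemp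
        refine le_trans (Finset.card_le_card ?_) (hthird s₁.2)
        intro s hs
        rw [Finset.mem_filter] at hs hs₁ ⊢
        refine ⟨hs.1, inj2 s s₁ ?_⟩
        have k1 := heq s hs.1
        have k2 := heq s₁ hs₁.1
        rw [hs.2, hab] at k1
        rw [hs₁.2, hab] at k2
        have k4 : c * V s 2 = c * V s₁ 2 := by linarith
        exact mul_left_cancel₀ hc k4
    · refine (hsecond _ (Finset.filter_subset _ _) ?_).trans (by omega)
      intro s hs s' hs' h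
      rw [Finset.mem_filter] at hs hs'
      have k1 := heq s hs.1
      have k2 := heq s' hs'.1
      have k3 : V s 2 = V s' 2 := by rw [e2, e2, h]
      rw [hs.2] at k1
      rw [hs'.2, ← k3] at k2
      have k4 : ((a : ℤ) - β) * V s 0 = (a - β) * V s' 0 := by linarith
      have k5 : (a : ℤ) - β ≠ 0 := by
        intro h0
        apply hab
        have : (a : ℤ) = β := by linarith
        exact_mod_cast this
      exact inj0 s s' (mul_left_cancel₀ k5 k4)
  have hcardS : S.card ≤ S'.card + (Z + (Z + 2)) := by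
    have h1 : S ⊆ S' ∪ (S.filter (fun s => V s 1 = V s 2) ∪ S.filter (fun s => V s 1 = V s 0)) := by
      intro s hs
      rw [Finset.mem_union, Finset.mem_union, hS', Finset.mem_filter, Finset.mem_filter, Finset.mem_filter]
      by_cases k1 : V s 1 = V s 2
      · right; left; exact ⟨hs, k1⟩
      · by_cases k2 : V s 1 = V s 0
        · right; right; exact ⟨hs, k2⟩
        · left; exact ⟨hs, k2, k1⟩
    have h2 := (Finset.card_le_card h1).trans (Finset.card_union_le _ _)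
    have h3 := Finset.card_union_le (S.filter (fun s => V s 1 = V s 2)) (S.filter (fun s => V s 1 = V s 0))
    omega
  -- the vectors of natural numbers
  set f : ℤ × ℤ → Fin 3 → ℕ := fun s i => (V s i).toNat with hf
  have hpos : ∀ s ∈ S, ∀ i, 1 ≤ V s i ∧ V s i ≤ 32 * (P * H) := by
    intro s hs i
    obtain ⟨⟨h1, h2⟩, h3, ⟨h5, h6⟩⟩ := hsz s hs
    fin_cases i
    · exact ⟨by simp only [Fin.zero_eta]; linarith, by simp only [Fin.zero_eta]; linarith⟩
    · exact h3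
    · exact ⟨h5, by
        show V s 2 ≤ _
        linarith⟩
  have hcast : ∀ s ∈ S, ∀ i, ((f s i : ℕ) : ℤ) = V s i := by
    intro s hs i
    have := (hpos s hs i).1
    exact Int.toNat_of_nonneg (by linarith)
  have hSS : S' ⊆ S := Finset.filter_subset _ _
  have hfinj : Set.InjOn f (S' : Set (ℤ × ℤ)) := by
    intro s hs s' hs' h
    have h0 : V s 0 = V s' 0 := by
      rw [← hcast s (hSS hs) 0, ← hcast s' (hSS hs') 0, h]
    have h2 : V s 2 = V s' 2 := by
      rw [← hcast s (hSS hs) 2, ← hcast s' (hSS hs') 2, h]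
    exact Prod.ext (inj0 s s' h0) (inj2 s s' h2)
  refine ⟨S'.image f, ?_, ?_, ?_, hZ0⟩
  · intro v hv
    rw [Finset.mem_image] at hv
    obtain ⟨s, hs, rfl⟩ := hv
    have hsS := hSS hs
    rw [hS', Finset.mem_filter] at hs
    obtain ⟨-, n1, n2⟩ := hs
    have hc0 := hcast s hsS
    refine ⟨?_, ?_, ?_, ?_, ?_, ?_⟩
    · intro i
      obtain ⟨k1, k2⟩ := hpos s hsS i
      rw [← hc0 i] at k1 k2
      constructor
      · exact_mod_cast k1
      · exact_mod_cast k2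
    · obtain ⟨⟨h1, h2⟩, h3, ⟨h5, h6⟩⟩ := hsz s hsS
      have m02 : V s 0 ≠ V s 2 := by
        intro h
        rw [h] at h1
        linarith
      intro i j hij
      have hij' : V s i = V s j := by
        rw [← hc0 i, ← hc0 j, hij]
      fin_cases i <;> fin_cases j
      · rfl
      · exact absurd hij'.symm n1
      · exact absurd hij' m02
      · exact absurd hij' n1
      · rfl
      · exact absurd hij' n2
      · exact absurd hij'.symm m02
      · exact absurd hij'.symm n2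
      · rfl
    · rw [hc0 0, hc0 1, hc0 2]
      exact heq s hsS
    · rw [← Int.natCast_modEq_iff, hc0 0, e0]
      exact Int.modEq_iff_dvd.2 ⟨-s.1, by ring⟩
    · rw [← Int.natCast_modEq_iff, hc0 1, e1]
      exact Int.modEq_iff_dvd.2 ⟨-((a * s.1 + c * s.2 + E) / β), by ring⟩
    · rw [← Int.natCast_modEq_iff, hc0 2, e2]
      exact Int.modEq_iff_dvd.2 ⟨-s.2, by ring⟩
  · intro t
    have hsub : (S'.image f).filter (fun v => t ∈ Finset.univ.image v) ⊆
        (S.filter (fun s => V s 0 = t) ∪ (S.filter (fun s => V s 1 = t) ∪ S.filter (fun s => V s 2 = t))).image f := by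
      intro v hv
      rw [Finset.mem_filter, Finset.mem_image] at hv
      obtain ⟨⟨s, hs, rfl⟩, ht⟩ := hv
      rw [Finset.mem_image] at ht
      obtain ⟨i, -, hi⟩ := ht
      have hi' : V s i = t := by
        rw [← hcast s (hSS hs) i, hi]
      rw [Finset.mem_image]
      refine ⟨s, ?_, rfl⟩
      rw [Finset.mem_union, Finset.mem_union, Finset.mem_filter, Finset.mem_filter, Finset.mem_filter]
      fin_cases i
      · left; exact ⟨hSS hs, hi'⟩
      · right; left; exact ⟨hSS hs, hi'⟩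
      · right; right; exact ⟨hSS hs, hi'⟩
    have k0 : (S.filter (fun s => V s 0 = t)).card ≤ Z := by
      refine hsecond _ (Finset.filter_subset _ _) ?_
      intro s hs s' hs' h
      rw [Finset.mem_filter] at hs hs'
      exact inj0 s s' (hs.2.trans hs'.2.symm)
    have k1 : (S.filter (fun s => V s 1 = t)).card ≤ Z := by
      refine hsecond _ (Finset.filter_subset _ _) ?_
      intro s hs s' hs' h
      rw [Finset.mem_filter] at hs hs'
      have k1 := heq s hs.1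
      have k2 := heq s' hs'.1
      have k3 : V s 2 = V s' 2 := by rw [e2, e2, h]
      rw [hs.2] at k1
      rw [hs'.2, ← k3] at k2
      have k4 : (a : ℤ) * V s 0 = a * V s' 0 := by linarith
      exact inj0 s s' (mul_left_cancel₀ ha'.ne' k4)
    have k2 : (S.filter (fun s => V s 2 = t)).card ≤ Z + 2 := by
      by_cases hemp : (S.filter (fun s => V s 2 = t)) = ∅
      · rw [hemp]; simp
      · obtain ⟨s₁, hs₁⟩ := Finset.nonempty_of_ne_empty hemp
        refine le_trans (Finset.card_le_card ?_) (hthird s₁.2)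
        intro s hs
        rw [Finset.mem_filter] at hs hs₁ ⊢
        exact ⟨hs.1, inj2 s s₁ (hs.2.trans hs₁.2.symm)⟩
    have h2 := (Finset.card_le_card hsub).trans Finset.card_image_le
    have h3 := Finset.card_union_le (S.filter (fun s => V s 0 = t)) (S.filter (fun s => V s 1 = t) ∪ S.filter (fun s => V s 2 = t))
    have h4 := Finset.card_union_le (S.filter (fun s => V s 1 = t)) (S.filter (fun s => V s 2 = t))
    omega
  · rw [Finset.card_image_of_injOn hfinj]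
    have k1 : 8 * β * S.card ≤ 8 * β * (S'.card + 4 * Z) := Nat.mul_le_mul_left _ (by omega)
    have k2 : 40 * β * Z ≤ H * Z := Nat.mul_le_mul_right Z hβH
    nlinarith

end

end Pool.Agent.N909.TF.Bak
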