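import Mathlib
import Pool.Agent.N909.TF.Bak1

set_option autoImplicit false

/-! # Solutions of ternary linear equations: all admissible coefficients -/

open Finset

namespace Pool.Agent.N909.TF.Bak

/-- the conditions of Liu and Tsang on the coefficients and the right hand side -/
structure Adm (w : Fin 3 → ℤ) (d : ℤ) : Prop where
  ne : ∀ i, w i ≠ 0
  npos : ¬ ∀ i, 0 < w i
  nneg : ¬ ∀ i, w i < 0
  par : Even (w 0 + w 1 + w 2 - d)
  h1 : ∀ l : ℕ, l.Prime → ¬ ∀ i, (l : ℤ) ∣ w i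
  h2 : ∀ l : ℕ, l.Prime → ∀ i j, i ≠ j → ¬ ((l : ℤ) ∣ d ∧ (l : ℤ) ∣ w i ∧ (l : ℤ) ∣ w j)

/-- the family of solutions -/
def Fml (w : Fin 3 → ℤ) (d : ℤ) (Q H m : ℕ) (𝒥 : Finset (Fin 3 → ℕ)) (D : ℕ) : Prop :=
  1 ≤ D ∧ (∀ v ∈ 𝒥, (∀ i, 1 ≤ v i ∧ v i ≤ 32 * ((∏ l ∈ Q.primeFactors, l) * H) ∧ Nat.Coprime (v i) Q) ∧
    Function.Injective v ∧ ∑ i, w i * v i = d) ∧
  (∀ t, (𝒥.filter (fun v => t ∈ Finset.univ.image v)).card ≤ D) ∧ H * D ≤ 40 * m * 𝒥.card

lemma perm_exists : ∀ i₀ i₁ : Fin 3, i₀ ≠ i₁ → ∃ σ : Equiv.Perm (Fin 3), σ 0 = i₀ ∧ σ 1 = i₁ := by decide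

/-- the normalised case -/
lemma normal {w : Fin 3 → ℤ} {d : ℤ} (hw : Adm w d) (h0 : 0 < w 0) (h1 : w 1 < 0)
    (hm0 : (w 0).natAbs ≤ (w 1).natAbs) (hm2 : (w 2).natAbs ≤ (w 1).natAbs) (Q : ℕ) (hQ : 0 < Q) (H : ℕ)
    (hH : 40 * (w 1).natAbs ≤ H) (hd : |d| ≤ 11 * (∏ l ∈ Q.primeFactors, l : ℕ) * H) :
    ∃ 𝒥 D, Fml w d Q H (w 1).natAbs 𝒥 D := by
  classical
  set P := ∏ l ∈ Q.primeFactors, l with hP
  have hP0 : 0 < P := Finset.prod_pos fun l hl => (Nat.prime_of_mem_primeFactors hl).pos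
  obtain ⟨x₀, y₀, z₀, hx, hy, hz, hE, cx, cy, cz⟩ := Pool.Agent.N395.TF.local3 Q hQ (w 0) (w 1) (w 2) d hw.par
    (fun l hl h => hw.h1 l hl (by
      intro i
      fin_cases i
      · exact h.1
      · exact h.2.1
      · exact h.2.2))
    (fun l hl => hw.h2 l hl 0 1 (by decide)) (fun l hl => hw.h2 l hl 0 2 (by decide))
    (fun l hl => hw.h2 l hl 1 2 (by decide))
  rw [← hP] at hE cx cy cz hx hy hz
  obtain ⟨E, hE⟩ := hE
  set a := (w 0).natAbs with ha
  set β := (w 1).natAbs with hβ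
  have ea : (a : ℤ) = w 0 := by omega
  have eβ : (β : ℤ) = -w 1 := by omega
  have hg : Int.gcd (Nat.gcd a β) (w 2) = 1 := by
    by_contra hcon
    obtain ⟨l, hl, hdvd⟩ := Nat.exists_prime_and_dvd hcon
    apply hw.h1 l hl
    have k1 : (l : ℤ) ∣ (Nat.gcd a β : ℤ) := (Int.natCast_dvd_natCast.2 hdvd).trans (Int.gcd_dvd_left _ _)
    have k2 : (l : ℤ) ∣ w 2 := (Int.natCast_dvd_natCast.2 hdvd).trans (Int.gcd_dvd_right _ _)
    rw [Int.natCast_dvd_natCast] at k1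
    intro i
    fin_cases i
    · show (l : ℤ) ∣ w 0
      rw [← ea, Int.natCast_dvd_natCast]
      exact k1.trans (Nat.gcd_dvd_left _ _)
    · show (l : ℤ) ∣ w 1
      have : (l : ℤ) ∣ (β : ℤ) := by
        rw [Int.natCast_dvd_natCast]
        exact k1.trans (Nat.gcd_dvd_right _ _)
      rw [eβ] at this
      exact (dvd_neg.1 this)
    · exact k2
  obtain ⟨𝒥, c1, c2, c3, c4⟩ := core (a := a) (β := β) (c := w 2) (d := d) (E := E) (P := P) (x₀ := x₀) (y₀ := y₀)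
    (z₀ := z₀) (H := H) (by omega) hm0 (hw.ne 2) hm2 hg hP0 hx hz (by
      rw [← hE, ea, eβ]
      ring) hH hd
  refine ⟨𝒥, 5 * Zl a H (w 2), by omega, ?_, c2, ?_⟩
  · intro v hv
    obtain ⟨d1, d2, d3, d4, d5, d6⟩ := c1 v hv
    refine ⟨fun i => ⟨(d1 i).1, (d1 i).2, ?_⟩, d2, ?_⟩
    · fin_cases i
      · exact cx _ d4
      · exact cy _ d5
      · exact cz _ d6
    · rw [Fin.sum_univ_three, ← d3, ea, eβ]
      ring
  · nlinarith

/-- **all admissible coefficients** -/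
theorem general {w : Fin 3 → ℤ} {d : ℤ} (hw : Adm w d) (m : ℕ) (hm : ∀ i, (w i).natAbs ≤ m) (Q : ℕ) (hQ : 0 < Q) (H : ℕ)
    (hH : 40 * m ≤ H) (hd : |d| ≤ 11 * (∏ l ∈ Q.primeFactors, l : ℕ) * H) :
    ∃ 𝒥 D, Fml w d Q H m 𝒥 D := by
  classical
  obtain ⟨i₁, -, hi₁⟩ := Finset.exists_max_image Finset.univ (fun i => (w i).natAbs) Finset.univ_nonempty
  -- the sign
  obtain ⟨s, hs, hs1⟩ : ∃ s : ℤ, (s = 1 ∨ s = -1) ∧ s * w i₁ < 0 := by
    rcases lt_or_gt_of_ne (hw.ne i₁) with h | h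
    · exact ⟨1, Or.inl rfl, by linarith⟩
    · exact ⟨-1, Or.inr rfl, by linarith⟩
  obtain ⟨i₀, hi₀⟩ : ∃ i₀, 0 < s * w i₀ := by
    rcases hs with rfl | rfl
    · by_contra hcon
      push Not at hcon
      apply hw.nneg
      intro i
      have := hcon i
      have := hw.ne i
      omega
    · by_contra hcon
      push Not at hcon
      apply hw.npos
      intro i
      have := hcon i
      have := hw.ne i
      omega
  have hne : i₀ ≠ i₁ := by
    rintro rfl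
    linarith
  obtain ⟨σ, hσ0, hσ1⟩ := perm_exists i₀ i₁ hne
  set w' : Fin 3 → ℤ := fun i => s * w (σ i) with hw'
  have habs : ∀ i, (w' i).natAbs = (w (σ i)).natAbs := by
    intro i
    rcases hs with h | h <;> simp [hw', h]
  have hss : s * s = 1 := by rcases hs with rfl | rfl <;> norm_num
  have hdvd : ∀ (l : ℤ) (i), l ∣ w' i ↔ l ∣ w (σ i) := by
    intro l i
    rcases hs with h | h <;> simp [hw', h]
  have hdvd' : ∀ l : ℤ, l ∣ s * d ↔ l ∣ d := by
    intro l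
    rcases hs with h | h <;> simp [h]
  have hsum : w' 0 + w' 1 + w' 2 = s * (w 0 + w 1 + w 2) := by
    have h1 : ∑ i, w (σ i) = ∑ i, w i := Equiv.sum_comp σ w
    rw [Fin.sum_univ_three, Fin.sum_univ_three] at h1
    simp only [hw']
    rw [← h1]
    ring
  have hadm : Adm w' (s * d) := by
    refine ⟨fun i => ?_, fun h => ?_, fun h => ?_, ?_, fun l hl h => ?_, fun l hl i j hij h => ?_⟩
    · rcases hs with h | h <;> simp [hw', h, hw.ne]
    · have := h 1
      simp only [hw', hσ1] at this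
      linarith
    · have := h 0
      simp only [hw', hσ0] at this
      linarith
    · rw [hsum, ← mul_sub]
      exact hw.par.mul_left s
    · apply hw.h1 l hl
      intro i
      have := (hdvd l (σ.symm i)).1 (h _)
      rwa [Equiv.apply_symm_apply] at this
    · apply hw.h2 l hl (σ i) (σ j) (fun h' => hij (σ.injective h'))
      exact ⟨(hdvd' l).1 h.1, (hdvd l i).1 h.2.1, (hdvd l j).1 h.2.2⟩
  have hmax : ∀ i, (w' i).natAbs ≤ (w' 1).natAbs := by
    intro i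
    rw [habs, habs, hσ1]
    exact hi₁ _ (Finset.mem_univ _)
  have hm1 : (w' 1).natAbs ≤ m := by
    rw [habs]
    exact hm _
  obtain ⟨𝒥, D, f1, f2, f3, f4⟩ := normal hadm (by simp only [hw', hσ0]; exact hi₀) (by simp only [hw', hσ1]; exact hs1)
    (hmax 0) (hmax 2) Q hQ H (by omega) (by
      rcases hs with h | h
      · rw [h, one_mul]; exact hd
      · rw [h, neg_one_mul, abs_neg]; exact hd)
  have hinj : Function.Injective (fun (v : Fin 3 → ℕ) (i : Fin 3) => v (σ.symm i)) := by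
    intro v v' h
    funext i
    have := congrFun h (σ i)
    simpa using this
  refine ⟨𝒥.image (fun v i => v (σ.symm i)), D, f1, ?_, ?_, ?_⟩
  · intro v hv
    rw [Finset.mem_image] at hv
    obtain ⟨u, hu, rfl⟩ := hv
    obtain ⟨g1, g2, g3⟩ := f2 u hu
    refine ⟨fun i => g1 _, fun i j h => ?_, ?_⟩
    · exact σ.symm.injective (g2 h)
    · have k1 : ∑ i, w i * (u (σ.symm i) : ℤ) = ∑ i, w (σ i) * (u i : ℤ) := by
        rw [← Equiv.sum_comp σ]
        simp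
      have k2 : ∑ i, w' i * (u i : ℤ) = s * ∑ i, w (σ i) * (u i : ℤ) := by
        rw [Finset.mul_sum]
        refine Finset.sum_congr rfl fun i _ => ?_
        simp only [hw']
        ring
      rw [k1]
      rw [k2] at g3
      have k3 : s * (s * ∑ i, w (σ i) * (u i : ℤ)) = s * (s * d) := by rw [g3]
      rw [← mul_assoc, ← mul_assoc, hss, one_mul, one_mul] at k3
      exact k3
  · intro t
    refine le_trans ?_ (f3 t)
    rw [← Finset.card_image_of_injective (𝒥.filter (fun v => t ∈ Finset.univ.image v)) hinj]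
    apply Finset.card_le_card
    intro v hv
    rw [Finset.mem_filter, Finset.mem_image] at hv
    obtain ⟨⟨u, hu, rfl⟩, ht⟩ := hv
    rw [Finset.mem_image]
    refine ⟨u, ?_, rfl⟩
    rw [Finset.mem_filter]
    refine ⟨hu, ?_⟩
    rw [Finset.mem_image] at ht ⊢
    obtain ⟨i, -, hi⟩ := ht
    exact ⟨σ.symm i, Finset.mem_univ _, hi⟩
  · rw [Finset.card_image_of_injective _ hinj]
    refine f4.trans ?_
    exact Nat.mul_le_mul_right _ (Nat.mul_le_mul_left _ hm1)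

end Pool.Agent.N909.TF.Bak
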