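import Mathlib
import Pool.Agent.N909.TF.Idx

set_option autoImplicit false

/-! # Small lemmas on limits -/

open MeasureTheory Filter Set
open scoped ENNReal Topology

namespace Pool.Agent.N909.TF

/-- transfer of the asymptotics -/
lemma ratio_tendsto {F : Filter ℕ} {R x : ℕ → ℝ} (h : ∀ δ : ℝ, 0 < δ → ∀ᶠ n in F, |R n - x n| ≤ δ * x n)
    {y : ℕ → ℝ} {L : ℝ} (hxy : Tendsto (fun n => x n / y n) F (𝓝 L)) :
    Tendsto (fun n => R n / y n) F (𝓝 L) := by
  have h1 : Tendsto (fun n => R n / y n - x n / y n) F (𝓝 0) := by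
    rw [Metric.tendsto_nhds]
    intro ε hε
    have h2 := (hxy.abs).eventually (gt_mem_nhds (show |L| < |L| + 1 by linarith))
    have hpos : 0 < |L| + 1 := by positivity
    filter_upwards [h (ε / (2 * (|L| + 1))) (by positivity), h2] with n g1 g2
    rw [dist_zero_right, Real.norm_eq_abs, ← sub_div, abs_div]
    have hx : 0 ≤ x n := by
      by_contra hcon
      push Not at hcon
      have := abs_nonneg (R n - x n)
      have h3 : 0 < ε / (2 * (|L| + 1)) := by positivity
      nlinarith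
    calc |R n - x n| / |y n| ≤ ε / (2 * (|L| + 1)) * x n / |y n| := by gcongr
      _ = ε / (2 * (|L| + 1)) * |x n / y n| := by rw [abs_div, abs_of_nonneg hx]; ring
      _ ≤ ε / (2 * (|L| + 1)) * (|L| + 1) := by gcongr
      _ = ε / 2 := by field_simp
      _ < ε := by linarith
  have h3 := h1.add hxy
  rw [zero_add] at h3
  exact h3.congr fun n => by ring

/-- powers beat smaller powers -/
lemma pow_beat (a b C : ℝ) (hab : a < b) (hb : 0 < b) : ∀ᶠ n : ℕ in atTop, C * (n : ℝ) ^ a + C ≤ (n : ℝ) ^ b := by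
  have h1 : Tendsto (fun n : ℕ => (n : ℝ) ^ (b - a)) atTop atTop :=
    (tendsto_rpow_atTop (by linarith)).comp tendsto_natCast_atTop_atTop
  have h2 : Tendsto (fun n : ℕ => (n : ℝ) ^ b) atTop atTop :=
    (tendsto_rpow_atTop hb).comp tendsto_natCast_atTop_atTop
  filter_upwards [h1.eventually_ge_atTop (2 * C), h2.eventually_ge_atTop (2 * C), eventually_gt_atTop 0] with n g1 g2 g3
  have hn : (0 : ℝ) < n := by exact_mod_cast g3
  have e1 : (n : ℝ) ^ b = (n : ℝ) ^ (b - a) * (n : ℝ) ^ a := by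
    rw [← Real.rpow_add hn]
    congr 1
    ring
  have hp : 0 < (n : ℝ) ^ a := Real.rpow_pos_of_pos hn _
  have e2 : 2 * C * (n : ℝ) ^ a ≤ (n : ℝ) ^ b := by
    rw [e1]
    exact mul_le_mul_of_nonneg_right g1 hp.le
  linarith

/-- properties of all large integers hold above `n ^ e` -/
lemma ev_ge {P : ℕ → Prop} (h : ∀ᶠ k in atTop, P k) (e : ℝ) (he : 0 < e) :
    ∀ᶠ n : ℕ in atTop, ∀ k : ℕ, (n : ℝ) ^ e ≤ k → P k := by
  obtain ⟨K, hK⟩ := eventually_atTop.1 h
  have h1 : Tendsto (fun n : ℕ => (n : ℝ) ^ e) atTop atTop :=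
    (tendsto_rpow_atTop he).comp tendsto_natCast_atTop_atTop
  filter_upwards [h1.eventually_ge_atTop (K : ℝ)] with n g k hk
  apply hK
  exact_mod_cast g.trans hk

/-- the small error terms vanish -/
lemma err_tendsto (C a : ℝ) (ha : a < 1) (j : ℕ) :
    Tendsto (fun n : ℕ => (C * (n : ℝ) ^ a + C) * Real.log n ^ j / n) atTop (𝓝 0) := by
  have h1 : ∀ s : ℝ, 0 < s → Tendsto (fun n : ℕ => Real.log n ^ j / (n : ℝ) ^ s) atTop (𝓝 0) := by
    intro s hs
    have h1 : Tendsto (fun x : ℝ => Real.log x ^ (j : ℝ) / x ^ s) atTop (𝓝 0) :=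
      (isLittleO_log_rpow_rpow_atTop (j : ℝ) hs).tendsto_div_nhds_zero
    refine (h1.comp tendsto_natCast_atTop_atTop).congr fun n => ?_
    simp only [Function.comp_apply]
    rw [Real.rpow_natCast]
  have h2 := ((h1 (1 - a) (by linarith)).const_mul C).add ((h1 1 one_pos).const_mul C)
  rw [mul_zero, add_zero] at h2
  refine h2.congr' ?_
  filter_upwards [eventually_gt_atTop 0] with n hn
  have hn' : (0 : ℝ) < n := by exact_mod_cast hn
  rw [Real.rpow_sub hn', Real.rpow_one]
  have hp : 0 < (n : ℝ) ^ a := Real.rpow_pos_of_pos hn' _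
  field_simp

end Pool.Agent.N909.TF
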