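import Mathlib
import Pool.Agent.N909.TF.Bak2
import Pool.Agent.N909.TF.Lim

set_option autoImplicit false

/-! # Ternary linear equations in sieved sequential models -/

open MeasureTheory Filter Set
open scoped ENNReal Topology

namespace Pool.Agent.N909.TF.Bak

open Pool.Agent.R528.RM

/-- integers from natural numbers -/
def iz (e : ℕ) : ℤ := if e % 2 = 0 then (e / 2 : ℕ) else -((e + 1) / 2 : ℕ)

/-- the code of an integer -/
def zi (z : ℤ) : ℕ := if 0 ≤ z then 2 * z.natAbs else 2 * z.natAbs - 1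

lemma iz_zi (z : ℤ) : iz (zi z) = z := by
  unfold iz zi
  split_ifs with h1 h2 h2 <;> omega

lemma zi_le (z : ℤ) : zi z ≤ 2 * z.natAbs := by
  unfold zi
  split_ifs <;> omega

/-- the bound -/
def cB (n : ℕ) : ℕ := n.unpair.1

/-- the coefficients -/
def cw (n : ℕ) : Fin 3 → ℤ :=
  ![iz n.unpair.2.unpair.1, iz n.unpair.2.unpair.2.unpair.1, iz n.unpair.2.unpair.2.unpair.2.unpair.1]

/-- the right hand side -/
def cd (n : ℕ) : ℤ := iz n.unpair.2.unpair.2.unpair.2.unpair.2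

/-- the code -/
def code (B : ℕ) (w : Fin 3 → ℤ) (d : ℤ) : ℕ :=
  Nat.pair B (Nat.pair (zi (w 0)) (Nat.pair (zi (w 1)) (Nat.pair (zi (w 2)) (zi d))))

lemma code_B (B : ℕ) (w : Fin 3 → ℤ) (d : ℤ) : cB (code B w d) = B := by
  unfold cB code
  rw [Nat.unpair_pair]

lemma code_w (B : ℕ) (w : Fin 3 → ℤ) (d : ℤ) : cw (code B w d) = w := by
  unfold cw code
  simp only [Nat.unpair_pair, iz_zi]
  funext i
  fin_cases i <;> rfl

lemma code_d (B : ℕ) (w : Fin 3 → ℤ) (d : ℤ) : cd (code B w d) = d := by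
  unfold cd code
  simp only [Nat.unpair_pair, iz_zi]

lemma code_ge (B : ℕ) (w : Fin 3 → ℤ) (d : ℤ) : B ≤ code B w d := Nat.left_le_pair _ _

lemma pair_step {x y C k : ℕ} (hx : x ≤ C) (hy : y + 1 ≤ C ^ k) (hk : 1 ≤ k) (hC : 2 ≤ C) (hx' : x + 1 ≤ C) :
    Nat.pair x y + 1 ≤ C ^ (2 * k) := by
  have h1 := Nat.pair_lt_max_add_one_sq x y
  have h2 : max x y + 1 ≤ C ^ k := by
    rcases le_total x y with h | h
    · rw [max_eq_right h]; exact hy
    · rw [max_eq_left h]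
      exact hx'.trans (Nat.le_self_pow (by omega) C)
  calc Nat.pair x y + 1 ≤ (max x y + 1) ^ 2 := h1
    _ ≤ (C ^ k) ^ 2 := Nat.pow_le_pow_left h2 2
    _ = C ^ (2 * k) := by rw [← pow_mul, mul_comm]

/-- the size of the code -/
lemma code_le (n : ℕ) (h : ∀ i, (cw n i).natAbs ≤ cB n) (hd : (cd n).natAbs ≤ cB n) : n ≤ (2 * cB n + 3) ^ 16 := by
  set B := cB n with hB
  set C := 2 * B + 3 with hC
  -- the components are bounded
  have hiz : ∀ e, (iz e).natAbs ≤ B → e ≤ 2 * B := by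
    intro e
    unfold iz
    split_ifs <;> omega
  have h0 : n.unpair.2.unpair.1 ≤ 2 * B := hiz _ (h 0)
  have h1 : n.unpair.2.unpair.2.unpair.1 ≤ 2 * B := hiz _ (h 1)
  have h2 : n.unpair.2.unpair.2.unpair.2.unpair.1 ≤ 2 * B := hiz _ (h 2)
  have h3 : n.unpair.2.unpair.2.unpair.2.unpair.2 ≤ 2 * B := hiz _ hd
  have k3 : n.unpair.2.unpair.2.unpair.2 + 1 ≤ C ^ 2 := by
    have := pair_step (x := n.unpair.2.unpair.2.unpair.2.unpair.1) (y := n.unpair.2.unpair.2.unpair.2.unpair.2)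
      (C := C) (k := 1) (by omega) (by rw [pow_one]; omega) le_rfl (by omega) (by omega)
    rwa [Nat.pair_unpair] at this
  have k2 : n.unpair.2.unpair.2 + 1 ≤ C ^ 4 := by
    have := pair_step (x := n.unpair.2.unpair.2.unpair.1) (y := n.unpair.2.unpair.2.unpair.2)
      (C := C) (k := 2) (by omega) k3 (by norm_num) (by omega) (by omega)
    rwa [Nat.pair_unpair] at this
  have k1 : n.unpair.2 + 1 ≤ C ^ 8 := by
    have := pair_step (x := n.unpair.2.unpair.1) (y := n.unpair.2.unpair.2)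
      (C := C) (k := 4) (by omega) k2 (by norm_num) (by omega) (by omega)
    rwa [Nat.pair_unpair] at this
  have k0 : n + 1 ≤ C ^ 16 := by
    have := pair_step (x := n.unpair.1) (y := n.unpair.2)
      (C := C) (k := 8) (by
        show B ≤ C
        omega) k1 (by norm_num) (by omega) (by
        show B + 1 ≤ C
        omega)
    rwa [Nat.pair_unpair] at this
  omega

/-- the conditions -/
def Ok (e : ℝ) (n : ℕ) : Prop :=
  Adm (cw n) (cd n) ∧ (∀ i, ((cw n i).natAbs : ℝ) ≤ (cB n : ℝ) ^ (1 - e)) ∧ 3 * |cd n| ≤ cB n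

lemma Ok_le {e : ℝ} (he : 0 < e) {n : ℕ} (h : Ok e n) (hB : 1 ≤ cB n) : n ≤ (2 * cB n + 3) ^ 16 := by
  have hB' : (1 : ℝ) ≤ cB n := by exact_mod_cast hB
  refine code_le n (fun i => ?_) ?_
  · have h1 := h.2.1 i
    have h2 : (cB n : ℝ) ^ (1 - e) ≤ cB n := by
      nth_rewrite 2 [← Real.rpow_one (cB n : ℝ)]
      exact Real.rpow_le_rpow_of_exponent_le hB' (by linarith)
    exact_mod_cast h1.trans h2
  · have h1 := h.2.2
    rw [Int.abs_eq_natAbs] at h1
    omega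

lemma Ok_pos {e : ℝ} (he : e < 1) {n : ℕ} (h : Ok e n) : 1 ≤ cB n := by
  by_contra hcon
  have h0 : cB n = 0 := by omega
  have h1 := h.2.1 0
  rw [h0, Nat.cast_zero, Real.zero_rpow (by linarith)] at h1
  have h2 := h.1.ne 0
  have h3 : 0 < (cw n 0).natAbs := Int.natAbs_pos.2 h2
  have h4 : (0 : ℝ) < (cw n 0).natAbs := by exact_mod_cast h3
  linarith

/-- along the codes of admissible data the bound tends to infinity -/
lemma cB_tendsto (e : ℝ) (he : 0 < e) (he1 : e < 1) : Tendsto cB (atTop ⊓ 𝓟 {n | Ok e n}) atTop := by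
  rw [tendsto_atTop]
  intro K
  rw [eventually_inf_principal]
  filter_upwards [eventually_gt_atTop ((2 * K + 3) ^ 16)] with n hn hok
  by_contra hcon
  push Not at hcon
  have h1 := Ok_le he hok (Ok_pos he1 hok)
  have h2 : (2 * cB n + 3) ^ 16 ≤ (2 * K + 3) ^ 16 := Nat.pow_le_pow_left (by omega) 16
  omega

/-- the parameters of the family -/
def hH (Q n : ℕ) : ℕ := cB n / (32 * ∏ l ∈ Q.primeFactors, l)

open Classical in
/-- the family of solutions -/
noncomputable def JJ (e : ℝ) (Q n : ℕ) : Finset (Fin 3 → ℕ) :=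
  if h : ∃ 𝒥 D, Fml (cw n) (cd n) Q (hH Q n) ⌊(cB n : ℝ) ^ (1 - e)⌋₊ 𝒥 D then h.choose else ∅

open Classical in
/-- the multiplicity -/
noncomputable def DD (e : ℝ) (Q n : ℕ) : ℕ :=
  if h : ∃ 𝒥 D, Fml (cw n) (cd n) Q (hH Q n) ⌊(cB n : ℝ) ^ (1 - e)⌋₊ 𝒥 D then h.choose_spec.choose else 1

lemma JD_spec (e : ℝ) (Q n : ℕ) (h : ∃ 𝒥 D, Fml (cw n) (cd n) Q (hH Q n) ⌊(cB n : ℝ) ^ (1 - e)⌋₊ 𝒥 D) :
    Fml (cw n) (cd n) Q (hH Q n) ⌊(cB n : ℝ) ^ (1 - e)⌋₊ (JJ e Q n) (DD e Q n) := by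
  classical
  unfold JJ DD
  rw [dif_pos h, dif_pos h]
  exact h.choose_spec.choose_spec

lemma JJ_mem (e : ℝ) (Q n : ℕ) : ∀ v ∈ JJ e Q n, (∀ i, 1 ≤ v i ∧ v i ≤ cB n ∧ Nat.Coprime (v i) Q) ∧
    Function.Injective v ∧ ∑ i, cw n i * v i = cd n := by
  classical
  intro v hv
  by_cases h : ∃ 𝒥 D, Fml (cw n) (cd n) Q (hH Q n) ⌊(cB n : ℝ) ^ (1 - e)⌋₊ 𝒥 D
  · obtain ⟨h1, h2, h3⟩ := (JD_spec e Q n h).2.1 v hv
    refine ⟨fun i => ⟨(h1 i).1, (h1 i).2.1.trans ?_, (h1 i).2.2⟩, h2, h3⟩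
    unfold hH
    calc 32 * ((∏ l ∈ Q.primeFactors, l) * (cB n / (32 * ∏ l ∈ Q.primeFactors, l)))
        = (32 * ∏ l ∈ Q.primeFactors, l) * (cB n / (32 * ∏ l ∈ Q.primeFactors, l)) := by ring
      _ ≤ cB n := Nat.mul_div_le _ _
  · unfold JJ at hv
    rw [dif_neg h] at hv
    simp at hv

lemma JJ_mult (e : ℝ) (Q n t : ℕ) :
    ((JJ e Q n).filter (fun v => t ∈ Finset.univ.image v)).card ≤ DD e Q n := by
  classical
  by_cases h : ∃ 𝒥 D, Fml (cw n) (cd n) Q (hH Q n) ⌊(cB n : ℝ) ^ (1 - e)⌋₊ 𝒥 D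
  · exact (JD_spec e Q n h).2.2.1 t
  · unfold JJ
    rw [dif_neg h]
    simp

/-- the family is large -/
lemma JJ_big (e : ℝ) (he : 0 < e) (he1 : e < 1) (Q : ℕ) (hQ : 0 < Q) : ∃ κ : ℝ, 0 < κ ∧
    ∀ᶠ n in atTop ⊓ 𝓟 {n | Ok e n}, 1 ≤ DD e Q n ∧ κ * (cB n : ℝ) ^ e * DD e Q n ≤ (JJ e Q n).card := by
  classical
  set P := ∏ l ∈ Q.primeFactors, l with hP
  have hP0 : 0 < P := Finset.prod_pos fun l hl => (Nat.prime_of_mem_primeFactors hl).pos
  have hP' : (1 : ℝ) ≤ P := by exact_mod_cast hP0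
  refine ⟨1 / (40 * 33 * P), by positivity, ?_⟩
  have ht := cB_tendsto e he he1
  have h1 := ht.eventually (pow_beat (1 - e) 1 (33 * P * 40 + 33 * P * 32) (by linarith) one_pos)
  filter_upwards [h1, ht.eventually_ge_atTop 1, mem_inf_of_right (mem_principal_self {n | Ok e n})] with n g1 g2 g3
  set B := cB n with hB
  have hB' : (1 : ℝ) ≤ B := by exact_mod_cast g2
  have hB0 : (0 : ℝ) < B := by linarith
  rw [Real.rpow_one] at g1
  set H := hH Q n with hHd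
  have hH1 : B < 32 * P * (H + 1) := by
    rw [hHd]
    unfold hH
    rw [← hP, ← hB]
    exact Nat.lt_mul_div_succ B (by positivity)
  have hH1' : (B : ℝ) < 32 * P * (H + 1) := by exact_mod_cast hH1
  have hpw : (1 : ℝ) ≤ (B : ℝ) ^ (1 - e) := Real.one_le_rpow hB' (by linarith)
  have hH32 : (32 : ℝ) ≤ H := by
    by_contra hcon
    push Not at hcon
    have : (H : ℝ) ≤ 31 := by
      have h2 : H < 32 := by exact_mod_cast hcon
      exact_mod_cast (by omega : H ≤ 31)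
    have k1 : (B : ℝ) < 32 * P * 32 := lt_of_lt_of_le hH1' (by
      apply mul_le_mul_of_nonneg_left _ (by positivity)
      linarith)
    nlinarith
  have hB33 : (B : ℝ) ≤ 33 * P * H := by nlinarith
  have hm40 : 40 * ((⌊(B : ℝ) ^ (1 - e)⌋₊ : ℕ) : ℝ) ≤ H := by
    have k1 : ((⌊(B : ℝ) ^ (1 - e)⌋₊ : ℕ) : ℝ) ≤ (B : ℝ) ^ (1 - e) := Nat.floor_le (by positivity)
    have k2 : 33 * P * (40 * (B : ℝ) ^ (1 - e)) ≤ 33 * P * H := by nlinarith
    have k3 : 40 * (B : ℝ) ^ (1 - e) ≤ H := le_of_mul_le_mul_left k2 (by positivity)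
    linarith
  have hm40' : 40 * ⌊(B : ℝ) ^ (1 - e)⌋₊ ≤ H := by exact_mod_cast hm40
  have hd : |cd n| ≤ 11 * (P : ℕ) * H := by
    have k1 := g3.2.2
    have k2 : (B : ℤ) ≤ 33 * P * H := by exact_mod_cast hB33
    linarith
  have hex := general g3.1 ⌊(B : ℝ) ^ (1 - e)⌋₊ (fun i => Nat.le_floor (g3.2.1 i)) Q hQ H hm40' hd
  obtain ⟨f1, f2, f3, f4⟩ := JD_spec e Q n hex
  refine ⟨f1, ?_⟩
  have f4' : (H : ℝ) * DD e Q n ≤ 40 * (⌊(B : ℝ) ^ (1 - e)⌋₊ : ℕ) * (JJ e Q n).card := by exact_mod_cast f4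
  have k1 : ((⌊(B : ℝ) ^ (1 - e)⌋₊ : ℕ) : ℝ) ≤ (B : ℝ) ^ (1 - e) := Nat.floor_le (by positivity)
  have e1 : (B : ℝ) ^ e * (B : ℝ) ^ (1 - e) = B := by
    rw [← Real.rpow_add hB0]
    norm_num
  have hpe : 0 < (B : ℝ) ^ e := Real.rpow_pos_of_pos hB0 _
  have hJ0 : (0 : ℝ) ≤ (JJ e Q n).card := Nat.cast_nonneg _
  have hD0 : (0 : ℝ) ≤ DD e Q n := Nat.cast_nonneg _
  have k2 : (B : ℝ) * DD e Q n ≤ 33 * P * (40 * (B : ℝ) ^ (1 - e) * (JJ e Q n).card) := by
    calc (B : ℝ) * DD e Q n ≤ 33 * P * H * DD e Q n := mul_le_mul_of_nonneg_right hB33 hD0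
      _ = 33 * P * (H * DD e Q n) := by ring
      _ ≤ 33 * P * (40 * (⌊(B : ℝ) ^ (1 - e)⌋₊ : ℕ) * (JJ e Q n).card) := by gcongr
      _ ≤ _ := by gcongr
  have hpe1 : 0 < (B : ℝ) ^ (1 - e) := Real.rpow_pos_of_pos hB0 _
  have k3 : (B : ℝ) ^ (1 - e) * ((B : ℝ) ^ e * DD e Q n) ≤ (B : ℝ) ^ (1 - e) * (40 * 33 * P * (JJ e Q n).card) := by
    calc (B : ℝ) ^ (1 - e) * ((B : ℝ) ^ e * DD e Q n) = ((B : ℝ) ^ e * (B : ℝ) ^ (1 - e)) * DD e Q n := by ring
      _ = (B : ℝ) * DD e Q n := by rw [e1]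
      _ ≤ _ := k2
      _ = _ := by ring
  have k4 := le_of_mul_le_mul_left k3 hpe1
  calc 1 / (40 * 33 * (P : ℝ)) * (B : ℝ) ^ e * DD e Q n = ((B : ℝ) ^ e * DD e Q n) / (40 * 33 * P) := by ring
    _ ≤ (40 * 33 * P * (JJ e Q n).card) / (40 * 33 * P) := by gcongr
    _ = (JJ e Q n).card := by field_simp

variable {Ω : Type} {m0 : MeasurableSpace Ω} {μ : Measure Ω} [IsProbabilityMeasure μ]
  {ℱ : Filtration ℕ m0} {A : ℕ → Set Ω}

omit [IsProbabilityMeasure μ] in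
lemma ex_of_Mx {ι : Type} (ρ : ℕ → ℝ) (J : Finset ι) (T : ι → Finset ℕ) {k : ℕ} (hk : ∀ j ∈ J, (T j).card = k) (ω : Ω)
    (h : 0 < Mx A ρ J T k ω) : ∃ j ∈ J, ∀ t ∈ T j, ω ∈ A t := by
  rw [Mx_top ρ J T hk ω] at h
  have h2 := Nat.cast_pos.1 h
  obtain ⟨v, hv⟩ := Finset.card_pos.1 h2
  simp only [Finset.mem_filter] at hv
  exact ⟨v, hv.1, hv.2⟩

omit [IsProbabilityMeasure μ] in
lemma log_code {n B : ℕ} (hn : 0 < n) (hB : 25 ≤ B) (h : n ≤ (2 * B + 3) ^ 16) : Real.log n ≤ 80 * Real.log B := by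
  have hB0 : 0 < B := by omega
  have h0 : 2 * B + 3 ≤ B ^ 5 := by
    have h1 : 2 * B + 3 ≤ B ^ 2 := by nlinarith
    exact h1.trans (Nat.pow_le_pow_right hB0 (by norm_num))
  have h2 : n ≤ B ^ 80 := by
    have h3 : (2 * B + 3) ^ 16 ≤ (B ^ 5) ^ 16 := Nat.pow_le_pow_left h0 16
    have h4 : (B ^ 5) ^ 16 = B ^ 80 := by rw [← pow_mul]
    exact (h.trans h3).trans (le_of_eq h4)
  have h5 : (n : ℝ) ≤ (B : ℝ) ^ 80 := by
    have := (Nat.cast_le (α := ℝ)).2 h2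
    rwa [Nat.cast_pow] at this
  have h6 : (0 : ℝ) < n := by exact_mod_cast hn
  calc Real.log n ≤ Real.log ((B : ℝ) ^ 80) := Real.log_le_log h6 h5
    _ = 80 * Real.log B := by
      rw [Real.log_pow, Nat.cast_ofNat]

/-- a lower bound for the profile -/
lemma rho_low (Q : ℕ) (hQ : 0 < Q) {t B : ℕ} (ht : 2 ≤ t) (htB : t ≤ B) (hB : 3 ≤ B) (hc : Nat.Coprime t Q) :
    1 / Real.log B ≤ rhoW Q t := by
  have h1 := cQ_ge Q hQ
  have ht' : (2 : ℝ) ≤ t := by exact_mod_cast ht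
  have hlt : 0 < Real.log t := Real.log_pos (by linarith)
  have hB' : (3 : ℝ) ≤ B := by exact_mod_cast hB
  have hlB : 1 ≤ Real.log B := by
    rw [Real.le_log_iff_exp_le (by linarith)]
    linarith [Real.exp_one_lt_d9]
  have hle : Real.log t ≤ Real.log B := Real.log_le_log (by linarith) (by exact_mod_cast htB)
  unfold rhoW
  rw [if_pos hc, le_min_iff]
  constructor
  · rw [div_le_one (by linarith)]
    exact hlB
  · calc 1 / Real.log B ≤ 1 / Real.log t := one_div_le_one_div_of_le hlt hle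
      _ ≤ _ := by gcongr

/-- **existence of chosen solutions** -/
theorem bak (hA : ∀ n, MeasurableSet[ℱ n] (A n)) (Q : ℕ) (hQ : 0 < Q)
    (hcop : ∀ n, ¬ Nat.Coprime n Q → A n = ∅)
    (hd : ∀ᵐ ω ∂μ, Tendsto (fun n : ℕ => dens μ ℱ A n ω * Real.log n)
      (atTop ⊓ 𝓟 {n : ℕ | Nat.Coprime (n + 1) Q}) (𝓝 ((Q : ℝ) / Nat.totient Q)))
    (e : ℝ) (he : 0 < e) (he1 : e < 1) :
    ∀ᵐ ω ∂μ, ∀ᶠ n in atTop ⊓ 𝓟 {n | Ok e n}, ∃ v : Fin 3 → ℕ, (∀ i, v i ≤ cB n ∧ (0 < v i ∧ ω ∈ A (v i))) ∧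
      Function.Injective v ∧ ∑ i, cw n i * v i = cd n := by
  classical
  obtain ⟨κ, hκ, hbig⟩ := JJ_big e he he1 Q hQ
  have ht := cB_tendsto e he he1
  set F := atTop ⊓ 𝓟 {n | Ok e n} with hF
  have hE : Tendsto (fun n => (∑ j ∈ JJ e Q n, ∏ t ∈ Finset.univ.image j, rhoW Q t) / DD e Q n / Real.log n) F atTop := by
    have h1 : Tendsto (fun n => κ / 2 / 80 * (cB n : ℝ) ^ e / Real.log (cB n) ^ 4) F atTop :=
      (pow_log (κ / 2 / 80) e (by positivity) he 4).comp ht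
    refine tendsto_atTop_mono' F ?_ h1
    have h2 := ht.eventually ((pow_beat 0 e (1 / κ) he he))
    filter_upwards [hbig, ht.eventually_ge_atTop 25, mem_inf_of_right (mem_principal_self {n | Ok e n}),
      (eventually_gt_atTop 1).filter_mono inf_le_left, h2] with n g1 g2 g3 g4 g5
    obtain ⟨g0, g1⟩ := g1
    set B := cB n with hB
    have hB' : (25 : ℝ) ≤ B := by exact_mod_cast g2
    have hB0 : (0 : ℝ) < B := by linarith
    have hlB : 1 ≤ Real.log B := by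
      rw [Real.le_log_iff_exp_le (by linarith)]
      linarith [Real.exp_one_lt_d9]
    have hn1 : (1 : ℝ) < n := by exact_mod_cast g4
    have hln : 0 < Real.log n := Real.log_pos hn1
    have hD0 : (1 : ℝ) ≤ DD e Q n := by exact_mod_cast g0
    -- the logarithm of the code
    have hlog : Real.log n ≤ 80 * Real.log B := by
      have k1 := Ok_le he g3 (by omega)
      rw [← hB] at k1
      exact log_code (n := n) (B := B) (by omega) g2 k1
    -- the vectors with a coordinate 1 are few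
    have hbad := JJ_mult e Q n 1
    set G := (JJ e Q n).filter (fun v => 1 ∉ Finset.univ.image v) with hG
    have hsplit : (JJ e Q n).card = ((JJ e Q n).filter (fun v => 1 ∈ Finset.univ.image v)).card + G.card := by
      rw [hG, Finset.card_filter_add_card_filter_not]
    have hGc : κ / 2 * (B : ℝ) ^ e * DD e Q n ≤ G.card := by
      have k1 : ((JJ e Q n).card : ℝ) ≤ DD e Q n + G.card := by
        have : (JJ e Q n).card ≤ DD e Q n + G.card := by omega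
        exact_mod_cast this
      rw [Real.rpow_zero, mul_one] at g5
      have k2 : (1 : ℝ) ≤ κ / 2 * (B : ℝ) ^ e := by
        have : κ / 2 * (1 / κ + 1 / κ) ≤ κ / 2 * (B : ℝ) ^ e := mul_le_mul_of_nonneg_left g5 (by positivity)
        refine le_trans (le_of_eq ?_) this
        field_simp
        norm_num
      nlinarith
    have hsum : (G.card : ℝ) * (1 / Real.log B) ^ 3 ≤ ∑ j ∈ JJ e Q n, ∏ t ∈ Finset.univ.image j, rhoW Q t := by
      have k1 : ∑ j ∈ G, ∏ t ∈ Finset.univ.image j, rhoW Q t ≤ ∑ j ∈ JJ e Q n, ∏ t ∈ Finset.univ.image j, rhoW Q t :=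
        Finset.sum_le_sum_of_subset_of_nonneg (Finset.filter_subset _ _)
          (fun j _ _ => Finset.prod_nonneg fun t _ => rhoW_nonneg Q t)
      refine le_trans ?_ k1
      rw [← nsmul_eq_mul]
      refine Finset.card_nsmul_le_sum _ _ _ fun v hv => ?_
      rw [hG, Finset.mem_filter] at hv
      obtain ⟨hv1, hv2⟩ := hv
      obtain ⟨m1, m2, m3⟩ := JJ_mem e Q n v hv1
      have hcard : (Finset.univ.image v).card = 3 := by
        rw [Finset.card_image_of_injective _ m2, Finset.card_univ, Fintype.card_fin]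
      calc (1 / Real.log B) ^ 3 = ∏ t ∈ Finset.univ.image v, (1 / Real.log B) := by
            rw [Finset.prod_const, hcard]
        _ ≤ _ := Finset.prod_le_prod (fun t _ => by positivity) fun t ht => by
            rw [Finset.mem_image] at ht
            obtain ⟨i, -, rfl⟩ := ht
            refine rho_low Q hQ ?_ (m1 i).2.1 (by omega) (m1 i).2.2
            have h1 := (m1 i).1
            by_contra hcon
            have : v i = 1 := by omega
            exact hv2 (this ▸ Finset.mem_image_of_mem v (Finset.mem_univ i))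
    have hfin : κ / 2 * (B : ℝ) ^ e * DD e Q n * (1 / Real.log B) ^ 3 ≤
        ∑ j ∈ JJ e Q n, ∏ t ∈ Finset.univ.image j, rhoW Q t :=
      (mul_le_mul_of_nonneg_right hGc (by positivity)).trans hsum
    have hlB0 : 0 < Real.log B := by linarith
    rw [le_div_iff₀ hln, le_div_iff₀ (by linarith)]
    refine le_trans ?_ hfin
    have hpe : 0 < (B : ℝ) ^ e := Real.rpow_pos_of_pos hB0 _
    calc κ / 2 / 80 * (B : ℝ) ^ e / Real.log B ^ 4 * Real.log n * DD e Q n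
        ≤ κ / 2 / 80 * (B : ℝ) ^ e / Real.log B ^ 4 * (80 * Real.log B) * DD e Q n := by gcongr
      _ = κ / 2 * (B : ℝ) ^ e * DD e Q n * (1 / Real.log B) ^ 3 := by
          field_simp
  have hfam := families (μ := μ) hA (rhoW Q) (fun n => ⟨rhoW_nonneg Q n, rhoW_le Q n⟩)
    (dens_profile hA Q hQ hcop hd) 3 (fun n => JJ e Q n) (fun _ v => Finset.univ.image v) (fun n => DD e Q n)
    (fun n v hv => by
      rw [Finset.card_image_of_injective _ (JJ_mem e Q n v hv).2.1, Finset.card_univ, Fintype.card_fin])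
    (fun n v hv h => by
      rw [Finset.mem_image] at h
      obtain ⟨i, -, hi⟩ := h
      have := ((JJ_mem e Q n v hv).1 i).1
      omega)
    (fun n t => JJ_mult e Q n t) F inf_le_left hE
  filter_upwards [hfam] with ω hω
  filter_upwards [hω (1 / 2) (by norm_num), hE.eventually_gt_atTop 0,
    (eventually_gt_atTop 1).filter_mono inf_le_left] with n g1 g2 g3
  have hn1 : (1 : ℝ) < n := by exact_mod_cast g3
  have hln : 0 < Real.log n := Real.log_pos hn1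
  have hE0 : 0 < ∑ j ∈ JJ e Q n, ∏ t ∈ Finset.univ.image j, rhoW Q t := by
    by_contra hcon
    push Not at hcon
    have : (∑ j ∈ JJ e Q n, ∏ t ∈ Finset.univ.image j, rhoW Q t) / DD e Q n / Real.log n ≤ 0 :=
      div_nonpos_of_nonpos_of_nonneg (div_nonpos_of_nonpos_of_nonneg hcon (Nat.cast_nonneg _)) hln.le
    linarith
  have k1 := (abs_le.1 g1).1
  obtain ⟨v, hv⟩ := ex_of_Mx (rhoW Q) (JJ e Q n) (fun v => Finset.univ.image v) (k := 3) (fun v hv => by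
      rw [Finset.card_image_of_injective _ (JJ_mem e Q n v hv).2.1, Finset.card_univ, Fintype.card_fin]) ω
      (by linarith)
  obtain ⟨m1, m2, m3⟩ := JJ_mem e Q n v hv.1
  exact ⟨v, fun i => ⟨(m1 i).2.1, (m1 i).1, hv.2 _ (Finset.mem_image_of_mem v (Finset.mem_univ i))⟩, m2, m3⟩

end Pool.Agent.N909.TF.Bak
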