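import Mathlib
import Pool.Agent.N909.TF.Tools

set_option autoImplicit false

/-! # The law for families of tuples whose members have different sizes -/

open MeasureTheory Filter Set
open scoped ENNReal Topology

namespace Pool.Agent.N909.TF

open Pool.Agent.R528.RM

variable {Ω : Type} {m0 : MeasurableSpace Ω} {μ : Measure Ω} [IsProbabilityMeasure μ]
  {ℱ : Filtration ℕ m0} {A : ℕ → Set Ω} {ι : Type} {k : ℕ}

/-- the members of a tuple given as a vector -/
def vs (τ : ι → Fin k → ℕ) (j : ι) : Finset ℕ := Finset.univ.image (τ j)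

open Classical in
/-- the tuples of the family with a member whose logarithm is not close to the prescribed one -/
noncomputable def farv (J : Finset ι) (τ : ι → Fin k → ℕ) (κ : Fin k → ℝ) (L δ : ℝ) : Finset ι :=
  J.filter (fun j => ∃ i, δ * L < |Real.log (τ j i) - κ i * L|)

lemma vs_card {τ : ι → Fin k → ℕ} {j : ι} (h : Function.Injective (τ j)) : (vs τ j).card = k := by
  unfold vs
  rw [Finset.card_image_of_injective _ h, Finset.card_univ, Fintype.card_fin]

/-- the expected number of chosen tuples -/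
lemma expectv (Q : ℕ) (hQ : 0 < Q) (J : ℕ → Finset ι) (τ : ℕ → ι → Fin k → ℕ)
    (hinj : ∀ n, ∀ j ∈ J n, Function.Injective (τ n j)) (F : Filter ℕ) (L : ℕ → ℝ) (hL : Tendsto L F atTop)
    (κ : Fin k → ℝ) (hκ : ∀ i, 0 < κ i)
    (hfar : ∀ δ : ℝ, 0 < δ → ∀ᶠ n : ℕ in F,
      ((farv (cop (J n) (vs (τ n)) Q) (τ n) κ (L n) δ).card : ℝ) * L n ^ k ≤ δ * (cop (J n) (vs (τ n)) Q).card)
    (ε : ℝ) (hε : 0 < ε) :
    ∀ᶠ n : ℕ in F, |∑ j ∈ cop (J n) (vs (τ n)) Q, ∏ t ∈ vs (τ n) j, rhoW Q t -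
      ((cop (J n) (vs (τ n)) Q).card : ℝ) * ∏ i, (((Q : ℝ) / Nat.totient Q) / (κ i * L n))| ≤
      ε * (((cop (J n) (vs (τ n)) Q).card : ℝ) * ∏ i, (((Q : ℝ) / Nat.totient Q) / (κ i * L n))) := by
  classical
  obtain ⟨δ, hδ, hδ1, hδε, hd1, hd2⟩ := small_param k (ε / 4) (by positivity)
  have hc := cQ_ge Q hQ
  set c : ℝ := (Q : ℝ) / Nat.totient Q
  -- a lower bound for the scales
  obtain ⟨κ₀, hκ₀, hκmin⟩ : ∃ κ₀ : ℝ, 0 < κ₀ ∧ ∀ i, κ₀ ≤ κ i := by
    by_cases hk : Nonempty (Fin k)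
    · obtain ⟨i₀, -, hi₀⟩ := Finset.exists_min_image Finset.univ κ (Finset.univ_nonempty)
      exact ⟨κ i₀, hκ i₀, fun i => hi₀ i (Finset.mem_univ i)⟩
    · exact ⟨1, one_pos, fun i => absurd ⟨i⟩ hk⟩
  have hP : 0 < ∏ i, κ i := Finset.prod_pos fun i _ => hκ i
  filter_upwards [hfar (min (δ * κ₀) (δ / ∏ i, κ i)) (by positivity), hL.eventually_ge_atTop (2 * c / κ₀),
    hL.eventually_gt_atTop 0] with n g1 g2 hL0
  rw [div_le_iff₀ hκ₀] at g2
  set G := cop (J n) (vs (τ n)) Q with hG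
  set δ' := min (δ * κ₀) (δ / ∏ i, κ i) with hδ'
  set B := farv G (τ n) κ (L n) δ' with hB
  have hBG : B ⊆ G := Finset.filter_subset _ _
  have hsplit : ∑ j ∈ G, ∏ t ∈ vs (τ n) j, rhoW Q t = ∑ j ∈ G \ B, ∏ t ∈ vs (τ n) j, rhoW Q t +
      ∑ j ∈ B, ∏ t ∈ vs (τ n) j, rhoW Q t := (Finset.sum_sdiff hBG).symm
  set w : ℝ := ∏ i, (c / (κ i * L n)) with hw
  have hw0 : 0 < w := Finset.prod_pos fun i _ => by
    have := hκ i
    positivity
  have h1 : ∀ j ∈ G \ B, (1 - ε / 4) * w ≤ ∏ t ∈ vs (τ n) j, rhoW Q t ∧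
      ∏ t ∈ vs (τ n) j, rhoW Q t ≤ (1 + ε / 4) * w := by
    intro j hj
    rw [Finset.mem_sdiff] at hj
    have hjG := hj.1
    rw [hG] at hjG
    unfold cop at hjG
    rw [Finset.mem_filter] at hjG
    have hnear : ∀ i, |Real.log (τ n j i) - κ i * L n| ≤ δ * (κ i * L n) := by
      intro i
      have k1 : |Real.log (τ n j i) - κ i * L n| ≤ δ' * L n := by
        by_contra hcon
        apply hj.2
        rw [hB]
        unfold farv
        rw [Finset.mem_filter]
        exact ⟨hj.1, i, not_le.1 hcon⟩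
      refine k1.trans ?_
      have k2 : δ' ≤ δ * κ i := (min_le_left _ _).trans (mul_le_mul_of_nonneg_left (hκmin i) hδ.le)
      calc δ' * L n ≤ δ * κ i * L n := mul_le_mul_of_nonneg_right k2 hL0.le
        _ = _ := by ring
    have hprod : ∏ t ∈ vs (τ n) j, rhoW Q t = ∏ i, rhoW Q (τ n j i) := by
      unfold vs
      rw [Finset.prod_image (fun a _ b _ h => hinj n j hjG.1 h)]
    have hLi : ∀ i, 2 * c ≤ κ i * L n := by
      intro i
      have : κ₀ * L n ≤ κ i * L n := mul_le_mul_of_nonneg_right (hκmin i) hL0.le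
      linarith
    have hpr := fun i => rho_near Q hQ hδ hδ1 (hLi i) (hjG.2 (τ n j i) (by
      unfold vs
      exact Finset.mem_image_of_mem _ (Finset.mem_univ i))) (hnear i)
    rw [hprod]
    have hpos : ∀ i, 0 < c / (κ i * L n) := fun i => by
      have := hκ i
      positivity
    constructor
    · calc (1 - ε / 4) * w ≤ (1 - δ) ^ k * w := mul_le_mul_of_nonneg_right hd2 hw0.le
        _ = ∏ i, ((1 - δ) * (c / (κ i * L n))) := by
            rw [Finset.prod_mul_distrib, Finset.prod_const, Finset.card_univ, Fintype.card_fin]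
        _ ≤ _ := Finset.prod_le_prod (fun i _ => mul_nonneg (by linarith) (hpos i).le) fun i _ => (hpr i).1
    · calc ∏ i, rhoW Q (τ n j i) ≤ ∏ i, ((1 + 2 * δ) * (c / (κ i * L n))) :=
            Finset.prod_le_prod (fun i _ => rhoW_nonneg Q _) fun i _ => (hpr i).2
        _ = (1 + 2 * δ) ^ k * w := by
            rw [Finset.prod_mul_distrib, Finset.prod_const, Finset.card_univ, Fintype.card_fin]
        _ ≤ _ := mul_le_mul_of_nonneg_right hd1 hw0.le
  have h2 : 0 ≤ ∑ j ∈ B, ∏ t ∈ vs (τ n) j, rhoW Q t :=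
    Finset.sum_nonneg fun j _ => Finset.prod_nonneg fun t _ => rhoW_nonneg Q t
  have h3 : ∑ j ∈ B, ∏ t ∈ vs (τ n) j, rhoW Q t ≤ B.card := by
    refine (Finset.sum_le_card_nsmul _ _ 1 fun j _ =>
      Finset.prod_le_one (fun t _ => rhoW_nonneg Q t) fun t _ => rhoW_le Q t).trans ?_
    rw [nsmul_eq_mul, mul_one]
  have hwc : w = c ^ k / ((∏ i, κ i) * L n ^ k) := by
    rw [hw, Finset.prod_div_distrib, Finset.prod_mul_distrib, Finset.prod_const, Finset.prod_const,
      Finset.card_univ, Fintype.card_fin]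
  have h4 : (B.card : ℝ) ≤ ε / 4 * (G.card * w) := by
    have e1 : (B.card : ℝ) ≤ δ' * G.card / L n ^ k := by
      rw [le_div_iff₀ (by positivity)]
      exact g1
    refine e1.trans ?_
    have e2 : (1 : ℝ) ≤ c ^ k := one_le_pow₀ hc
    have e3 : δ' ≤ ε / 4 / ∏ i, κ i := (min_le_right _ _).trans (by gcongr)
    rw [hwc]
    have e4 : δ' * G.card / L n ^ k ≤ ε / 4 / (∏ i, κ i) * G.card / L n ^ k := by gcongr
    refine e4.trans ?_
    have e5 : ε / 4 / (∏ i, κ i) * G.card / L n ^ k = ε / 4 * (G.card * (1 / ((∏ i, κ i) * L n ^ k))) := by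
      field_simp
    rw [e5]
    gcongr
  have h5 : (B.card : ℝ) * w ≤ B.card := by
    have : w ≤ 1 := by
      rw [hw]
      refine Finset.prod_le_one (fun i _ => ?_) fun i _ => ?_
      · have := hκ i
        positivity
      · have := hκ i
        rw [div_le_one (by positivity)]
        have : κ₀ * L n ≤ κ i * L n := mul_le_mul_of_nonneg_right (hκmin i) hL0.le
        linarith
    have h0 : (0 : ℝ) ≤ B.card := Nat.cast_nonneg _
    nlinarith
  have hGB : ((G \ B).card : ℝ) = G.card - B.card := by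
    rw [Finset.card_sdiff_of_subset hBG, Nat.cast_sub (Finset.card_le_card hBG)]
  have h6 : ((G \ B).card : ℝ) * ((1 - ε / 4) * w) ≤ ∑ j ∈ G \ B, ∏ t ∈ vs (τ n) j, rhoW Q t := by
    rw [← nsmul_eq_mul]
    exact Finset.card_nsmul_le_sum _ _ _ fun j hj => (h1 j hj).1
  have h7 : ∑ j ∈ G \ B, ∏ t ∈ vs (τ n) j, rhoW Q t ≤ ((G \ B).card : ℝ) * ((1 + ε / 4) * w) := by
    rw [← nsmul_eq_mul]
    exact Finset.sum_le_card_nsmul _ _ _ fun j hj => (h1 j hj).2
  rw [hsplit]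
  set x : ℝ := G.card * w with hx
  set b : ℝ := (B.card : ℝ)
  have hb0 : 0 ≤ b := Nat.cast_nonneg _
  have hx0 : 0 ≤ x := by positivity
  have e1 : ((G \ B).card : ℝ) * ((1 + ε / 4) * w) ≤ (1 + ε / 4) * x := by
    rw [hGB]
    have : (1 + ε / 4) * (b * w) ≥ 0 := by positivity
    nlinarith
  have e2 : (1 - ε / 4) * x - (1 - ε / 4) * (b * w) ≤ ((G \ B).card : ℝ) * ((1 - ε / 4) * w) := by
    rw [hGB]
    apply le_of_eq
    rw [hx]
    ring
  have e3 : (1 - ε / 4) * (b * w) ≤ b := by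
    have : 0 ≤ b * w := by positivity
    nlinarith
  rw [abs_le]
  constructor <;> nlinarith

/-- **the law for tuples with members of different sizes** `n ^ κ i` -/
theorem lawv (hA : ∀ n, MeasurableSet[ℱ n] (A n)) (Q : ℕ) (hQ : 0 < Q)
    (hcop : ∀ n, ¬ Nat.Coprime n Q → A n = ∅)
    (hd : ∀ᵐ ω ∂μ, Tendsto (fun n : ℕ => dens μ ℱ A n ω * Real.log n)
      (atTop ⊓ 𝓟 {n : ℕ | Nat.Coprime (n + 1) Q}) (𝓝 ((Q : ℝ) / Nat.totient Q)))
    (J : ℕ → Finset ι) (τ : ℕ → ι → Fin k → ℕ) (D : ℕ → ℕ)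
    (hinj : ∀ n, ∀ j ∈ J n, Function.Injective (τ n j)) (h0 : ∀ n, ∀ j ∈ J n, ∀ i, 0 < τ n j i)
    (hD : ∀ n t, ((J n).filter (fun j => t ∈ vs (τ n) j)).card ≤ D n) (hD1 : ∀ n, 1 ≤ D n)
    (F : Filter ℕ) (hF : F ≤ atTop) (κ : Fin k → ℝ) (hκ : ∀ i, 0 < κ i) (s c : ℝ) (hc : 0 < c)
    (hN : ∀ᶠ n : ℕ in F, c * (n : ℝ) ^ s ≤ ((cop (J n) (vs (τ n)) Q).card : ℝ))
    (hDn : ∃ η : ℝ, 0 < η ∧ ∀ᶠ n : ℕ in F, (D n : ℝ) ≤ (n : ℝ) ^ (s - η))
    (hfar : ∀ δ : ℝ, 0 < δ → ∃ η : ℝ, 0 < η ∧ ∀ᶠ n : ℕ in F,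
      ((farv (J n) (τ n) κ (Real.log n) δ).card : ℝ) ≤ (n : ℝ) ^ (s - η)) :
    ∀ᵐ ω ∂μ, ∀ δ : ℝ, 0 < δ → ∀ᶠ n : ℕ in F,
      |((cho A (J n) (vs (τ n)) ω).card : ℝ) -
        ((cop (J n) (vs (τ n)) Q).card : ℝ) * ∏ i, (((Q : ℝ) / Nat.totient Q) / (κ i * Real.log n))| ≤
      δ * (((cop (J n) (vs (τ n)) Q).card : ℝ) * ∏ i, (((Q : ℝ) / Nat.totient Q) / (κ i * Real.log n))) := by
  classical
  have hc1 := cQ_ge Q hQ
  have hlog : Tendsto (fun n : ℕ => Real.log n) F atTop :=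
    (Real.tendsto_log_atTop.comp tendsto_natCast_atTop_atTop).mono_left hF
  have hk : ∀ n, ∀ j ∈ J n, (vs (τ n) j).card = k := fun n j hj => vs_card (hinj n j hj)
  have h0' : ∀ n, ∀ j ∈ J n, 0 ∉ vs (τ n) j := by
    intro n j hj h
    unfold vs at h
    rw [Finset.mem_image] at h
    obtain ⟨i, -, h1⟩ := h
    have := h0 n j hj i
    omega
  have hfar' : ∀ δ : ℝ, 0 < δ → ∀ᶠ n : ℕ in F,
      ((farv (cop (J n) (vs (τ n)) Q) (τ n) κ (Real.log n) δ).card : ℝ) * Real.log n ^ k ≤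
        δ * (cop (J n) (vs (τ n)) Q).card := by
    intro δ hδ
    obtain ⟨η, hη, h1⟩ := hfar δ hδ
    have h2 := (pow_log (δ * c) η (by positivity) hη k).mono_left hF
    filter_upwards [h1, hN, h2.eventually_ge_atTop 1, (eventually_gt_atTop 1).filter_mono hF] with n g1 g2 g3 g4
    have hn : (1 : ℝ) < n := by exact_mod_cast g4
    have hn0 : (0 : ℝ) < n := by linarith
    have hL : 0 < Real.log n := Real.log_pos hn
    have k1 : ((farv (cop (J n) (vs (τ n)) Q) (τ n) κ (Real.log n) δ).card : ℝ) ≤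
        ((farv (J n) (τ n) κ (Real.log n) δ).card : ℝ) := by
      have : (farv (cop (J n) (vs (τ n)) Q) (τ n) κ (Real.log n) δ).card ≤ (farv (J n) (τ n) κ (Real.log n) δ).card := by
        apply Finset.card_le_card
        intro j hj
        unfold farv cop at hj
        rw [Finset.mem_filter, Finset.mem_filter] at hj
        unfold farv
        rw [Finset.mem_filter]
        exact ⟨hj.1.1, hj.2⟩
      exact_mod_cast this
    have k2 : 1 * Real.log n ^ k ≤ δ * c * (n : ℝ) ^ η := by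
      rwa [le_div_iff₀ (by positivity)] at g3
    calc ((farv (cop (J n) (vs (τ n)) Q) (τ n) κ (Real.log n) δ).card : ℝ) * Real.log n ^ k
        ≤ (n : ℝ) ^ (s - η) * Real.log n ^ k := by
          apply mul_le_mul_of_nonneg_right (k1.trans g1) (by positivity)
      _ ≤ (n : ℝ) ^ (s - η) * (δ * c * (n : ℝ) ^ η) := by
          apply mul_le_mul_of_nonneg_left _ (by positivity)
          linarith
      _ = δ * (c * (n : ℝ) ^ s) := by
          have : (n : ℝ) ^ s = (n : ℝ) ^ (s - η) * (n : ℝ) ^ η := by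
            rw [← Real.rpow_add hn0]
            congr 1
            ring
          rw [this]
          ring
      _ ≤ δ * ((cop (J n) (vs (τ n)) Q).card : ℝ) := mul_le_mul_of_nonneg_left g2 hδ.le
  have hex := expectv Q hQ J τ hinj F (fun n => Real.log n) hlog κ hκ hfar'
  set C : ℝ := (Q : ℝ) / Nat.totient Q with hCdef
  have hP : 0 < ∏ i, κ i := Finset.prod_pos fun i _ => hκ i
  have hE' : Tendsto (fun n => (∑ j ∈ cop (J n) (vs (τ n)) Q, ∏ t ∈ vs (τ n) j, rhoW Q t) / D n / Real.log n) F atTop := by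
    obtain ⟨η, hη, h1⟩ := hDn
    have h2 := (pow_log (c / (2 * ∏ i, κ i)) η (by positivity) hη (k + 1)).mono_left hF
    refine tendsto_atTop_mono' F ?_ h2
    filter_upwards [h1, hN, (eventually_gt_atTop 1).filter_mono hF, hex (1 / 2) (by norm_num)] with n g1 g2 g4 g5
    have hn : (1 : ℝ) < n := by exact_mod_cast g4
    have hn0 : (0 : ℝ) < n := by linarith
    have hL : 0 < Real.log n := Real.log_pos hn
    have hD0 : (0 : ℝ) < D n := by exact_mod_cast hD1 n
    have k1 := (abs_le.1 g5).1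
    set N : ℝ := ((cop (J n) (vs (τ n)) Q).card : ℝ)
    have hwc : ∏ i, (C / (κ i * Real.log n)) = C ^ k / ((∏ i, κ i) * Real.log n ^ k) := by
      rw [Finset.prod_div_distrib, Finset.prod_mul_distrib, Finset.prod_const, Finset.prod_const,
        Finset.card_univ, Fintype.card_fin]
    rw [hwc] at k1
    have k2 : 1 / ((∏ i, κ i) * Real.log n ^ k) ≤ C ^ k / ((∏ i, κ i) * Real.log n ^ k) := by
      have : (1 : ℝ) ≤ C ^ k := one_le_pow₀ hc1
      gcongr
    have k3 : c * (n : ℝ) ^ s * (1 / ((∏ i, κ i) * Real.log n ^ k)) ≤ N * (C ^ k / ((∏ i, κ i) * Real.log n ^ k)) :=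
      mul_le_mul g2 k2 (by positivity) (Nat.cast_nonneg _)
    have k4 : 1 / 2 * (c * (n : ℝ) ^ s * (1 / ((∏ i, κ i) * Real.log n ^ k))) ≤
        ∑ j ∈ cop (J n) (vs (τ n)) Q, ∏ t ∈ vs (τ n) j, rhoW Q t := by linarith
    have e1 : (n : ℝ) ^ s = (n : ℝ) ^ (s - η) * (n : ℝ) ^ η := by
      rw [← Real.rpow_add hn0]
      congr 1
      ring
    have hp : 0 < (n : ℝ) ^ (s - η) := Real.rpow_pos_of_pos hn0 _
    have hp' : 0 < (n : ℝ) ^ η := Real.rpow_pos_of_pos hn0 _
    rw [div_div, le_div_iff₀ (by positivity)]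
    refine le_trans ?_ k4
    calc c / (2 * ∏ i, κ i) * (n : ℝ) ^ η / Real.log n ^ (k + 1) * (D n * Real.log n)
        ≤ c / (2 * ∏ i, κ i) * (n : ℝ) ^ η / Real.log n ^ (k + 1) * ((n : ℝ) ^ (s - η) * Real.log n) := by gcongr
      _ = 1 / 2 * (c * (n : ℝ) ^ s * (1 / ((∏ i, κ i) * Real.log n ^ k))) := by
          rw [e1, pow_succ]
          field_simp
  have hfam := families (μ := μ) hA (rhoW Q) (fun n => ⟨rhoW_nonneg Q n, rhoW_le Q n⟩)
    (dens_profile hA Q hQ hcop hd) k (fun n => cop (J n) (vs (τ n)) Q) (fun n => vs (τ n)) D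
    (fun n j hj => hk n j (Finset.mem_of_mem_filter j hj)) (fun n j hj => h0' n j (Finset.mem_of_mem_filter j hj))
    (fun n t => by
      refine le_trans ?_ (hD n t)
      apply Finset.card_le_card
      intro j hj
      rw [Finset.mem_filter] at hj ⊢
      exact ⟨Finset.mem_of_mem_filter j hj.1, hj.2⟩) F hF hE'
  filter_upwards [hfam] with ω hω δ hδ
  set η : ℝ := min (δ / 3) 1 with hη
  have hη0 : 0 < η := by rw [hη]; positivity
  have hη1 : η ≤ 1 := min_le_right _ _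
  have hηδ : 3 * η ≤ δ := by
    have : η ≤ δ / 3 := min_le_left _ _
    linarith
  filter_upwards [hω η hη0, hex η hη0] with n g1 g2
  rw [Mx_top (rhoW Q) (cop (J n) (vs (τ n)) Q) (vs (τ n)) (k := k) (fun j hj => hk n j (Finset.mem_of_mem_filter j hj))] at g1
  have e1 : (cop (J n) (vs (τ n)) Q).filter (fun j => ∀ t ∈ vs (τ n) j, ω ∈ A t) = cho A (J n) (vs (τ n)) ω := by
    unfold cop cho
    rw [Finset.filter_filter]
    apply Finset.filter_congr
    intro j _
    constructor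
    · exact fun h => h.2
    · intro h
      refine ⟨fun t ht => ?_, h⟩
      by_contra hcon
      have := h t ht
      rw [hcop t hcon] at this
      exact this
  rw [e1] at g1
  set x : ℝ := ((cop (J n) (vs (τ n)) Q).card : ℝ) * ∏ i, (C / (κ i * Real.log n))
  set E : ℝ := ∑ j ∈ cop (J n) (vs (τ n)) Q, ∏ t ∈ vs (τ n) j, rhoW Q t
  set R : ℝ := ((cho A (J n) (vs (τ n)) ω).card : ℝ)
  have k1 := abs_le.1 g1
  have k2 := abs_le.1 g2
  have hx0 : 0 ≤ x := by
    by_contra hcon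
    push Not at hcon
    nlinarith
  have hηx : 0 ≤ η * x := by positivity
  have k3 : η * E ≤ η * ((1 + η) * x) := mul_le_mul_of_nonneg_left (by linarith) hη0.le
  have k4 : η * (η * x) ≤ 1 * (η * x) := mul_le_mul_of_nonneg_right hη1 hηx
  have k5 : 3 * η * x ≤ δ * x := mul_le_mul_of_nonneg_right hηδ hx0
  rw [abs_le]
  constructor <;> nlinarith

end Pool.Agent.N909.TF
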